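import Pool.Agent.T2h84.LD.Sup
import Pool.Agent.W110.HV.Prep
import Pool.Agent.H398R2.BA1

/-!
Pointwise bounds, and the sum of the test function over the integers prime to the modulus.
-/

set_option autoImplicit false

open Finset

namespace Pool.Agent.T2h84.LD

open H343 (LL)
open Pool.Agent.W110.HV (ev_const ev_pow div_N markov)

/-- pointwise bounds for the coefficients and the test function -/
theorem pw (δ : ℝ) (hδ : 0 < δ) : ∃ N0 : ℕ, ∀ N : ℕ, N0 ≤ N → ∀ P R : ℕ, R ≤ N →
    (∀ d : ℕ, 1 ≤ d → d ≤ R → |cf P R d| ≤ (N : ℝ) ^ δ) ∧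
    (∀ n : ℕ, 1 ≤ n → n ≤ 3 * N → |TT P R n| ≤ (N : ℝ) ^ δ) := by
  classical
  obtain ⟨C, hC, hLL⟩ := H343.LL_upper
  obtain ⟨n1, h1⟩ := div_N (δ / 3) (by positivity)
  obtain ⟨n2, h2⟩ := ev_pow (2 * C) 1 (δ / 3) (by positivity)
  refine ⟨max (max n1 n2) 3, fun N hN P R hRN => ?_⟩
  have hN1 : n1 ≤ N := le_trans (le_trans (le_max_left _ _) (le_max_left _ _)) hN
  have hN2 : n2 ≤ N := le_trans (le_trans (le_max_right _ _) (le_max_left _ _)) hN
  have hN3 : 3 ≤ N := le_trans (le_max_right _ _) hN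
  have hNr : (3 : ℝ) ≤ N := by exact_mod_cast hN3
  have hN0 : (0 : ℝ) < N := by linarith
  have hN11 : (1 : ℝ) ≤ N := by linarith
  have e1 := h1 N hN1
  have e2 := h2 N hN2
  rw [pow_one] at e2
  have hL1 : 1 ≤ Real.log N := by
    rw [← Real.log_exp 1]
    apply Real.log_le_log (Real.exp_pos 1)
    have := Real.exp_one_lt_d9
    linarith
  have hLR : LL 0 R ≤ (N : ℝ) ^ (δ / 3) := by
    refine (hLL 0 R).trans ?_
    have hlR : Real.log R ≤ Real.log N := by
      rcases Nat.eq_zero_or_pos R with h0 | h0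
      · rw [h0]; simp; linarith
      · exact Real.log_le_log (by exact_mod_cast h0) (by exact_mod_cast hRN)
    calc C * (1 + Real.log R) ≤ C * (Real.log N + Real.log N) := by gcongr
      _ = 2 * C * Real.log N := by ring
      _ ≤ _ := e2
  have hLL0 : 0 ≤ LL 0 R := sum_nonneg fun _ _ => by positivity
  have hdr : ∀ n : ℕ, 1 ≤ n → n ≤ 3 * N → (n : ℝ) / Nat.totient n ≤ (N : ℝ) ^ (δ / 3) := by
    intro n hn hn3
    refine le_trans ?_ (e1 n hn hn3)
    have hn0 : (0 : ℝ) < n := by exact_mod_cast hn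
    have g1 := Pool.Agent.H398R2.BV.one_div_totient_le n hn
    have g2 := Pool.Agent.H398R2.BV.two_pow_omega_le n (by omega)
    calc (n : ℝ) / Nat.totient n = n * (1 / (Nat.totient n : ℝ)) := by ring
      _ ≤ n * (2 ^ n.primeFactors.card / n) := mul_le_mul_of_nonneg_left g1 hn0.le
      _ = 2 ^ n.primeFactors.card := by field_simp
      _ ≤ _ := by exact_mod_cast g2
  have hpw : (N : ℝ) ^ (δ / 3) * (N : ℝ) ^ (δ / 3) * (N : ℝ) ^ (δ / 3) = (N : ℝ) ^ δ := by
    rw [← Real.rpow_add hN0, ← Real.rpow_add hN0]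
    congr 1
    ring
  have hone : 1 ≤ (N : ℝ) ^ (δ / 3) := Real.one_le_rpow hN11 (by positivity)
  have hcf : ∀ d : ℕ, 1 ≤ d → d ≤ R → |cf P R d| ≤ (N : ℝ) ^ (δ / 3) * (N : ℝ) ^ (δ / 3) := by
    intro d hd hdR
    refine (abs_cf_le P R d hd).trans ?_
    exact mul_le_mul (hdr d hd (by omega)) hLR hLL0 (by positivity)
  constructor
  · intro d hd hdR
    refine (hcf d hd hdR).trans ?_
    rw [← hpw]
    exact le_mul_of_one_le_right (by positivity) hone
  · intro n hn hn3
    unfold TT
    refine (abs_sum_le_sum_abs _ _).trans ?_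
    calc ∑ d ∈ (Icc 1 R).filter (fun d => d ∣ n), |cf P R d|
        ≤ ∑ d ∈ (Icc 1 R).filter (fun d => d ∣ n), (N : ℝ) ^ (δ / 3) * (N : ℝ) ^ (δ / 3) := by
          apply sum_le_sum
          intro d hd
          rw [mem_filter, mem_Icc] at hd
          exact hcf d hd.1.1 hd.1.2
      _ = (((Icc 1 R).filter (fun d => d ∣ n)).card : ℝ) * ((N : ℝ) ^ (δ / 3) * (N : ℝ) ^ (δ / 3)) := by
          rw [sum_const, nsmul_eq_mul]
      _ ≤ (N : ℝ) ^ (δ / 3) * ((N : ℝ) ^ (δ / 3) * (N : ℝ) ^ (δ / 3)) := by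
          apply mul_le_mul_of_nonneg_right _ (by positivity)
          refine le_trans ?_ (e1 n hn hn3)
          have : (Icc 1 R).filter (fun d => d ∣ n) ⊆ n.divisors := by
            intro d hd
            rw [mem_filter] at hd
            rw [Nat.mem_divisors]
            exact ⟨hd.2, by omega⟩
          exact_mod_cast card_le_card this
      _ = _ := by rw [← hpw]; ring

/-- the sum of the test function over the integers prime to `k` -/
theorem cent (P R N k : ℕ) (hP : 1 ≤ P) (hk : 1 ≤ k) (W : ℝ)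
    (hW : ∀ d : ℕ, 1 ≤ d → d ≤ R → |cf P R d| ≤ W) (hW' : ∀ n : ℕ, 1 ≤ n → n ≤ N → |TT P R n| ≤ W)
    (hW0 : 0 ≤ W) :
    |∑ m ∈ (Icc 1 N).filter (fun m => Nat.Coprime m k), TT P R m| ≤
      (k.divisors.card : ℝ) * (W * ((N : ℝ) / P + R)) := by
  classical
  have hP0 : (0 : ℝ) < P := by exact_mod_cast hP
  have e1 : ∑ m ∈ (Icc 1 N).filter (fun m => Nat.Coprime m k), TT P R m =
      ∑ g ∈ k.divisors, mu g * ∑ m ∈ (Icc 1 N).filter (fun m => g ∣ m), TT P R m := by
    have e2 : ∀ m ∈ Icc 1 N, (if Nat.Coprime m k then TT P R m else 0) =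
        ∑ g ∈ k.divisors, if g ∣ m then mu g * TT P R m else 0 := by
      intro m hm
      rw [← sum_filter, ← sum_mul]
      have e3 : k.divisors.filter (fun g => g ∣ m) = (Nat.gcd m k).divisors := by
        ext g
        simp only [mem_filter, Nat.mem_divisors, Nat.dvd_gcd_iff]
        constructor
        · rintro ⟨⟨h1, h2⟩, h3⟩
          exact ⟨⟨h3, h1⟩, (Nat.gcd_pos_of_pos_right _ hk).ne'⟩
        · rintro ⟨⟨h1, h3⟩, _⟩
          exact ⟨⟨h3, by omega⟩, h1⟩
      rw [e3, sum_mu_divisors]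
      unfold Nat.Coprime
      split_ifs <;> ring
    rw [sum_filter, sum_congr rfl e2, sum_comm]
    apply sum_congr rfl
    intro g _
    rw [← sum_filter, mul_sum]
  rw [e1]
  refine (abs_sum_le_sum_abs _ _).trans ?_
  have h1 : ∀ g ∈ k.divisors, |mu g * ∑ m ∈ (Icc 1 N).filter (fun m => g ∣ m), TT P R m| ≤
      W * ((N : ℝ) / P + R) := by
    intro g hg
    have hg1 : 1 ≤ g := Nat.pos_of_mem_divisors hg
    have hg0 : (0 : ℝ) < g := by exact_mod_cast hg1
    rw [abs_mul]
    have h2 : |∑ m ∈ (Icc 1 N).filter (fun m => g ∣ m), TT P R m| ≤ W * ((N : ℝ) / P + R) := by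
      rcases Nat.lt_or_ge P g with h | h
      · -- large divisors
        refine (abs_sum_le_sum_abs _ _).trans ?_
        calc ∑ m ∈ (Icc 1 N).filter (fun m => g ∣ m), |TT P R m|
            ≤ ∑ m ∈ (Icc 1 N).filter (fun m => g ∣ m), W := by
              apply sum_le_sum
              intro m hm
              rw [mem_filter, mem_Icc] at hm
              exact hW' m hm.1.1 hm.1.2
          _ = (((Icc 1 N).filter (fun m => g ∣ m)).card : ℝ) * W := by rw [sum_const, nsmul_eq_mul]
          _ ≤ (N / g) * W := by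
              apply mul_le_mul_of_nonneg_right _ hW0
              have : (Icc 1 N).filter (fun m => g ∣ m) = (Ioc 0 N).filter (fun m => g ∣ m) := by
                ext n
                simp only [mem_filter, mem_Icc, mem_Ioc]
                constructor
                · rintro ⟨⟨a, b⟩, c⟩; exact ⟨⟨by omega, b⟩, c⟩
                · rintro ⟨⟨a, b⟩, c⟩; exact ⟨⟨by omega, b⟩, c⟩
              rw [this, Nat.Ioc_filter_dvd_card_eq_div]
              exact Nat.cast_div_le
          _ ≤ (N / P) * W := by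
              apply mul_le_mul_of_nonneg_right _ hW0
              apply div_le_div_of_nonneg_left (Nat.cast_nonneg _) hP0
              exact_mod_cast h.le
          _ ≤ _ := by
              have : 0 ≤ W * (R : ℝ) := by positivity
              nlinarith
      · rw [sum_TT_mult P R N g hg1, sum_cf_lcm_zero P R g hg1 h, mul_zero, zero_sub, abs_neg]
        refine (abs_sum_le_sum_abs _ _).trans ?_
        calc ∑ d ∈ Icc 1 R, |cf P R d * Int.fract ((N : ℝ) / (Nat.lcm g d : ℝ))|
            ≤ ∑ d ∈ Icc 1 R, W := by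
              apply sum_le_sum
              intro d hd
              rw [mem_Icc] at hd
              rw [abs_mul, abs_of_nonneg (Int.fract_nonneg ((N : ℝ) / (Nat.lcm g d : ℝ)))]
              calc |cf P R d| * Int.fract ((N : ℝ) / (Nat.lcm g d : ℝ)) ≤ W * 1 :=
                    mul_le_mul (hW d hd.1 hd.2) (Int.fract_lt_one _).le (Int.fract_nonneg _) hW0
                _ = W := mul_one _
          _ = R * W := by rw [sum_const, Nat.card_Icc, nsmul_eq_mul]; simp
          _ ≤ _ := by
              have : 0 ≤ W * ((N : ℝ) / P) := by positivity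
              nlinarith
    calc |mu g| * |∑ m ∈ (Icc 1 N).filter (fun m => g ∣ m), TT P R m| ≤ 1 * (W * ((N : ℝ) / P + R)) :=
          mul_le_mul (abs_mu_le g) h2 (abs_nonneg _) (by norm_num)
      _ = _ := one_mul _
  refine (sum_le_sum h1).trans ?_
  rw [sum_const, nsmul_eq_mul]

end Pool.Agent.T2h84.LD
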