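import Pool.Agent.T2h84.LD.FS

/-!
The test function `TT P R n = ∑_{P < q ≤ R} μ(q) c_q(n) / φ(q)` and its coefficients.
-/

set_option autoImplicit false

open Finset

namespace Pool.Agent.T2h84.LD

open H343 (LL)

/-- the coefficients: `TT P R n = ∑_{d ∣ n} cf P R d` -/
noncomputable def cf (P R d : ℕ) : ℝ := d * mu d * ∑ q ∈ (H343.Mod P R).filter (fun q => d ∣ q), 1 / (Nat.totient q : ℝ)

/-- the test function -/
noncomputable def TT (P R n : ℕ) : ℝ := ∑ d ∈ (Icc 1 R).filter (fun d => d ∣ n), cf P R d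

lemma cf_zero {P R d : ℕ} (h : ¬ Squarefree d) : cf P R d = 0 := by
  unfold cf
  rw [mu_zero h]
  ring

lemma mem_Mod {P R q : ℕ} : q ∈ H343.Mod P R ↔ (P < q ∧ q ≤ R) ∧ Squarefree q := by
  unfold H343.Mod
  rw [mem_filter, mem_Ioc]

lemma sum_mu_divisors (m : ℕ) : ∑ k ∈ m.divisors, mu k = if m = 1 then 1 else 0 := by
  have h : ((ArithmeticFunction.moebius : ArithmeticFunction ℤ) *
      (ArithmeticFunction.zeta : ArithmeticFunction ℤ)) m = (1 : ArithmeticFunction ℤ) m := by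
    rw [ArithmeticFunction.moebius_mul_coe_zeta]
  rw [ArithmeticFunction.coe_mul_zeta_apply, ArithmeticFunction.one_apply] at h
  unfold mu
  exact_mod_cast h

/-- `∑_{g ∣ d} cf(d) / d` -/
lemma sum_cf_mult (P R g : ℕ) (hg : 1 ≤ g) :
    ∑ d ∈ (Icc 1 R).filter (fun d => g ∣ d), cf P R d / d =
      if g ∈ H343.Mod P R then mu g / Nat.totient g else 0 := by
  classical
  have e1 : ∀ d ∈ (Icc 1 R).filter (fun d => g ∣ d), cf P R d / d =
      ∑ q ∈ H343.Mod P R, if d ∣ q then mu d * (1 / (Nat.totient q : ℝ)) else 0 := by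
    intro d hd
    rw [mem_filter, mem_Icc] at hd
    have hd0 : (d : ℝ) ≠ 0 := by
      have : 0 < d := hd.1.1
      positivity
    unfold cf
    rw [← sum_filter, ← mul_sum]
    field_simp
  rw [sum_congr rfl e1, sum_comm]
  have e2 : ∀ q ∈ H343.Mod P R, (∑ d ∈ (Icc 1 R).filter (fun d => g ∣ d),
      if d ∣ q then mu d * (1 / (Nat.totient q : ℝ)) else 0) =
      if g = q then mu q * (1 / (Nat.totient q : ℝ)) else 0 := by
    intro q hq
    rw [mem_Mod] at hq
    have hq0 : q ≠ 0 := hq.2.ne_zero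
    rw [← sum_filter, filter_filter]
    have e3 : (Icc 1 R).filter (fun d => g ∣ d ∧ d ∣ q) = q.divisors.filter (fun d => g ∣ d) := by
      ext d
      simp only [mem_filter, mem_Icc, Nat.mem_divisors]
      constructor
      · rintro ⟨_, h1, h2⟩
        exact ⟨⟨h2, hq0⟩, h1⟩
      · rintro ⟨⟨h2, _⟩, h1⟩
        exact ⟨⟨Nat.pos_of_dvd_of_pos h2 (Nat.pos_of_ne_zero hq0),
          (Nat.le_of_dvd (Nat.pos_of_ne_zero hq0) h2).trans hq.1.2⟩, h1, h2⟩
    rw [e3, ← sum_mul]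
    by_cases hgq : g ∣ q
    · obtain ⟨m, rfl⟩ := hgq
      have hm0 : m ≠ 0 := by rintro rfl; simp at hq0
      have hcop : Nat.Coprime g m := Nat.coprime_of_squarefree_mul hq.2
      have e4 : (g * m).divisors.filter (fun d => g ∣ d) = m.divisors.image (fun e => g * e) := by
        ext d
        simp only [mem_filter, Nat.mem_divisors, mem_image]
        constructor
        · rintro ⟨⟨h1, _⟩, k, rfl⟩
          exact ⟨k, ⟨(Nat.mul_dvd_mul_iff_left hg).1 h1, hm0⟩, rfl⟩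
        · rintro ⟨k, ⟨h1, _⟩, rfl⟩
          exact ⟨⟨Nat.mul_dvd_mul_left g h1, hq0⟩, dvd_mul_right g k⟩
      rw [e4, sum_image (fun a _ b _ hab => Nat.eq_of_mul_eq_mul_left hg hab)]
      have e5 : ∀ k ∈ m.divisors, mu (g * k) = mu g * mu k := by
        intro k hk
        exact mu_mul (hcop.coprime_dvd_right (Nat.dvd_of_mem_divisors hk))
      rw [sum_congr rfl e5, ← mul_sum]
      have e6 : ∑ k ∈ m.divisors, mu k = if m = 1 then 1 else 0 := by
        have h := Pool.Agent.T2h84.LD.sum_mu_divisors m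
        exact h
      rw [e6]
      by_cases hm1 : m = 1
      · subst hm1
        simp
      · rw [if_neg hm1, if_neg]
        · ring
        · intro h
          apply hm1
          have : g * 1 = g * m := by rw [mul_one]; exact h
          exact (Nat.eq_of_mul_eq_mul_left hg this).symm
    · rw [filter_false_of_mem, sum_empty, zero_mul, if_neg]
      · rintro rfl
        exact hgq dvd_rfl
      · intro d hd h
        exact hgq (h.trans (Nat.dvd_of_mem_divisors hd))
  rw [sum_congr rfl e2, sum_ite_eq]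
  split_ifs
  · ring
  · rfl

/-- `∑ cf(d) / lcm(g, d)` -/
lemma sum_cf_lcm (P R g : ℕ) (hg : 1 ≤ g) :
    ∑ d ∈ Icc 1 R, cf P R d / (Nat.lcm g d : ℝ) =
      1 / g * ∑ j ∈ g.divisors, if j ∈ H343.Mod P R then mu j else 0 := by
  classical
  have hg0 : (g : ℝ) ≠ 0 := by
    have : 0 < g := hg
    positivity
  have e1 : ∀ d ∈ Icc 1 R, cf P R d / (Nat.lcm g d : ℝ) =
      1 / g * ∑ j ∈ g.divisors, if j ∣ d then (Nat.totient j : ℝ) * (cf P R d / d) else 0 := by
    intro d hd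
    rw [mem_Icc] at hd
    have hd0 : (d : ℝ) ≠ 0 := by
      have : 0 < d := hd.1
      positivity
    have h1 : (Nat.gcd g d : ℝ) * Nat.lcm g d = g * d := by exact_mod_cast Nat.gcd_mul_lcm g d
    have hl0 : (Nat.lcm g d : ℝ) ≠ 0 := by
      have : 0 < Nat.lcm g d := Nat.lcm_pos (by omega) (by omega)
      positivity
    have h2 : ∑ j ∈ (Nat.gcd g d).divisors, (Nat.totient j : ℝ) = Nat.gcd g d := by
      exact_mod_cast Nat.sum_totient (Nat.gcd g d)
    have h3 : g.divisors.filter (fun j => j ∣ d) = (Nat.gcd g d).divisors := by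
      ext j
      simp only [mem_filter, Nat.mem_divisors, Nat.dvd_gcd_iff]
      constructor
      · rintro ⟨⟨h1, h2⟩, h3⟩
        exact ⟨⟨h1, h3⟩, (Nat.gcd_pos_of_pos_left _ (by omega)).ne'⟩
      · rintro ⟨⟨h1, h3⟩, _⟩
        exact ⟨⟨h1, by omega⟩, h3⟩
    rw [← sum_filter, h3, ← sum_mul, h2]
    have h4 : (Nat.gcd g d : ℝ) = g * d / Nat.lcm g d := by
      rw [← h1]; field_simp
    rw [h4]
    field_simp
  rw [sum_congr rfl e1, ← mul_sum, sum_comm]
  congr 1
  apply sum_congr rfl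
  intro j hj
  have hj1 : 1 ≤ j := Nat.pos_of_mem_divisors hj
  rw [← sum_filter, ← mul_sum, sum_cf_mult P R j hj1]
  split_ifs with h
  · have : (Nat.totient j : ℝ) ≠ 0 := by
      have := Nat.totient_pos.2 hj1
      positivity
    field_simp
  · ring

/-- vanishing for `g ≤ P` -/
lemma sum_cf_lcm_zero (P R g : ℕ) (hg : 1 ≤ g) (hgP : g ≤ P) :
    ∑ d ∈ Icc 1 R, cf P R d / (Nat.lcm g d : ℝ) = 0 := by
  rw [sum_cf_lcm P R g hg, sum_eq_zero, mul_zero]
  intro j hj
  rw [if_neg]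
  intro h
  rw [mem_Mod] at h
  have := Nat.le_of_dvd hg (Nat.dvd_of_mem_divisors hj)
  omega

lemma count_lcm (N a b : ℕ) (ha : 1 ≤ a) (hb : 1 ≤ b) :
    (((Icc 1 N).filter (fun n => a ∣ n ∧ b ∣ n)).card : ℝ) =
      N / (Nat.lcm a b : ℝ) - Int.fract ((N : ℝ) / (Nat.lcm a b : ℝ)) := by
  have hl : 0 < Nat.lcm a b := Nat.lcm_pos (by omega) (by omega)
  have e1 : (Icc 1 N).filter (fun n => a ∣ n ∧ b ∣ n) = (Ioc 0 N).filter (fun n => Nat.lcm a b ∣ n) := by
    ext n
    simp only [mem_filter, mem_Icc, mem_Ioc, Nat.lcm_dvd_iff]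
    constructor
    · rintro ⟨⟨h1, h2⟩, h3⟩
      exact ⟨⟨by omega, h2⟩, h3⟩
    · rintro ⟨⟨h1, h2⟩, h3⟩
      exact ⟨⟨by omega, h2⟩, h3⟩
  rw [e1, Nat.Ioc_filter_dvd_card_eq_div]
  have e2 : ((N / Nat.lcm a b : ℕ) : ℝ) = ⌊(N : ℝ) / (Nat.lcm a b : ℝ)⌋ := by
    have h0 : 0 ≤ (N : ℝ) / (Nat.lcm a b : ℝ) := by positivity
    rw [← natCast_floor_eq_intCast_floor h0, Nat.floor_div_eq_div]
  rw [e2]
  have := Int.floor_add_fract ((N : ℝ) / (Nat.lcm a b : ℝ))
  linarith

/-- sums of the test function over the multiples of `g` -/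
lemma sum_TT_mult (P R N g : ℕ) (hg : 1 ≤ g) :
    ∑ n ∈ (Icc 1 N).filter (fun n => g ∣ n), TT P R n =
      N * ∑ d ∈ Icc 1 R, cf P R d / (Nat.lcm g d : ℝ) -
        ∑ d ∈ Icc 1 R, cf P R d * Int.fract ((N : ℝ) / (Nat.lcm g d : ℝ)) := by
  classical
  unfold TT
  have e1 : ∀ n ∈ (Icc 1 N).filter (fun n => g ∣ n), ∑ d ∈ (Icc 1 R).filter (fun d => d ∣ n), cf P R d =
      ∑ d ∈ Icc 1 R, if d ∣ n then cf P R d else 0 := by
    intro n _
    rw [sum_filter]
  rw [sum_congr rfl e1, sum_comm, mul_sum, ← sum_sub_distrib]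
  apply sum_congr rfl
  intro d hd
  rw [mem_Icc] at hd
  rw [← sum_filter, filter_filter, sum_const, nsmul_eq_mul, count_lcm N g d hg hd.1]
  ring

/-- the main term of the norm -/
lemma main_term (P R : ℕ) :
    ∑ d ∈ Icc 1 R, ∑ e ∈ Icc 1 R, cf P R d * cf P R e / (Nat.lcm d e : ℝ) = LL P R := by
  classical
  have e1 : ∀ d ∈ Icc 1 R, ∑ e ∈ Icc 1 R, cf P R d * cf P R e / (Nat.lcm d e : ℝ) =
      ∑ j ∈ H343.Mod P R, if j ∣ d then mu j * (cf P R d / d) else 0 := by
    intro d hd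
    rw [mem_Icc] at hd
    have e2 : ∑ e ∈ Icc 1 R, cf P R d * cf P R e / (Nat.lcm d e : ℝ) =
        cf P R d * ∑ e ∈ Icc 1 R, cf P R e / (Nat.lcm d e : ℝ) := by
      rw [mul_sum]
      apply sum_congr rfl
      intro e _
      ring
    rw [e2, sum_cf_lcm P R d hd.1, ← sum_filter, ← sum_filter]
    have e3 : d.divisors.filter (fun j => j ∈ H343.Mod P R) = (H343.Mod P R).filter (fun j => j ∣ d) := by
      ext j
      simp only [mem_filter, Nat.mem_divisors]
      constructor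
      · rintro ⟨⟨h1, _⟩, h2⟩
        exact ⟨h2, h1⟩
      · rintro ⟨h2, h1⟩
        exact ⟨⟨h1, by omega⟩, h2⟩
    rw [e3, mul_sum, mul_sum]
    apply sum_congr rfl
    intro j _
    ring
  rw [sum_congr rfl e1, sum_comm]
  unfold LL
  apply sum_congr rfl
  intro j hj
  have hj' := mem_Mod.1 hj
  have hj1 : 1 ≤ j := by omega
  rw [← sum_filter, ← mul_sum, sum_cf_mult P R j hj1, if_pos hj]
  have h1 := mu_sq j hj'.2
  have : mu j * (mu j / (Nat.totient j : ℝ)) = mu j ^ 2 / Nat.totient j := by ring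
  rw [this, h1]

/-- the norm of the test function -/
lemma norm_eq (P R N : ℕ) :
    ∑ n ∈ Icc 1 N, TT P R n ^ 2 = N * LL P R -
      ∑ d ∈ Icc 1 R, cf P R d * ∑ e ∈ Icc 1 R, cf P R e * Int.fract ((N : ℝ) / (Nat.lcm d e : ℝ)) := by
  classical
  have e1 : ∀ n ∈ Icc 1 N, TT P R n ^ 2 =
      ∑ d ∈ Icc 1 R, if d ∣ n then cf P R d * TT P R n else 0 := by
    intro n _
    rw [← sum_filter, ← sum_mul, sq]
    rfl
  rw [sum_congr rfl e1, sum_comm, ← main_term P R, mul_sum, ← sum_sub_distrib]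
  apply sum_congr rfl
  intro d hd
  rw [mem_Icc] at hd
  rw [← sum_filter, ← mul_sum, sum_TT_mult P R N d hd.1, mul_sub]
  congr 1
  have e2 : ∑ e ∈ Icc 1 R, cf P R d * cf P R e / (Nat.lcm d e : ℝ) =
        cf P R d * ∑ e ∈ Icc 1 R, cf P R e / (Nat.lcm d e : ℝ) := by
    rw [mul_sum]
    apply sum_congr rfl
    intro e _
    ring
  rw [e2]
  ring

/-- bound for the coefficients -/
lemma abs_cf_le (P R d : ℕ) (hd : 1 ≤ d) : |cf P R d| ≤ (d : ℝ) / Nat.totient d * LL 0 R := by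
  classical
  have hLL : 0 ≤ LL 0 R := sum_nonneg fun _ _ => by positivity
  by_cases hs : Squarefree d
  swap
  · rw [cf_zero hs, abs_zero]
    positivity
  have htot : (0 : ℝ) < Nat.totient d := by exact_mod_cast Nat.totient_pos.2 hd
  have hd0 : (0 : ℝ) < d := by exact_mod_cast hd
  have h1 : ∑ q ∈ (H343.Mod P R).filter (fun q => d ∣ q), 1 / (Nat.totient q : ℝ) ≤
      1 / Nat.totient d * LL 0 R := by
    have e1 : (H343.Mod P R).filter (fun q => d ∣ q) ⊆
        ((H343.Mod 0 R).filter (fun m => d.Coprime m)).image (fun m => d * m) := by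
      intro q hq
      rw [mem_filter, mem_Mod] at hq
      obtain ⟨⟨⟨h1, h2⟩, h3⟩, m, rfl⟩ := hq
      rw [mem_image]
      have hm0 : 0 < m := by
        rcases Nat.eq_zero_or_pos m with h | h
        · subst h; simp at h1
        · exact h
      refine ⟨m, ?_, rfl⟩
      rw [mem_filter, mem_Mod]
      exact ⟨⟨⟨hm0, (Nat.le_mul_of_pos_left m hd).trans h2⟩, h3.of_mul_right⟩,
        Nat.coprime_of_squarefree_mul h3⟩
    refine (sum_le_sum_of_subset_of_nonneg e1 fun _ _ _ => by positivity).trans ?_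
    rw [sum_image (fun a _ b _ hab => Nat.eq_of_mul_eq_mul_left hd hab)]
    unfold LL
    rw [mul_sum]
    refine le_trans (sum_le_sum (g := fun m => 1 / (Nat.totient d : ℝ) * (1 / Nat.totient m)) ?_) ?_
    · intro m hm
      rw [mem_filter] at hm
      rw [Nat.totient_mul hm.2]
      push_cast
      apply le_of_eq
      field_simp
    · exact sum_le_sum_of_subset_of_nonneg (filter_subset _ _) fun _ _ _ => by positivity
  unfold cf
  rw [abs_mul, abs_mul, abs_of_pos hd0, abs_of_nonneg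
    (show 0 ≤ ∑ q ∈ (H343.Mod P R).filter (fun q => d ∣ q), 1 / (Nat.totient q : ℝ) from
      sum_nonneg fun _ _ => by positivity)]
  calc d * |mu d| * ∑ q ∈ (H343.Mod P R).filter (fun q => d ∣ q), 1 / (Nat.totient q : ℝ)
      ≤ d * 1 * (1 / Nat.totient d * LL 0 R) := by
        have := abs_mu_le d
        gcongr
    _ = (d : ℝ) / Nat.totient d * LL 0 R := by ring

lemma cf_one (P R : ℕ) : cf P R 1 = LL P R := by
  unfold cf LL mu
  simp

end Pool.Agent.T2h84.LD
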