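import Pool.Agent.T2h84.LD.OffMax
import Pool.Agent.H343R2.Pnt

/-!
The Cauchy-Schwarz inequality, and the diagonal term.
-/

set_option autoImplicit false

open Finset

namespace Pool.Agent.T2h84.LD

open H343 (LL)

/-- the sum over a residue class -/
noncomputable def cls (N k : ℕ) (u : ℕ → ℝ) (a : ℕ) : ℝ := ∑ n ∈ (Icc 1 N).filter (fun n => n % k = a), u n

/-- the off-diagonal correlation -/
noncomputable def offR (k N : ℕ) (u v : ℕ → ℝ) : ℝ :=
  ∑ n ∈ Icc 1 N, ∑ m ∈ Icc 1 N, if n ≠ m ∧ n % k = m % k then u n * v m else 0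

/-- the variance -/
noncomputable def GG (N k : ℕ) (u : ℕ → ℝ) (y : ℝ) : ℝ :=
  ∑ a ∈ (range k).filter (fun a => Nat.Coprime a k), (cls N k u a - y) ^ 2

lemma cls_weight (N k : ℕ) (hk : 1 ≤ k) (u v : ℕ → ℝ) (w : ℕ → ℝ) :
    ∑ a ∈ range k, w a * (cls N k u a * cls N k v a) =
      ∑ n ∈ Icc 1 N, ∑ m ∈ Icc 1 N, if n % k = m % k then w (n % k) * (u n * v m) else 0 := by
  unfold cls
  have e1 : ∀ a ∈ range k, w a * ((∑ n ∈ (Icc 1 N).filter (fun n => n % k = a), u n) *
      (∑ n ∈ (Icc 1 N).filter (fun n => n % k = a), v n)) =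
      ∑ n ∈ Icc 1 N, ∑ m ∈ Icc 1 N, if n % k = a then (if n % k = m % k then w (n % k) * (u n * v m) else 0) else 0 := by
    intro a _
    rw [sum_filter, sum_filter, sum_mul_sum, mul_sum]
    apply sum_congr rfl
    intro n _
    rw [mul_sum]
    apply sum_congr rfl
    intro m _
    by_cases h1 : n % k = a
    · rw [if_pos h1, if_pos h1]
      by_cases h2 : m % k = a
      · rw [if_pos h2, if_pos (h1.trans h2.symm), h1]
      · rw [if_neg h2, if_neg (fun h => h2 (h.symm.trans h1))]
        ring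
    · rw [if_neg h1, if_neg h1]
      ring
  rw [sum_congr rfl e1, sum_comm]
  apply sum_congr rfl
  intro n _
  rw [sum_comm]
  apply sum_congr rfl
  intro m _
  rw [sum_ite_eq, if_pos (mem_range.2 (Nat.mod_lt n hk))]

lemma diag_off (N k : ℕ) (u v : ℕ → ℝ) :
    ∑ n ∈ Icc 1 N, ∑ m ∈ Icc 1 N, (if n % k = m % k then u n * v m else 0) =
      ∑ n ∈ Icc 1 N, u n * v n + offR k N u v := by
  unfold offR
  rw [← sum_add_distrib]
  apply sum_congr rfl
  intro n hn
  have : u n * v n = ∑ m ∈ Icc 1 N, if m = n then u n * v m else 0 := by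
    rw [sum_ite_eq' (Icc 1 N) n, if_pos hn]
  rw [this, ← sum_add_distrib]
  apply sum_congr rfl
  intro m _
  by_cases h : m = n
  · subst h
    simp
  · have h' : n ≠ m := fun e => h e.symm
    simp [h, h']

/-- the Cauchy-Schwarz inequality -/
theorem core (N k : ℕ) (hk : 1 ≤ k) (u v : ℕ → ℝ) (y : ℝ) :
    (∑ n ∈ Icc 1 N, u n * v n + offR k N u v -
      (∑ n ∈ (Icc 1 N).filter (fun n => ¬ Nat.Coprime n k), u n * cls N k v (n % k)) -
      y * ∑ m ∈ (Icc 1 N).filter (fun m => Nat.Coprime m k), v m) ^ 2 ≤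
    GG N k u y * (∑ n ∈ Icc 1 N, v n ^ 2 + offR k N v v) := by
  classical
  set w : ℕ → ℝ := fun a => if Nat.Coprime a k then 1 else 0 with hw
  have hcop : ∀ n, Nat.Coprime (n % k) k ↔ Nat.Coprime n k := by
    intro n
    unfold Nat.Coprime
    rw [Nat.gcd_comm (n % k) k, Nat.gcd_comm n k, Nat.gcd_rec k n, Nat.gcd_comm (n % k) k]
  have h1 : ∑ a ∈ (range k).filter (fun a => Nat.Coprime a k), (cls N k u a - y) * cls N k v a =
      ∑ n ∈ Icc 1 N, u n * v n + offR k N u v -
      (∑ n ∈ (Icc 1 N).filter (fun n => ¬ Nat.Coprime n k), u n * cls N k v (n % k)) -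
      y * ∑ m ∈ (Icc 1 N).filter (fun m => Nat.Coprime m k), v m := by
    have e1 : ∑ a ∈ (range k).filter (fun a => Nat.Coprime a k), (cls N k u a - y) * cls N k v a =
        ∑ a ∈ range k, w a * (cls N k u a * cls N k v a) -
          y * ∑ a ∈ range k, w a * cls N k v a := by
      rw [sum_filter, mul_sum, ← sum_sub_distrib]
      apply sum_congr rfl
      intro a _
      rw [hw]
      simp only
      split_ifs <;> ring
    have e2 : ∑ a ∈ range k, w a * cls N k v a = ∑ m ∈ (Icc 1 N).filter (fun m => Nat.Coprime m k), v m := by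
      unfold cls
      have e3 : ∀ a ∈ range k, w a * ∑ n ∈ (Icc 1 N).filter (fun n => n % k = a), v n =
          ∑ n ∈ Icc 1 N, if n % k = a then w (n % k) * v n else 0 := by
        intro a _
        rw [sum_filter, mul_sum]
        apply sum_congr rfl
        intro n _
        by_cases h : n % k = a
        · rw [if_pos h, if_pos h, h]
        · rw [if_neg h, if_neg h, mul_zero]
      rw [sum_congr rfl e3, sum_comm, sum_filter]
      apply sum_congr rfl
      intro n _
      rw [sum_ite_eq, if_pos (mem_range.2 (Nat.mod_lt n hk)), hw]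
      simp only [hcop]
      split_ifs <;> ring
    rw [e1, e2, cls_weight N k hk u v w]
    congr 1
    rw [← diag_off]
    have e4 : ∑ n ∈ (Icc 1 N).filter (fun n => ¬ Nat.Coprime n k), u n * cls N k v (n % k) =
        ∑ n ∈ Icc 1 N, ∑ m ∈ Icc 1 N, if n % k = m % k then (1 - w (n % k)) * (u n * v m) else 0 := by
      rw [sum_filter]
      apply sum_congr rfl
      intro n _
      unfold cls
      rw [hw]
      simp only [hcop]
      by_cases h : Nat.Coprime n k
      · rw [if_neg (by simpa using h), if_pos h]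
        symm
        apply sum_eq_zero
        intro m _
        split_ifs <;> ring
      · rw [if_pos h, if_neg h, sum_filter, mul_sum]
        apply sum_congr rfl
        intro m _
        by_cases h2 : n % k = m % k
        · rw [if_pos h2, if_pos h2.symm]; ring
        · rw [if_neg h2, if_neg (fun e => h2 e.symm)]; ring
    rw [e4, ← sum_sub_distrib]
    apply sum_congr rfl
    intro n _
    rw [← sum_sub_distrib]
    apply sum_congr rfl
    intro m _
    split_ifs <;> ring
  have h2 : ∑ a ∈ (range k).filter (fun a => Nat.Coprime a k), cls N k v a ^ 2 ≤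
      ∑ n ∈ Icc 1 N, v n ^ 2 + offR k N v v := by
    have e1 := cls_weight N k hk v v (fun _ => 1)
    simp only [one_mul] at e1
    rw [diag_off] at e1
    have e2 : ∑ n ∈ Icc 1 N, v n ^ 2 = ∑ n ∈ Icc 1 N, v n * v n := by
      apply sum_congr rfl
      intro n _
      ring
    rw [e2, ← e1]
    refine (sum_le_sum_of_subset_of_nonneg (filter_subset _ _) fun _ _ _ => by positivity).trans ?_
    apply le_of_eq
    apply sum_congr rfl
    intro a _
    ring
  have h3 := sum_mul_sq_le_sq_mul_sq ((range k).filter (fun a => Nat.Coprime a k))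
    (fun a => cls N k u a - y) (fun a => cls N k v a)
  rw [h1] at h3
  refine h3.trans ?_
  apply mul_le_mul_of_nonneg_left h2
  exact sum_nonneg fun _ _ => by positivity

/-- extension to the integers -/
noncomputable def zz (u : ℕ → ℝ) (n : ℤ) : ℂ := ((u n.toNat : ℝ) : ℂ)

lemma sum_zz (N : ℕ) (F : ℤ → ℂ) : ∑ n ∈ Icc (1 : ℤ) N, F n = ∑ n ∈ Icc 1 N, F (n : ℤ) := by
  have : Icc (1 : ℤ) N = (Icc 1 N).image (fun n : ℕ => (n : ℤ)) := by
    ext n
    rw [mem_image, mem_Icc]
    constructor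
    · intro h
      exact ⟨n.toNat, by rw [mem_Icc]; omega, by omega⟩
    · rintro ⟨m, hm, rfl⟩
      rw [mem_Icc] at hm
      omega
  rw [this, sum_image (fun a _ b _ hab => by exact_mod_cast hab)]

lemma sum_zzR (N : ℕ) (F : ℤ → ℝ) : ∑ n ∈ Icc (1 : ℤ) N, F n = ∑ n ∈ Icc 1 N, F (n : ℤ) := by
  have : Icc (1 : ℤ) N = (Icc 1 N).image (fun n : ℕ => (n : ℤ)) := by
    ext n
    rw [mem_image, mem_Icc]
    constructor
    · intro h
      exact ⟨n.toNat, by rw [mem_Icc]; omega, by omega⟩
    · rintro ⟨m, hm, rfl⟩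
      rw [mem_Icc] at hm
      omega
  rw [this, sum_image (fun a _ b _ hab => by exact_mod_cast hab)]

lemma off_zz (k N : ℕ) (u v : ℕ → ℝ) :
    Pool.Agent.W110.HV.off k 1 N (zz u) (zz v) = ((offR k N u v : ℝ) : ℂ) := by
  unfold Pool.Agent.W110.HV.off offR
  rw [sum_zz]
  push_cast
  apply sum_congr rfl
  intro n _
  rw [sum_zz]
  apply sum_congr rfl
  intro m _
  have h1 : ((k : ℤ) ∣ (n : ℤ) - (m : ℤ)) ↔ n % k = m % k := by
    have h2 : m ≡ n [MOD k] ↔ (k : ℤ) ∣ (n : ℤ) - (m : ℤ) := Nat.modEq_iff_dvd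
    rw [← h2]
    unfold Nat.ModEq
    exact eq_comm
  have h3 : ((n : ℤ) ≠ (m : ℤ)) ↔ n ≠ m := by
    rw [ne_eq, ne_eq, Nat.cast_inj]
  by_cases h : n ≠ m ∧ n % k = m % k
  · rw [if_pos (by rw [h3, h1]; exact h), if_pos h]
    unfold zz
    simp
  · rw [if_neg (by rw [h3, h1]; exact h), if_neg h]
    simp

lemma norm_zz (N : ℕ) (u : ℕ → ℝ) : ∑ n ∈ Icc (1 : ℤ) N, ‖zz u n‖ ^ 2 = ∑ n ∈ Icc 1 N, u n ^ 2 := by
  rw [sum_zzR]
  apply sum_congr rfl
  intro n _
  unfold zz
  rw [Complex.norm_real, Real.norm_eq_abs, sq_abs]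
  simp

lemma ES_zz (N : ℕ) (u : ℕ → ℝ) (α : ℝ) : Pool.Agent.W110.HV.ES 1 N (zz u) α =
    ∑ n ∈ Icc 1 N, ((u n : ℝ) : ℂ) * Pool.Agent.H807R2.Dav.ee (n * α) := by
  unfold Pool.Agent.W110.HV.ES
  rw [sum_zz]
  apply sum_congr rfl
  intro n _
  rw [Pool.Agent.W110.HV.ee_eq]
  unfold zz
  simp

/-- the diagonal term -/
theorem diag_lower (P R N : ℕ) (hN : 1 ≤ N) (hR : 1 ≤ R) (hRN : R ≤ N) (W : ℝ)
    (hW : ∀ n : ℕ, 1 ≤ n → n ≤ N → |TT P R n| ≤ W) (hW0 : 0 ≤ W) :
    LL P R * (Chebyshev.theta N - 2 * R) - W * (2 * Real.sqrt N * Real.log N + 2 * R) ≤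
      ∑ n ∈ Icc 1 N, ArithmeticFunction.vonMangoldt n * TT P R n := by
  classical
  have hLL0 : 0 ≤ LL P R := sum_nonneg fun _ _ => by positivity
  have hN1 : (1 : ℝ) ≤ N := by exact_mod_cast hN
  have hR0 : (0 : ℝ) ≤ R := Nat.cast_nonneg _
  -- values at the primes
  have hTTp : ∀ p : ℕ, p.Prime → R < p → TT P R p = LL P R := by
    intro p hp hRp
    unfold TT
    have : (Icc 1 R).filter (fun d => d ∣ p) = {1} := by
      ext d
      simp only [mem_filter, mem_Icc, mem_singleton]
      constructor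
      · rintro ⟨⟨h1, h2⟩, h3⟩
        rcases (Nat.dvd_prime hp).1 h3 with h | h
        · exact h
        · omega
      · rintro rfl
        exact ⟨⟨le_refl 1, hR⟩, one_dvd p⟩
    rw [this, sum_singleton, cf_one]
  set A : Finset ℕ := (Icc 1 N).filter (fun n => n.Prime ∧ R < n) with hA
  set B : Finset ℕ := (Icc 1 N).filter (fun n => ¬ (n.Prime ∧ R < n)) with hB
  have hsplit := sum_filter_add_sum_filter_not (Icc 1 N) (fun n => n.Prime ∧ R < n)
    (fun n => ArithmeticFunction.vonMangoldt n * TT P R n)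
  have hsplit2 := sum_filter_add_sum_filter_not (Icc 1 N) (fun n => n.Prime ∧ R < n)
    (fun n => (ArithmeticFunction.vonMangoldt n : ℝ))
  have hA1 : ∑ n ∈ A, ArithmeticFunction.vonMangoldt n * TT P R n =
      LL P R * ∑ n ∈ A, (ArithmeticFunction.vonMangoldt n : ℝ) := by
    rw [mul_sum]
    apply sum_congr rfl
    intro n hn
    rw [hA, mem_filter] at hn
    rw [hTTp n hn.2.1 hn.2.2]
    ring
  have hB1 : -(W * ∑ n ∈ B, (ArithmeticFunction.vonMangoldt n : ℝ)) ≤
      ∑ n ∈ B, ArithmeticFunction.vonMangoldt n * TT P R n := by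
    have h1 : |∑ n ∈ B, ArithmeticFunction.vonMangoldt n * TT P R n| ≤
        W * ∑ n ∈ B, (ArithmeticFunction.vonMangoldt n : ℝ) := by
      refine (abs_sum_le_sum_abs _ _).trans ?_
      rw [mul_sum]
      apply sum_le_sum
      intro n hn
      rw [hB, mem_filter, mem_Icc] at hn
      rw [abs_mul, abs_of_nonneg ArithmeticFunction.vonMangoldt_nonneg, mul_comm]
      exact mul_le_mul_of_nonneg_right (hW n hn.1.1 hn.1.2) ArithmeticFunction.vonMangoldt_nonneg
    exact (abs_le.1 h1).1
  -- the sum over the large primes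
  have hpsi : ∑ n ∈ Icc 1 N, (ArithmeticFunction.vonMangoldt n : ℝ) = Chebyshev.psi N := by
    rw [Chebyshev.psi_eq_sum_Icc, Nat.floor_natCast]
    apply sum_subset (Icc_subset_Icc_left (by omega))
    intro x _ hx
    rw [mem_Icc] at *
    have : x = 0 := by omega
    subst this
    simp
  have hth : ∑ n ∈ A, (ArithmeticFunction.vonMangoldt n : ℝ) = Chebyshev.theta N - Chebyshev.theta R := by
    rw [Chebyshev.theta_eq_sum_Icc, Chebyshev.theta_eq_sum_Icc, Nat.floor_natCast, Nat.floor_natCast]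
    have e1 : (Icc 0 N).filter Nat.Prime = A ∪ (Icc 0 R).filter Nat.Prime := by
      ext n
      rw [hA]
      simp only [mem_union, mem_filter, mem_Icc]
      constructor
      · rintro ⟨⟨_, h1⟩, h2⟩
        by_cases h : R < n
        · exact Or.inl ⟨⟨h2.one_lt.le, h1⟩, h2, h⟩
        · exact Or.inr ⟨⟨by omega, by omega⟩, h2⟩
      · rintro (⟨⟨h1, h2⟩, h3, h4⟩ | ⟨⟨h1, h2⟩, h3⟩)
        · exact ⟨⟨by omega, h2⟩, h3⟩
        · exact ⟨⟨by omega, by omega⟩, h3⟩
    have hdisj : Disjoint A ((Icc 0 R).filter Nat.Prime) := by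
      rw [disjoint_left]
      intro n h1 h2
      rw [hA, mem_filter] at h1
      rw [mem_filter, mem_Icc] at h2
      omega
    rw [e1, sum_union hdisj]
    have e2 : ∑ n ∈ A, (ArithmeticFunction.vonMangoldt n : ℝ) = ∑ n ∈ A, Real.log n := by
      apply sum_congr rfl
      intro n hn
      rw [hA, mem_filter] at hn
      exact ArithmeticFunction.vonMangoldt_apply_prime hn.2.1
    rw [e2]
    ring
  have hthR : Chebyshev.theta R ≤ 2 * R := by
    have h1 := Chebyshev.theta_le_log4_mul_x (x := (R : ℝ)) hR0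
    have h2 : Real.log 4 ≤ 2 := by
      have h1 : Real.log 4 = 2 * Real.log 2 := by
        rw [show (4 : ℝ) = 2 ^ 2 by norm_num, Real.log_pow]; push_cast; ring
      have := Real.log_two_lt_d9
      linarith
    nlinarith
  have hpt := Chebyshev.psi_sub_theta_le (x := (N : ℝ)) hN1
  have hBs : ∑ n ∈ B, (ArithmeticFunction.vonMangoldt n : ℝ) ≤ 2 * Real.sqrt N * Real.log N + 2 * R := by
    have : ∑ n ∈ B, (ArithmeticFunction.vonMangoldt n : ℝ) =
        Chebyshev.psi N - (Chebyshev.theta N - Chebyshev.theta R) := by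
      rw [← hpsi, ← hth, ← hsplit2]
      ring
    rw [this]
    linarith
  rw [← hsplit]
  have h4 : LL P R * (Chebyshev.theta N - 2 * R) ≤ LL P R * ∑ n ∈ A, (ArithmeticFunction.vonMangoldt n : ℝ) := by
    apply mul_le_mul_of_nonneg_left _ hLL0
    rw [hth]
    linarith
  have h5 : W * ∑ n ∈ B, (ArithmeticFunction.vonMangoldt n : ℝ) ≤ W * (2 * Real.sqrt N * Real.log N + 2 * R) :=
    mul_le_mul_of_nonneg_left hBs hW0
  rw [← hA1] at h4
  linarith

/-- the classes which are not reduced -/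
theorem nonred (N k : ℕ) (hN : 1 ≤ N) (hk : 1 ≤ k) (v : ℕ → ℝ) (W : ℝ)
    (hW : ∀ n : ℕ, 1 ≤ n → n ≤ N → |v n| ≤ W) (hW0 : 0 ≤ W) :
    |∑ n ∈ (Icc 1 N).filter (fun n => ¬ Nat.Coprime n k), ArithmeticFunction.vonMangoldt n * cls N k v (n % k)| ≤
      k.divisors.card * Real.log N * (((N : ℝ) / k + 1) * W) := by
  classical
  have hk0 : (0 : ℝ) < k := by exact_mod_cast hk
  have h1 : ∀ a : ℕ, |cls N k v a| ≤ ((N : ℝ) / k + 1) * W := by
    intro a
    unfold cls
    refine (abs_sum_le_sum_abs _ _).trans ?_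
    calc ∑ n ∈ (Icc 1 N).filter (fun n => n % k = a), |v n|
        ≤ ∑ n ∈ (Icc 1 N).filter (fun n => n % k = a), W := by
          apply sum_le_sum
          intro n hn
          rw [mem_filter, mem_Icc] at hn
          exact hW n hn.1.1 hn.1.2
      _ = (((Icc 1 N).filter (fun n => n % k = a)).card : ℝ) * W := by rw [sum_const, nsmul_eq_mul]
      _ ≤ _ := by
          apply mul_le_mul_of_nonneg_right _ hW0
          have h2 : ((Icc 1 N).filter (fun n => n % k = a)).card ≤ N / k + 1 := by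
            have h3 : (Icc 1 N).filter (fun n => n % k = a) ⊆ (range (N / k + 1)).image (fun j => k * j + a) := by
              intro n hn
              rw [mem_filter, mem_Icc] at hn
              rw [mem_image]
              refine ⟨n / k, ?_, ?_⟩
              · rw [mem_range]
                have := Nat.div_le_div_right (c := k) hn.1.2
                exact Nat.lt_succ_of_le this
              · have := Nat.div_add_mod n k
                rw [hn.2] at this
                exact this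
            refine (card_le_card h3).trans (card_image_le.trans ?_)
            rw [card_range]
          calc (((Icc 1 N).filter (fun n => n % k = a)).card : ℝ) ≤ ((N / k + 1 : ℕ) : ℝ) := by exact_mod_cast h2
            _ ≤ (N : ℝ) / k + 1 := by
                push_cast
                have : ((N / k : ℕ) : ℝ) ≤ (N : ℝ) / k := Nat.cast_div_le
                linarith
  refine (abs_sum_le_sum_abs _ _).trans ?_
  have h0 : 0 ≤ ((N : ℝ) / k + 1) * W := by positivity
  calc ∑ n ∈ (Icc 1 N).filter (fun n => ¬ Nat.Coprime n k), |ArithmeticFunction.vonMangoldt n * cls N k v (n % k)|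
      ≤ ∑ n ∈ (Icc 1 N).filter (fun n => ¬ Nat.Coprime n k), ArithmeticFunction.vonMangoldt n * (((N : ℝ) / k + 1) * W) := by
        apply sum_le_sum
        intro n _
        rw [abs_mul, abs_of_nonneg ArithmeticFunction.vonMangoldt_nonneg]
        exact mul_le_mul_of_nonneg_left (h1 _) ArithmeticFunction.vonMangoldt_nonneg
    _ = (∑ n ∈ (Icc 1 N).filter (fun n => ¬ Nat.Coprime n k), (ArithmeticFunction.vonMangoldt n : ℝ)) *
          (((N : ℝ) / k + 1) * W) := by rw [sum_mul]
    _ ≤ _ := mul_le_mul_of_nonneg_right (H343.sum_not_coprime k N hk hN) h0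

end Pool.Agent.T2h84.LD
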