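import Pool.Agent.T2h84.LD.Mer
import Pool.Agent.H336R2.V.TotLog
import Pool.Agent.H378R2.LSBV3

/-!
Sums of `μ(n) n / φ(n)` over integers coprime to a finite set of primes.
-/

set_option autoImplicit false

open Finset

namespace Pool.Agent.T2h84.LD

lemma mu_sq (n : ℕ) (h : Squarefree n) : mu n ^ 2 = 1 := by
  unfold mu
  exact_mod_cast ArithmeticFunction.moebius_sq_eq_one_of_squarefree h

lemma mu_zero {n : ℕ} (h : ¬ Squarefree n) : mu n = 0 := by
  unfold mu
  rw [ArithmeticFunction.moebius_eq_zero_of_not_squarefree h]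
  simp

lemma mu_mul {m n : ℕ} (h : m.Coprime n) : mu (m * n) = mu m * mu n := by
  unfold mu
  rw [ArithmeticFunction.isMultiplicative_moebius.map_mul_of_coprime h]
  push_cast
  ring

lemma mu_mul' (m n : ℕ) : mu (m * n) = if m.Coprime n then mu m * mu n else 0 := by
  split_ifs with h
  · exact mu_mul h
  · apply mu_zero
    intro hs
    exact h (Nat.coprime_of_squarefree_mul hs)

/-- `μ(n) n / φ(n)` -/
noncomputable def fm (n : ℕ) : ℝ := mu n * ((n : ℝ) / Nat.totient n)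

/-- `∑ μ(n) n / φ(n)` over `n ≤ t` not divisible by the elements of `S` -/
noncomputable def FS (S : Finset ℕ) (t : ℝ) : ℝ :=
  ∑ n ∈ (Icc 1 ⌊t⌋₊).filter (fun n => ∀ p ∈ S, ¬ p ∣ n), fm n

lemma FS_eq (S : Finset ℕ) (hS : ∀ q ∈ S, q.Prime) (t : ℝ) :
    FS S t = ∑ k ∈ (Icc 1 ⌊t⌋₊).filter (fun k => Squarefree k ∧ ∀ p ∈ S, ¬ p ∣ k),
      1 / (Nat.totient k : ℝ) * mu k * mcS (S ∪ k.primeFactors) (t / k) := by
  classical
  unfold FS
  set N := ⌊t⌋₊ with hN
  have e1 : ∀ n ∈ (Icc 1 N).filter (fun n => ∀ p ∈ S, ¬ p ∣ n), fm n =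
      ∑ k ∈ Icc 1 N, if Squarefree k ∧ k ∣ n then mu n * (1 / (Nat.totient k : ℝ)) else 0 := by
    intro n hn
    rw [mem_filter, mem_Icc] at hn
    unfold fm
    rw [H336V.TotLog.div_totient n hn.1.1, mul_sum, ← sum_filter]
    apply sum_congr _ (fun _ _ => rfl)
    ext k
    simp only [mem_filter, Nat.mem_divisors, mem_Icc]
    constructor
    · rintro ⟨⟨h1, h2⟩, h3⟩
      exact ⟨⟨Nat.pos_of_dvd_of_pos h1 hn.1.1, (Nat.le_of_dvd hn.1.1 h1).trans hn.1.2⟩, h3, h1⟩
    · rintro ⟨_, h3, h1⟩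
      exact ⟨⟨h1, by omega⟩, h3⟩
  rw [sum_congr rfl e1, sum_comm]
  have e2 : ∀ k ∈ Icc 1 N, (∑ n ∈ (Icc 1 N).filter (fun n => ∀ p ∈ S, ¬ p ∣ n),
      if Squarefree k ∧ k ∣ n then mu n * (1 / (Nat.totient k : ℝ)) else 0) =
      if Squarefree k ∧ ∀ p ∈ S, ¬ p ∣ k then
        1 / (Nat.totient k : ℝ) * mu k * mcS (S ∪ k.primeFactors) (t / k) else 0 := by
    intro k hk
    rw [mem_Icc] at hk
    by_cases hsq : Squarefree k
    swap
    · rw [if_neg (fun h => hsq h.1)]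
      apply sum_eq_zero
      intro n _
      rw [if_neg (fun h => hsq h.1)]
    by_cases hk2 : ∀ p ∈ S, ¬ p ∣ k
    · rw [if_pos ⟨hsq, hk2⟩]
      unfold mcS
      rw [Nat.floor_div_natCast, ← hN, mul_sum]
      rw [← sum_filter, filter_filter]
      have e3 : (Icc 1 N).filter (fun n => (∀ p ∈ S, ¬ p ∣ n) ∧ Squarefree k ∧ k ∣ n) =
          ((Icc 1 (N / k)).filter (fun m => ∀ p ∈ S, ¬ p ∣ m)).image (fun m => k * m) := by
        ext n
        simp only [mem_filter, mem_image, mem_Icc]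
        constructor
        · rintro ⟨⟨h1, h2⟩, h3, _, m, rfl⟩
          refine ⟨m, ⟨⟨?_, ?_⟩, ?_⟩, rfl⟩
          · rcases Nat.eq_zero_or_pos m with h | h
            · subst h; omega
            · exact h
          · rw [Nat.le_div_iff_mul_le (by omega), mul_comm]; exact h2
          · intro q hq hd
            exact h3 q hq (hd.mul_left k)
        · rintro ⟨m, ⟨⟨h1, h2⟩, h3⟩, rfl⟩
          rw [Nat.le_div_iff_mul_le (by omega), mul_comm] at h2
          refine ⟨⟨?_, h2⟩, ?_, hsq, dvd_mul_right k m⟩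
          · exact Nat.mul_pos hk.1 h1
          · intro q hq hd
            rcases (hS q hq).dvd_mul.1 hd with h | h
            · exact hk2 q hq h
            · exact h3 q hq h
      rw [e3, sum_image (fun a _ b _ hab => Nat.eq_of_mul_eq_mul_left hk.1 hab)]
      have e4 : (Icc 1 (N / k)).filter (fun n => ∀ p ∈ S ∪ k.primeFactors, ¬ p ∣ n) =
          ((Icc 1 (N / k)).filter (fun m => ∀ p ∈ S, ¬ p ∣ m)).filter (fun m => k.Coprime m) := by
        ext m
        simp only [mem_filter, mem_Icc, mem_union]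
        constructor
        · rintro ⟨h1, h2⟩
          refine ⟨⟨h1, fun p hp => h2 p (Or.inl hp)⟩, ?_⟩
          apply Nat.Coprime.symm
          rw [Nat.coprime_iff_gcd_eq_one]
          by_contra hg
          obtain ⟨p, hp, hpd⟩ := Nat.exists_prime_and_dvd hg
          exact h2 p (Or.inr (Nat.mem_primeFactors.2 ⟨hp, hpd.trans (Nat.gcd_dvd_right _ _), by omega⟩))
            (hpd.trans (Nat.gcd_dvd_left _ _))
        · rintro ⟨⟨h1, h2⟩, h3⟩
          refine ⟨h1, ?_⟩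
          rintro p (hp | hp)
          · exact h2 p hp
          · intro hd
            have hpp := Nat.prime_of_mem_primeFactors hp
            exact Nat.not_coprime_of_dvd_of_dvd hpp.one_lt (Nat.dvd_of_mem_primeFactors hp) hd h3
      rw [e4, sum_filter (s := (Icc 1 (N / k)).filter (fun m => ∀ p ∈ S, ¬ p ∣ m))]
      apply sum_congr rfl
      intro m _
      rw [mu_mul']
      split_ifs <;> ring
    · rw [if_neg (fun h => hk2 h.2)]
      apply sum_eq_zero
      intro n hn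
      rw [mem_filter] at hn
      rw [if_neg]
      rintro ⟨_, hd⟩
      apply hk2
      intro p hp hpk
      exact hn.2 p hp (hpk.trans hd)
  rw [sum_congr rfl e2, ← sum_filter]

/-- the constant -/
lemma sum_const_le : ∃ D : ℝ, 0 < D ∧ ∀ N : ℕ,
    ∑ k ∈ (Icc 1 N).filter Squarefree, 4 ^ k.primeFactors.card / ((Nat.totient k : ℝ) * √(k : ℝ)) ≤ D := by
  obtain ⟨C, hC, h⟩ := Pool.Agent.Helper112.divisor_bound (1 / 12) (by norm_num)
  have hs : Summable (fun b : ℕ => C ^ 3 * (1 / (b : ℝ) ^ (5 / 4 : ℝ))) :=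
    (Real.summable_one_div_nat_rpow.mpr (by norm_num)).mul_left _
  refine ⟨(∑' b : ℕ, C ^ 3 * (1 / (b : ℝ) ^ (5 / 4 : ℝ))) + 1, ?_, fun N => ?_⟩
  · have : 0 ≤ ∑' b : ℕ, C ^ 3 * (1 / (b : ℝ) ^ (5 / 4 : ℝ)) := tsum_nonneg fun b => by positivity
    linarith
  · have h1 : ∑ k ∈ (Icc 1 N).filter Squarefree, 4 ^ k.primeFactors.card / ((Nat.totient k : ℝ) * √(k : ℝ)) ≤
        ∑ k ∈ (Icc 1 N).filter Squarefree, C ^ 3 * (1 / (k : ℝ) ^ (5 / 4 : ℝ)) := by
      apply sum_le_sum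
      intro k hk
      rw [mem_filter, mem_Icc] at hk
      have hk1 : 1 ≤ k := hk.1.1
      have hk0 : (0 : ℝ) < k := by exact_mod_cast hk1
      have h2 := h k hk1
      have h3 := Pool.Agent.H398R2.BV.one_div_totient_le k hk1
      have h4 : (2 : ℝ) ^ k.primeFactors.card ≤ k.divisors.card := by
        exact_mod_cast Pool.Agent.H398R2.BV.two_pow_omega_le k (by omega)
      have h5 : (2 : ℝ) ^ k.primeFactors.card ≤ C * (k : ℝ) ^ (1 / 12 : ℝ) := h4.trans h2
      have h6 : (4 : ℝ) ^ k.primeFactors.card * 2 ^ k.primeFactors.card ≤ C ^ 3 * (k : ℝ) ^ (1 / 4 : ℝ) := by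
        have e1 : (4 : ℝ) ^ k.primeFactors.card * 2 ^ k.primeFactors.card = ((2 : ℝ) ^ k.primeFactors.card) ^ 3 := by
          rw [show (4 : ℝ) = 2 ^ 2 by norm_num, ← pow_mul, ← pow_add, ← pow_mul]
          congr 1; ring
        rw [e1]
        calc ((2 : ℝ) ^ k.primeFactors.card) ^ 3 ≤ (C * (k : ℝ) ^ (1 / 12 : ℝ)) ^ 3 :=
              pow_le_pow_left₀ (by positivity) h5 3
          _ = C ^ 3 * (k : ℝ) ^ (1 / 4 : ℝ) := by
              rw [mul_pow, ← Real.rpow_natCast ((k : ℝ) ^ (1 / 12 : ℝ)) 3, ← Real.rpow_mul hk0.le]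
              norm_num
      have e2 : (4 : ℝ) ^ k.primeFactors.card / ((Nat.totient k : ℝ) * √(k : ℝ)) =
          (4 : ℝ) ^ k.primeFactors.card * (1 / (Nat.totient k : ℝ)) / √(k : ℝ) := by
        field_simp
      rw [e2]
      have hsq : 0 < √(k : ℝ) := Real.sqrt_pos.2 hk0
      calc (4 : ℝ) ^ k.primeFactors.card * (1 / (Nat.totient k : ℝ)) / √(k : ℝ)
          ≤ (4 : ℝ) ^ k.primeFactors.card * (2 ^ k.primeFactors.card / k) / √(k : ℝ) := by gcongr
        _ = ((4 : ℝ) ^ k.primeFactors.card * 2 ^ k.primeFactors.card) / (k * √(k : ℝ)) := by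
            field_simp
        _ ≤ (C ^ 3 * (k : ℝ) ^ (1 / 4 : ℝ)) / (k * √(k : ℝ)) := by gcongr
        _ = C ^ 3 * (1 / (k : ℝ) ^ (5 / 4 : ℝ)) := by
            have e3 : (k : ℝ) * √(k : ℝ) = (k : ℝ) ^ (1 / 4 : ℝ) * (k : ℝ) ^ (5 / 4 : ℝ) := by
              rw [Real.sqrt_eq_rpow]
              nth_rewrite 1 [← Real.rpow_one (k : ℝ)]
              rw [← Real.rpow_add hk0, ← Real.rpow_add hk0]
              norm_num
            rw [e3]
            field_simp
    refine h1.trans ?_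
    have h7 := hs.sum_le_tsum ((Icc 1 N).filter Squarefree) (fun b _ => by positivity)
    linarith

/-- the bound for `FS` -/
lemma FS_le {A : ℕ} (hA : 1 ≤ A) : ∃ C : ℝ, 0 < C ∧ ∀ (S : Finset ℕ), (∀ q ∈ S, q.Prime) →
    ∀ t : ℝ, 1 ≤ t → |FS S t| ≤ C * 4 ^ S.card * ps A t := by
  classical
  obtain ⟨C, hC, h0⟩ := mcS_base hA
  obtain ⟨D, hD, hD1⟩ := sum_const_le
  refine ⟨C * D, by positivity, fun S hS t ht => ?_⟩
  rw [FS_eq S hS t]
  refine (abs_sum_le_sum_abs _ _).trans ?_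
  have ht0 : 0 < t := by linarith
  have hps := (ps_pos (A := A) ht).le
  have h1 : ∀ k ∈ (Icc 1 ⌊t⌋₊).filter (fun k => Squarefree k ∧ ∀ p ∈ S, ¬ p ∣ k),
      |1 / (Nat.totient k : ℝ) * mu k * mcS (S ∪ k.primeFactors) (t / k)| ≤
      C * 4 ^ S.card * ps A t * (4 ^ k.primeFactors.card / ((Nat.totient k : ℝ) * √(k : ℝ))) := by
    intro k hk
    rw [mem_filter, mem_Icc] at hk
    have hk1 : 1 ≤ k := hk.1.1
    have hk0 : (0 : ℝ) < k := by exact_mod_cast hk1
    have hk1r : (1 : ℝ) ≤ k := by exact_mod_cast hk1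
    have hkt : (k : ℝ) ≤ t := (Nat.le_floor_iff ht0.le).1 hk.1.2
    have htk : 1 ≤ t / k := by rw [le_div_iff₀ hk0]; linarith
    have hpr : ∀ q ∈ S ∪ k.primeFactors, q.Prime := by
      intro q hq
      rcases mem_union.1 hq with h | h
      · exact hS q h
      · exact Nat.prime_of_mem_primeFactors h
    have h2 := mcS_le hA hC.le h0 (S ∪ k.primeFactors) hpr (t / k) htk
    have h3 : (4 : ℝ) ^ (S ∪ k.primeFactors).card ≤ 4 ^ S.card * 4 ^ k.primeFactors.card := by
      rw [← pow_add]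
      exact pow_le_pow_right₀ (by norm_num) (card_union_le _ _)
    have h4 := ps_div hA hk1r hkt
    have htot : (0 : ℝ) < Nat.totient k := by exact_mod_cast Nat.totient_pos.2 hk1
    have hsq : 0 < √(k : ℝ) := Real.sqrt_pos.2 hk0
    rw [abs_mul, abs_mul, abs_of_pos (show (0 : ℝ) < 1 / Nat.totient k by positivity)]
    calc 1 / (Nat.totient k : ℝ) * |mu k| * |mcS (S ∪ k.primeFactors) (t / k)|
        ≤ 1 / (Nat.totient k : ℝ) * 1 * (C * (4 ^ S.card * 4 ^ k.primeFactors.card) * (ps A t / √(k : ℝ))) := by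
          have := (ps_pos (A := A) htk).le
          have h5 := abs_mu_le k
          have h6 : |mcS (S ∪ k.primeFactors) (t / k)| ≤
              C * (4 ^ S.card * 4 ^ k.primeFactors.card) * (ps A t / √(k : ℝ)) := by
            refine h2.trans ?_
            gcongr
          gcongr
      _ = _ := by
          field_simp
  refine (sum_le_sum h1).trans ?_
  rw [← mul_sum]
  have h2 : ∑ k ∈ (Icc 1 ⌊t⌋₊).filter (fun k => Squarefree k ∧ ∀ p ∈ S, ¬ p ∣ k),
      4 ^ k.primeFactors.card / ((Nat.totient k : ℝ) * √(k : ℝ)) ≤ D := by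
    refine le_trans ?_ (hD1 ⌊t⌋₊)
    apply sum_le_sum_of_subset_of_nonneg
    · intro k hk
      rw [mem_filter] at hk ⊢
      exact ⟨hk.1, hk.2.1⟩
    · intro k _ _
      positivity
  calc C * 4 ^ S.card * ps A t * _ ≤ C * 4 ^ S.card * ps A t * D := by gcongr
    _ = C * D * 4 ^ S.card * ps A t := by ring

end Pool.Agent.T2h84.LD
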