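import Pool.Agent.T2h84.LD.Main

/-!
The large deviation bound for the variance.
-/

set_option autoImplicit false

open Finset

namespace Pool.Agent.T2h84.LD

open H343 (LL)
open Pool.Agent.W110.HV (ev_const ev_pow div_N markov floor_facts)

/-- the variance about the centre `y` -/
noncomputable def GX (x : ℝ) (k : ℕ) (y : ℝ) : ℝ :=
  ∑ a ∈ (range k).filter (fun a => Nat.Coprime a k),
    ((∑ n ∈ (Icc 1 ⌊x⌋₊).filter (fun n => n % k = a), ArithmeticFunction.vonMangoldt n) - y) ^ 2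

lemma GX_eq (x : ℝ) (k : ℕ) (y : ℝ) :
    GX x k y = GG ⌊x⌋₊ k (fun n => ArithmeticFunction.vonMangoldt n) y := rfl

lemma GX_nonneg (x : ℝ) (k : ℕ) (y : ℝ) : 0 ≤ GX x k y := sum_nonneg fun _ _ => by positivity

/-- the deterministic part -/
theorem not_exc (ε : ℝ) (hε : 0 < ε) (hε1 : ε ≤ 1) : ∃ M1 : ℕ, ∀ M : ℕ, M1 ≤ M → ∀ c : ℝ, ε < c → c ≤ 1 →
    ∀ K k : ℕ, 1 ≤ K → K < k → k ≤ 2 * K → (M : ℝ) ^ (1 - (1 - c) / 2) ≤ 2 * K → 2 * K ≤ 3 * M →
    ∀ x : ℝ, 1 ≤ x → M ≤ 3 * ⌊x⌋₊ → ⌊x⌋₊ ≤ M → x ≤ M + 1 →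
    (∀ N : ℕ, N ≤ M →
      |offR k N (fun n => ArithmeticFunction.vonMangoldt n) (TT (Pp ((1 - c) / 2) (ε / 16) M)
        (Rr ((1 - c) / 2) (ε / 16) M))| ≤ (M : ℝ) ^ (1 - ε / 16 / 20) ∧
      |offR k N (TT (Pp ((1 - c) / 2) (ε / 16) M) (Rr ((1 - c) / 2) (ε / 16) M))
        (TT (Pp ((1 - c) / 2) (ε / 16) M) (Rr ((1 - c) / 2) (ε / 16) M))| ≤ (M : ℝ) ^ (1 - ε / 16 / 20)) →
    ∀ y : ℝ, (c - ε) * x * Real.log x ≤ GX x k y := by
  obtain ⟨C, hC, hLL⟩ := H343.LL_lower
  obtain ⟨n1, h1⟩ := params (ε / 16) (by positivity) (by linarith)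
  obtain ⟨n2, h2⟩ := modlb (ε / 16) (ε / 40) (by positivity) (by linarith) (by positivity) (by linarith)
  obtain ⟨n3, h3⟩ := ev_const 2 (ε / 16) (by positivity)
  obtain ⟨n4, h4⟩ : ∃ n4 : ℕ, ∀ N : ℕ, n4 ≤ N → (C + 6) / (ε / 2) ≤ Real.log N := by
    have h := (Real.tendsto_log_atTop.comp tendsto_natCast_atTop_atTop).eventually_ge_atTop ((C + 6) / (ε / 2))
    obtain ⟨n4, hn4⟩ := Filter.eventually_atTop.1 h
    exact ⟨n4, fun N hN => hn4 N hN⟩
  refine ⟨max (max n1 n2) (max (max n3 n4) 36), fun M hM c hc hc1 K k hK hKk hk2 hMK hKM x hx1 hMx hxM hxM1 hoff y => ?_⟩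
  have hMn1 : n1 ≤ M := le_trans (le_trans (le_max_left _ _) (le_max_left _ _)) hM
  have hMn2 : n2 ≤ M := le_trans (le_trans (le_max_right _ _) (le_max_left _ _)) hM
  have hMn3 : n3 ≤ M := le_trans (le_trans (le_max_left _ _) (le_trans (le_max_left _ _) (le_max_right _ _))) hM
  have hMn4 : n4 ≤ M := le_trans (le_trans (le_max_right _ _) (le_trans (le_max_left _ _) (le_max_right _ _))) hM
  have hM36 : 36 ≤ M := le_trans (le_trans (le_max_right _ _) (le_max_right _ _)) hM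
  set σ := ε / 16 with hσ
  set θ := (1 - c) / 2 with hθ
  have hθ0 : 0 ≤ θ := by rw [hθ]; linarith
  have hθ1 : θ ≤ 1 / 2 := by rw [hθ]; linarith
  obtain ⟨a1, a2, a3, a4, a5, a6, a7⟩ := h1 M hMn1 θ hθ0 hθ1
  set P := Pp θ σ M with hP
  set R := Rr θ σ M with hR
  have hMr : (36 : ℝ) ≤ M := by exact_mod_cast hM36
  have hM1 : (1 : ℝ) ≤ M := by linarith
  have hM0 : (0 : ℝ) < M := by linarith
  set N := ⌊x⌋₊ with hN
  have hNx : (N : ℝ) ≤ x := Nat.floor_le (by linarith)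
  have hxN : x ≤ N + 1 := (Nat.lt_floor_add_one x).le
  have hMNr : (M : ℝ) ≤ 3 * N := by exact_mod_cast hMx
  have hN0 : (0 : ℝ) < N := by linarith
  set ℓ := Real.log M with hℓ
  have hℓC : C + 6 ≤ ε / 2 * ℓ := by
    have := h4 M hMn4
    rw [div_le_iff₀ (by positivity)] at this
    linarith
  have hℓ0 : 0 < ℓ := by
    by_contra hc'
    rw [not_lt] at hc'
    have : ε / 2 * ℓ ≤ 0 := mul_nonpos_of_nonneg_of_nonpos (by positivity) hc'
    linarith
  have hℓN : ℓ + 1 ≤ N := by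
    have g1 : Real.log (Real.sqrt M) ≤ Real.sqrt M - 1 := Real.log_le_sub_one_of_pos (by positivity)
    have g2 : Real.log (Real.sqrt M) = ℓ / 2 := by rw [Real.log_sqrt hM0.le]
    have g3 : 6 ≤ Real.sqrt M := by
      rw [show (6 : ℝ) = Real.sqrt 36 by rw [show (36 : ℝ) = 6 ^ 2 by norm_num]; exact (Real.sqrt_sq (by norm_num)).symm]
      exact Real.sqrt_le_sqrt hMr
    have g4 : Real.sqrt M * Real.sqrt M = M := Real.mul_self_sqrt hM0.le
    nlinarith
  -- the size of `L`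
  have hP0 : (0 : ℝ) < P := by exact_mod_cast (by omega : 0 < P)
  have hR0 : (0 : ℝ) < R := by exact_mod_cast (by omega : 0 < R)
  have hPR : P ≤ R := by
    have g1 : (P : ℝ) ≤ R := by
      refine a5.trans (le_trans ?_ a4)
      rw [le_div_iff₀ (by norm_num)]
      calc (M : ℝ) ^ (θ + σ) * 2 ≤ (M : ℝ) ^ (θ + σ) * (M : ℝ) ^ σ := by
            have := h3 M hMn3
            gcongr
        _ = (M : ℝ) ^ (θ + σ + σ) := by rw [← Real.rpow_add hM0]
        _ ≤ _ := mpow hM1 (by rw [hθ]; linarith)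
    exact_mod_cast g1
  have hL := hLL P R a1 hPR
  have hlogR : (1 - θ - 2 * σ) * ℓ - Real.log 2 ≤ Real.log R := by
    have g1 : Real.log ((M : ℝ) ^ (1 - θ - 2 * σ) / 2) ≤ Real.log R := Real.log_le_log (by positivity) a4
    rwa [Real.log_div (by positivity) (by norm_num), Real.log_rpow hM0] at g1
  have hlogP : Real.log P ≤ (θ + σ) * ℓ := by
    have g1 : Real.log P ≤ Real.log ((M : ℝ) ^ (θ + σ)) := Real.log_le_log hP0 a5
    rwa [Real.log_rpow hM0] at g1
  have hlog2 := Real.log_two_lt_d9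
  have hL2 : (c - 3 * σ) * ℓ - (C + 1) ≤ LL P R := by
    have : (c - 3 * σ) * ℓ = (1 - θ - 2 * σ) * ℓ - (θ + σ) * ℓ := by rw [hθ]; ring
    linarith
  have hLge : 1 ≤ LL P R := by
    have : ε / 2 * ℓ ≤ (c - 3 * σ) * ℓ := by
      apply mul_le_mul_of_nonneg_right _ hℓ0.le
      rw [hσ]
      linarith
    linarith
  obtain ⟨o1, o2⟩ := hoff N hxM
  have hmain := h2 M hMn2 θ hθ0 hθ1 K k N hK hKk hk2 hMK hKM hMx hxM y hLge o1 o2
  rw [GX_eq]
  refine le_trans ?_ hmain
  -- the final comparison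
  have hlx : Real.log x ≤ ℓ + 1 := by
    have g1 : Real.log x ≤ Real.log (M * 2) := Real.log_le_log (by linarith) (by linarith)
    rw [Real.log_mul (by linarith) (by norm_num)] at g1
    linarith
  have hlx0 : 0 ≤ Real.log x := Real.log_nonneg hx1
  have hce : 0 ≤ c - ε := by linarith
  have e1 : (c - ε) * x * Real.log x ≤ (c - ε) * (N + 1) * (ℓ + 1) := by
    gcongr
  have e2 : ((N : ℝ) + 1) * (ℓ + 1) ≤ N * (ℓ + 2) := by nlinarith
  have e3 : (c - ε) * (N + 1) * (ℓ + 1) ≤ (c - ε) * (N * (ℓ + 2)) := by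
    rw [mul_assoc]
    exact mul_le_mul_of_nonneg_left e2 hce
  have e4 : (c - ε) * (ℓ + 2) ≤ (1 - 4 * (ε / 40)) * (LL P R - 2) := by
    have f1 : (1 - 4 * (ε / 40)) * ((c - 3 * σ) * ℓ - (C + 3)) ≤ (1 - 4 * (ε / 40)) * (LL P R - 2) := by
      apply mul_le_mul_of_nonneg_left _ (by linarith)
      linarith
    refine le_trans ?_ f1
    have f2 : (c - 3 * σ) * ℓ ≤ ℓ := by
      have : (c - 3 * σ) * ℓ ≤ 1 * ℓ := mul_le_mul_of_nonneg_right (by linarith) hℓ0.le
      linarith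
    have f3 : 4 * (ε / 40) * ((c - 3 * σ) * ℓ) ≤ 4 * (ε / 40) * ℓ := mul_le_mul_of_nonneg_left f2 (by positivity)
    have f4 : 0 ≤ 4 * (ε / 40) * (C + 3) := by positivity
    have f5 : (1 - 4 * (ε / 40)) * ((c - 3 * σ) * ℓ - (C + 3)) =
        (c - 3 * σ) * ℓ - 4 * (ε / 40) * ((c - 3 * σ) * ℓ) - (C + 3) + 4 * (ε / 40) * (C + 3) := by ring
    have f6 : (c - ε) * (ℓ + 2) = (c - 3 * σ) * ℓ - (ε - 3 * σ) * ℓ + 2 * (c - ε) := by ring
    have f7 : ε / 2 * ℓ ≤ (ε - 3 * σ) * ℓ - 4 * (ε / 40) * ℓ := by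
      have : ε / 2 * ℓ ≤ (ε - 3 * σ - 4 * (ε / 40)) * ℓ := by
        apply mul_le_mul_of_nonneg_right _ hℓ0.le
        rw [hσ]
        linarith
      linarith
    rw [f5, f6]
    linarith
  calc (c - ε) * x * Real.log x ≤ (c - ε) * (N * (ℓ + 2)) := e1.trans e3
    _ = N * ((c - ε) * (ℓ + 2)) := by ring
    _ ≤ N * ((1 - 4 * (ε / 40)) * (LL P R - 2)) := mul_le_mul_of_nonneg_left e4 hN0.le
    _ = _ := by ring

open Classical in
/-- the large deviation bound, for `ε ≤ 1` -/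
theorem main0 (ε : ℝ) (hε : 0 < ε) (hε1 : ε ≤ 1) : ∃ X₀ : ℝ, ∀ X : ℝ, X₀ ≤ X → ∀ K : ℕ,
    1 ≤ K → (K : ℝ) ≤ X → ∀ c : ℝ, X ^ (1 + c) ≤ (K : ℝ) ^ 2 →
    (((Ioc K (2 * K)).filter (fun k => ∃ x y : ℝ, X ≤ x ∧ x ≤ 2 * X ∧
      GX x k y < (c - ε) * x * Real.log x)).card : ℝ) ≤ X ^ (1 + c - ε / 16) / K := by
  obtain ⟨n1, h1⟩ := not_exc ε hε hε1
  obtain ⟨n2, h2⟩ := exc (ε / 16) (by positivity) (by linarith)
  obtain ⟨n3, h3⟩ := ev_const 16 (2 / 5 * (ε / 16)) (by positivity)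
  refine ⟨max (max (n1 : ℝ) n2) (max (n3 + 1 : ℝ) 36), fun X hX K hK hKX c hc => ?_⟩
  have hX36 : (36 : ℝ) ≤ X := le_trans (le_trans (le_max_right _ _) (le_max_right _ _)) hX
  have hX0 : 0 < X := by linarith
  have hX1 : 1 ≤ X := by linarith
  have hK0 : (0 : ℝ) < K := by exact_mod_cast hK
  set M := ⌊2 * X⌋₊ with hM
  have hM2X : (M : ℝ) ≤ 2 * X := Nat.floor_le (by linarith)
  have hM2X' : 2 * X < M + 1 := Nat.lt_floor_add_one _
  have hXM : X ≤ M := by linarith
  have hMn1 : n1 ≤ M := by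
    have : (n1 : ℝ) ≤ M := (le_trans (le_trans (le_max_left _ _) (le_max_left _ _)) hX).trans hXM
    exact_mod_cast this
  have hMn2 : n2 ≤ M := by
    have : (n2 : ℝ) ≤ M := (le_trans (le_trans (le_max_right _ _) (le_max_left _ _)) hX).trans hXM
    exact_mod_cast this
  have hXn3 : (n3 + 1 : ℝ) ≤ X := le_trans (le_trans (le_max_left _ _) (le_max_right _ _)) hX
  set σ := ε / 16 with hσ
  rcases le_or_gt c ε with hcε | hcε
  · -- trivial case
    have : (Ioc K (2 * K)).filter (fun k => ∃ x y : ℝ, X ≤ x ∧ x ≤ 2 * X ∧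
      GX x k y < (c - ε) * x * Real.log x) = ∅ := by
      rw [filter_eq_empty_iff]
      rintro k _ ⟨x, y, hx1, _, hx3⟩
      have g1 := GX_nonneg x k y
      have g2 : (c - ε) * x * Real.log x ≤ 0 := by
        have : 0 ≤ x * Real.log x := mul_nonneg (by linarith) (Real.log_nonneg (by linarith))
        rw [mul_assoc]
        exact mul_nonpos_of_nonpos_of_nonneg (by linarith) this
      linarith
    rw [this, card_empty, Nat.cast_zero]
    positivity
  · have hc1 : c ≤ 1 := by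
      have g1 : X ^ (1 + c) ≤ X ^ (2 : ℝ) := by
        refine hc.trans ?_
        rw [show (2 : ℝ) = ((2 : ℕ) : ℝ) by norm_num, Real.rpow_natCast]
        exact pow_le_pow_left₀ hK0.le hKX 2
      have g2 := (Real.rpow_le_rpow_left_iff (by linarith : 1 < X)).1 g1
      linarith
    obtain ⟨E, e1, e2, e3⟩ := h2 M hMn2 ((1 - c) / 2) (by linarith) (by linarith) K hK
    have hsub : (Ioc K (2 * K)).filter (fun k => ∃ x y : ℝ, X ≤ x ∧ x ≤ 2 * X ∧
        GX x k y < (c - ε) * x * Real.log x) ⊆ E := by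
      intro k hk
      rw [mem_filter] at hk
      obtain ⟨hk1, x, y, hx1, hx2, hx3⟩ := hk
      by_contra hkE
      have g1 := e3 k hk1 hkE
      rw [mem_Ioc] at hk1
      have g2 := h1 M hMn1 c hcε hc1 K k hK hk1.1 hk1.2 (by
        have f1 : X ^ (1 - (1 - c) / 2) ≤ K := by
          have f2 : (X ^ (1 - (1 - c) / 2)) ^ 2 ≤ (K : ℝ) ^ 2 := by
            rw [← Real.rpow_natCast, ← Real.rpow_mul hX0.le]
            refine le_trans (le_of_eq ?_) hc
            congr 1
            push_cast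
            ring
          exact le_of_sq_le_sq f2 hK0.le
        calc (M : ℝ) ^ (1 - (1 - c) / 2) ≤ (2 * X) ^ (1 - (1 - c) / 2) :=
              Real.rpow_le_rpow (Nat.cast_nonneg _) hM2X (by linarith)
          _ = (2 : ℝ) ^ (1 - (1 - c) / 2) * X ^ (1 - (1 - c) / 2) := Real.mul_rpow (by norm_num) hX0.le
          _ ≤ 2 * K := by
              apply mul_le_mul _ f1 (by positivity) (by norm_num)
              calc (2 : ℝ) ^ (1 - (1 - c) / 2) ≤ (2 : ℝ) ^ (1 : ℝ) :=
                    Real.rpow_le_rpow_of_exponent_le (by norm_num) (by linarith)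
                _ = 2 := Real.rpow_one _) (by
        have : (2 * K : ℝ) < M + 1 := by linarith
        have : 2 * K < M + 1 := by exact_mod_cast this
        omega) x (by linarith) (by
        have f1 : x < (⌊x⌋₊ : ℝ) + 1 := Nat.lt_floor_add_one x
        have f2 : (M : ℝ) ≤ 3 * ⌊x⌋₊ := by linarith
        exact_mod_cast f2) (Nat.floor_le_floor hx2) (by linarith) g1 y
      linarith
    have hcard : (((Ioc K (2 * K)).filter (fun k => ∃ x y : ℝ, X ≤ x ∧ x ≤ 2 * X ∧
        GX x k y < (c - ε) * x * Real.log x)).card : ℝ) ≤ E.card := by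
      exact_mod_cast card_le_card hsub
    refine hcard.trans (e2.trans ?_)
    have hexp : 2 - 2 * ((1 - c) / 2) - 2 * σ + 12 * (σ / 20) = 1 + c - 7 / 5 * σ := by ring
    rw [hexp]
    apply div_le_div_of_nonneg_right _ hK0.le
    have hσ1 : σ ≤ 1 / 16 := by rw [hσ]; linarith
    have hσ0 : 0 < σ := by positivity
    have g1 : (M : ℝ) ^ (1 + c - 7 / 5 * σ) ≤ 4 * X ^ (1 + c - 7 / 5 * σ) := by
      calc (M : ℝ) ^ (1 + c - 7 / 5 * σ) ≤ (2 * X) ^ (1 + c - 7 / 5 * σ) :=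
            Real.rpow_le_rpow (Nat.cast_nonneg _) hM2X (by linarith)
        _ = (2 : ℝ) ^ (1 + c - 7 / 5 * σ) * X ^ (1 + c - 7 / 5 * σ) := Real.mul_rpow (by norm_num) hX0.le
        _ ≤ 4 * X ^ (1 + c - 7 / 5 * σ) := by
            apply mul_le_mul_of_nonneg_right _ (by positivity)
            calc (2 : ℝ) ^ (1 + c - 7 / 5 * σ) ≤ (2 : ℝ) ^ (2 : ℝ) :=
                  Real.rpow_le_rpow_of_exponent_le (by norm_num) (by linarith)
              _ = 4 := by norm_num
    have g2 : (16 : ℝ) ≤ X ^ (2 / 5 * σ) := by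
      have f1 := h3 ⌊X⌋₊ (by
        have : (n3 : ℝ) ≤ X := by linarith
        exact Nat.le_floor this)
      refine f1.trans ?_
      exact Real.rpow_le_rpow (Nat.cast_nonneg _) (Nat.floor_le hX0.le) (by positivity)
    calc 4 * (M : ℝ) ^ (1 + c - 7 / 5 * σ) ≤ 4 * (4 * X ^ (1 + c - 7 / 5 * σ)) := by gcongr
      _ = 16 * X ^ (1 + c - 7 / 5 * σ) := by ring
      _ ≤ X ^ (2 / 5 * σ) * X ^ (1 + c - 7 / 5 * σ) := by gcongr
      _ = X ^ (1 + c - σ) := by
          rw [← Real.rpow_add hX0]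
          congr 1
          ring

open Classical in
/-- the large deviation bound -/
theorem main1 (ε : ℝ) (hε : 0 < ε) : ∃ κ : ℝ, 0 < κ ∧ ∃ X₀ : ℝ, ∀ X : ℝ, X₀ ≤ X → ∀ K : ℕ,
    1 ≤ K → (K : ℝ) ≤ X → ∀ c : ℝ, X ^ (1 + c) ≤ (K : ℝ) ^ 2 →
    (((Ioc K (2 * K)).filter (fun k => ∃ x y : ℝ, X ≤ x ∧ x ≤ 2 * X ∧
      GX x k y < (c - ε) * x * Real.log x)).card : ℝ) ≤ X ^ (1 + c - κ) / K := by
  obtain ⟨X₀, h⟩ := main0 (min ε 1) (lt_min hε one_pos) (min_le_right _ _)
  refine ⟨min ε 1 / 16, by have := lt_min hε one_pos; positivity, max X₀ 1, fun X hX K hK hKX c hc => ?_⟩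
  have hX1 : 1 ≤ X := (le_max_right _ _).trans hX
  refine le_trans ?_ (h X ((le_max_left _ _).trans hX) K hK hKX c hc)
  have hsub : (Ioc K (2 * K)).filter (fun k => ∃ x y : ℝ, X ≤ x ∧ x ≤ 2 * X ∧
      GX x k y < (c - ε) * x * Real.log x) ⊆ (Ioc K (2 * K)).filter (fun k => ∃ x y : ℝ, X ≤ x ∧ x ≤ 2 * X ∧
      GX x k y < (c - min ε 1) * x * Real.log x) := by
    intro k hk
    rw [mem_filter] at hk ⊢
    obtain ⟨hk1, x, y, hx1, hx2, hx3⟩ := hk
    refine ⟨hk1, x, y, hx1, hx2, lt_of_lt_of_le hx3 ?_⟩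
    rw [mul_assoc, mul_assoc]
    apply mul_le_mul_of_nonneg_right _ (mul_nonneg (by linarith) (Real.log_nonneg (by linarith)))
    have := min_le_left ε 1
    linarith
  exact_mod_cast card_le_card hsub

open Classical in
/-- almost all moduli, simultaneously for all `x ≥ k` -/
theorem main2 (ε : ℝ) (hε : 0 < ε) : ∃ κ : ℝ, 0 < κ ∧ ∃ K₀ : ℝ, ∀ K : ℕ, K₀ ≤ K →
    (((Ioc K (2 * K)).filter (fun k : ℕ => ∃ x y : ℝ, (k : ℝ) ≤ x ∧
      GX x k y < x * (2 * Real.log k - Real.log x - ε * Real.log x))).card : ℝ) ≤ (K : ℝ) ^ (1 - κ) := by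
  obtain ⟨κ, hκ, X₀, h⟩ := main1 (ε / 2) (by positivity)
  obtain ⟨n1, h1⟩ := ev_pow 4 1 (κ / 2) (by positivity)
  obtain ⟨n2, h2⟩ := ev_const 4 (ε / 4) (by positivity)
  refine ⟨κ / 2, by positivity, max (max X₀ n1) (max (n2 : ℝ) 32), fun K hK => ?_⟩
  have hKX : X₀ ≤ K := le_trans (le_trans (le_max_left _ _) (le_max_left _ _)) hK
  have hKn1 : n1 ≤ K := by
    have : (n1 : ℝ) ≤ K := le_trans (le_trans (le_max_right _ _) (le_max_left _ _)) hK
    exact_mod_cast this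
  have hKn2 : n2 ≤ K := by
    have : (n2 : ℝ) ≤ K := le_trans (le_trans (le_max_left _ _) (le_max_right _ _)) hK
    exact_mod_cast this
  have hK32 : (32 : ℝ) ≤ K := le_trans (le_trans (le_max_right _ _) (le_max_right _ _)) hK
  have hK0 : (0 : ℝ) < K := by linarith
  have hK1 : 1 ≤ K := by exact_mod_cast (by linarith : (1 : ℝ) ≤ K)
  have hlK : 0 < Real.log K := Real.log_pos (by linarith)
  set I := Nat.log 2 (4 * K) with hI
  set Xi : ℕ → ℝ := fun i => 2 ^ i * K with hXi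
  set ci : ℕ → ℝ := fun i => 2 * Real.log K / Real.log (Xi i) - 1 with hci
  have hXK : ∀ i, (K : ℝ) ≤ Xi i := by
    intro i
    rw [hXi]
    simp only
    exact le_mul_of_one_le_left hK0.le (one_le_pow₀ (by norm_num))
  have hlX : ∀ i, 0 < Real.log (Xi i) := fun i => Real.log_pos (by linarith [hXK i])
  have hpow : ∀ i, (Xi i) ^ (1 + ci i) = (K : ℝ) ^ 2 := by
    intro i
    have g1 : 0 < Xi i := by linarith [hXK i]
    rw [Real.rpow_def_of_pos g1, hci]
    simp only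
    have : Real.log (Xi i) * (1 + (2 * Real.log K / Real.log (Xi i) - 1)) = ((2 : ℕ) : ℝ) * Real.log K := by
      have := (hlX i).ne'
      field_simp
      ring
    rw [this, ← Real.log_pow, Real.exp_log (by positivity)]
  set B : ℕ → Finset ℕ := fun i => (Ioc K (2 * K)).filter (fun k => ∃ x y : ℝ, Xi i ≤ x ∧ x ≤ 2 * Xi i ∧
      GX x k y < (ci i - ε / 2) * x * Real.log x) with hB
  have hBcard : ∀ i, ((B i).card : ℝ) ≤ (K : ℝ) ^ (1 - κ) := by
    intro i
    refine (h (Xi i) (hKX.trans (hXK i)) K hK1 (hXK i) (ci i) (hpow i).le).trans ?_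
    have g1 : 0 < Xi i := by linarith [hXK i]
    rw [show 1 + ci i - κ = (1 + ci i) + (-κ) by ring, Real.rpow_add g1, hpow i, div_le_iff₀ hK0]
    have g2 : (Xi i) ^ (-κ) ≤ (K : ℝ) ^ (-κ) :=
      Real.rpow_le_rpow_of_nonpos hK0 (hXK i) (by linarith)
    calc (K : ℝ) ^ 2 * (Xi i) ^ (-κ) ≤ (K : ℝ) ^ 2 * (K : ℝ) ^ (-κ) := by gcongr
      _ = (K : ℝ) ^ (1 - κ) * K := by
          rw [← Real.rpow_natCast, ← Real.rpow_add hK0]
          nth_rewrite 3 [← Real.rpow_one (K : ℝ)]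
          rw [← Real.rpow_add hK0]
          congr 1
          push_cast
          ring
  have hsub : (Ioc K (2 * K)).filter (fun k : ℕ => ∃ x y : ℝ, (k : ℝ) ≤ x ∧
      GX x k y < x * (2 * Real.log k - Real.log x - ε * Real.log x)) ⊆ (range (I + 1)).biUnion B := by
    intro k hk
    rw [mem_filter] at hk
    obtain ⟨hk1, x, z, hx1, hx2⟩ := hk
    have hk1' := mem_Ioc.1 hk1
    have hkr : (K : ℝ) < k := by exact_mod_cast hk1'.1
    have hkr2 : (k : ℝ) ≤ 2 * K := by exact_mod_cast hk1'.2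
    have hk0 : (0 : ℝ) < k := by linarith
    have hx0 : 0 < x := by linarith
    have hlx : 0 < Real.log x := Real.log_pos (by linarith)
    -- `x < k²`
    have hxk : Real.log x < 2 * Real.log k := by
      by_contra hc
      rw [not_lt] at hc
      have g1 := GX_nonneg x k z
      have g2 : x * (2 * Real.log k - Real.log x - ε * Real.log x) ≤ 0 := by
        apply mul_nonpos_of_nonneg_of_nonpos hx0.le
        have : 0 ≤ ε * Real.log x := by positivity
        linarith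
      linarith
    have hxk2 : x < 4 * K * K := by
      have g1 : Real.log x < Real.log ((k : ℝ) ^ 2) := by
        rw [Real.log_pow]
        push_cast
        exact hxk
      have g2 : x < (k : ℝ) ^ 2 := (Real.log_lt_log_iff hx0 (by positivity)).1 g1
      nlinarith
    -- the dyadic interval
    set y := ⌊x / K⌋₊ with hy
    have hxK1 : 1 ≤ x / K := by
      rw [le_div_iff₀ hK0]
      linarith
    have hy1 : 1 ≤ y := Nat.le_floor (by push_cast; exact hxK1)
    set i := Nat.log 2 y with hi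
    have hyle : (y : ℝ) ≤ x / K := Nat.floor_le (by positivity)
    have hylt : x / K < y + 1 := Nat.lt_floor_add_one _
    have hi1 : 2 ^ i ≤ y := Nat.pow_log_le_self 2 (by omega)
    have hi2 : y < 2 ^ (i + 1) := Nat.lt_pow_succ_log_self (by norm_num) y
    have hXx : Xi i ≤ x := by
      have : ((2 ^ i : ℕ) : ℝ) ≤ x / K := le_trans (by exact_mod_cast hi1) hyle
      rw [le_div_iff₀ hK0] at this
      push_cast at this
      exact this
    have hxX : x ≤ 2 * Xi i := by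
      have g1 : ((y + 1 : ℕ) : ℝ) ≤ ((2 ^ (i + 1) : ℕ) : ℝ) := by exact_mod_cast hi2
      push_cast at g1
      have g2 : x / K ≤ 2 ^ (i + 1) := hylt.le.trans g1
      rw [div_le_iff₀ hK0] at g2
      rw [hXi]
      simp only
      calc x ≤ 2 ^ (i + 1) * K := g2
        _ = _ := by ring
    have hiI : i ≤ I := by
      apply Nat.log_mono_right
      have : (y : ℝ) < 4 * K := by
        refine lt_of_le_of_lt hyle ?_
        rw [div_lt_iff₀ hK0]
        exact hxk2
      have : y < 4 * K := by exact_mod_cast this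
      exact this.le
    rw [mem_biUnion]
    refine ⟨i, mem_range.2 (by omega), ?_⟩
    rw [hB, mem_filter]
    refine ⟨hk1, x, z, hXx, hxX, lt_of_lt_of_le hx2 ?_⟩
    have g1 : Real.log (Xi i) ≤ Real.log x := Real.log_le_log (by linarith [hXK i]) hXx
    have g2 : 2 * Real.log K ≤ 2 * Real.log K / Real.log (Xi i) * Real.log x := by
      rw [div_mul_eq_mul_div, le_div_iff₀ (hlX i)]
      exact mul_le_mul_of_nonneg_left g1 (by positivity)
    have g3 : Real.log k ≤ Real.log K + Real.log 2 := by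
      rw [← Real.log_mul (by positivity) (by norm_num)]
      exact Real.log_le_log hk0 (by linarith)
    have g4 : 2 * Real.log 2 ≤ ε / 2 * Real.log x := by
      have f1 := h2 K hKn2
      have f2 : Real.log 4 ≤ Real.log ((K : ℝ) ^ (ε / 4)) := Real.log_le_log (by norm_num) f1
      rw [Real.log_rpow hK0, show (4 : ℝ) = 2 ^ 2 by norm_num, Real.log_pow] at f2
      push_cast at f2
      have f3 : Real.log K ≤ Real.log x := Real.log_le_log hK0 (by linarith)
      have f4 : (ε / 2 ^ 2) * Real.log K ≤ ε / 2 * Real.log x := by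
        have : (ε / 2 ^ 2) * Real.log K ≤ (ε / 2) * Real.log K := by
          apply mul_le_mul_of_nonneg_right _ hlK.le
          linarith
        have : (ε / 2) * Real.log K ≤ (ε / 2) * Real.log x := mul_le_mul_of_nonneg_left f3 (by positivity)
        linarith
      linarith
    have g5 : 2 * Real.log k - Real.log x - ε * Real.log x ≤ (ci i - ε / 2) * Real.log x := by
      rw [hci]
      simp only
      have : (2 * Real.log K / Real.log (Xi i) - 1 - ε / 2) * Real.log x =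
          2 * Real.log K / Real.log (Xi i) * Real.log x - Real.log x - ε / 2 * Real.log x := by ring
      rw [this]
      have : ε * Real.log x = ε / 2 * Real.log x + ε / 2 * Real.log x := by ring
      linarith
    calc x * (2 * Real.log k - Real.log x - ε * Real.log x) ≤ x * ((ci i - ε / 2) * Real.log x) :=
          mul_le_mul_of_nonneg_left g5 hx0.le
      _ = _ := by ring
  have hI1 : ((I + 1 : ℕ) : ℝ) ≤ 4 * Real.log K := by
    have g1 : (I : ℝ) * Real.log 2 ≤ Real.log (4 * K) := by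
      have g4 : (2 : ℝ) ^ I ≤ 4 * K := by
        exact_mod_cast Nat.pow_log_le_self 2 (by omega : 4 * K ≠ 0)
      have g7 := Real.log_le_log (by positivity) g4
      rwa [Real.log_pow] at g7
    have g2 : Real.log (4 * K) = 2 * Real.log 2 + Real.log K := by
      rw [Real.log_mul (by norm_num) hK0.ne', show (4 : ℝ) = 2 ^ 2 by norm_num, Real.log_pow]
      push_cast
      ring
    have g3 : 5 * Real.log 2 ≤ Real.log K := by
      have : Real.log 32 ≤ Real.log K := Real.log_le_log (by norm_num) hK32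
      rw [show (32 : ℝ) = 2 ^ 5 by norm_num, Real.log_pow] at this
      push_cast at this
      exact this
    have g4 := Real.log_two_gt_d9
    push_cast
    have g5 : (0 : ℝ) ≤ I := Nat.cast_nonneg _
    nlinarith
  calc (((Ioc K (2 * K)).filter (fun k : ℕ => ∃ x y : ℝ, (k : ℝ) ≤ x ∧
      GX x k y < x * (2 * Real.log k - Real.log x - ε * Real.log x))).card : ℝ)
      ≤ (((range (I + 1)).biUnion B).card : ℝ) := by exact_mod_cast card_le_card hsub
    _ ≤ ∑ i ∈ range (I + 1), ((B i).card : ℝ) := by exact_mod_cast card_biUnion_le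
    _ ≤ ∑ i ∈ range (I + 1), (K : ℝ) ^ (1 - κ) := sum_le_sum fun i _ => hBcard i
    _ = ((I + 1 : ℕ) : ℝ) * (K : ℝ) ^ (1 - κ) := by rw [sum_const, card_range, nsmul_eq_mul]
    _ ≤ (4 * Real.log K) * (K : ℝ) ^ (1 - κ) := by gcongr
    _ ≤ (K : ℝ) ^ (κ / 2) * (K : ℝ) ^ (1 - κ) := by
        have := h1 K hKn1
        rw [pow_one] at this
        gcongr
    _ = (K : ℝ) ^ (1 - κ / 2) := by
        rw [← Real.rpow_add hK0]
        congr 1
        ring

end Pool.Agent.T2h84.LD
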