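import Pool.Agent.T2h84.LD.FS

/-!
Sums of `μ(n) n / φ(n)` times the fractional parts of `x / n`.
-/

set_option autoImplicit false

open Finset

namespace Pool.Agent.T2h84.LD

/-- `μ(n) n / φ(n)` for the integers not divisible by the elements of `S` -/
noncomputable def fc (S : Finset ℕ) (n : ℕ) : ℝ :=
  haveI := Classical.dec (∀ p ∈ S, ¬ p ∣ n)
  if ∀ p ∈ S, ¬ p ∣ n then fm n else 0

lemma FS_nat (S : Finset ℕ) (N : ℕ) : FS S N = ∑ n ∈ Icc 1 N, fc S n := by
  classical
  unfold FS fc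
  rw [Nat.floor_natCast, sum_filter]
  apply sum_congr rfl
  intro n _
  split_ifs <;> rfl

lemma sum_Ioc_fc (S : Finset ℕ) (a b : ℕ) (h : a ≤ b) : ∑ n ∈ Ioc a b, fc S n = FS S b - FS S a := by
  rw [FS_nat, FS_nat]
  have e : Icc 1 b = Icc 1 a ∪ Ioc a b := by
    ext n; simp only [mem_union, mem_Icc, mem_Ioc]; omega
  rw [e, sum_union]
  · ring
  · rw [disjoint_left]
    intro n h1 h2
    rw [mem_Icc] at h1
    rw [mem_Ioc] at h2
    omega

lemma abs_fc_le (S : Finset ℕ) (n : ℕ) : |fc S n| ≤ (n : ℝ) / Nat.totient n := by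
  unfold fc
  split_ifs
  · unfold fm
    rw [abs_mul, abs_of_nonneg (show (0 : ℝ) ≤ (n : ℝ) / Nat.totient n by positivity)]
    have := abs_mu_le n
    have h : (0 : ℝ) ≤ (n : ℝ) / Nat.totient n := by positivity
    nlinarith
  · rw [abs_zero]; positivity

/-- sums of `n / φ(n)` -/
lemma sum_ratio : ∃ C : ℝ, 0 < C ∧ ∀ N : ℕ, ∑ n ∈ Icc 1 N, (n : ℝ) / Nat.totient n ≤ C * N := by
  obtain ⟨D, hD, h⟩ := sum_const_le
  refine ⟨D, hD, fun N => ?_⟩
  have e1 : ∀ n ∈ Icc 1 N, (n : ℝ) / Nat.totient n =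
      ∑ k ∈ (Icc 1 N).filter Squarefree, if k ∣ n then (1 / (Nat.totient k : ℝ)) else 0 := by
    intro n hn
    rw [mem_Icc] at hn
    rw [H336V.TotLog.div_totient n hn.1, ← sum_filter, filter_filter]
    apply sum_congr _ (fun _ _ => rfl)
    ext k
    simp only [mem_filter, Nat.mem_divisors, mem_Icc]
    constructor
    · rintro ⟨⟨h1, h2⟩, h3⟩
      exact ⟨⟨Nat.pos_of_dvd_of_pos h1 hn.1, (Nat.le_of_dvd hn.1 h1).trans hn.2⟩, h3, h1⟩
    · rintro ⟨_, h3, h1⟩
      exact ⟨⟨h1, by omega⟩, h3⟩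
  rw [sum_congr rfl e1, sum_comm]
  have e2 : ∀ k ∈ (Icc 1 N).filter Squarefree, (∑ n ∈ Icc 1 N, if k ∣ n then (1 / (Nat.totient k : ℝ)) else 0) ≤
      N * (4 ^ k.primeFactors.card / ((Nat.totient k : ℝ) * √(k : ℝ))) := by
    intro k hk
    rw [mem_filter, mem_Icc] at hk
    have hk1 : 1 ≤ k := hk.1.1
    have hk0 : (0 : ℝ) < k := by exact_mod_cast hk1
    have hk1r : (1 : ℝ) ≤ k := by exact_mod_cast hk1
    have htot : (0 : ℝ) < Nat.totient k := by exact_mod_cast Nat.totient_pos.2 hk1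
    rw [← sum_filter, sum_const, nsmul_eq_mul]
    have h1 : (((Icc 1 N).filter (fun n => k ∣ n)).card : ℝ) ≤ N / k := by
      have h2 : ((Icc 1 N).filter (fun n => k ∣ n)).card = N / k := by
        have e : Icc 1 N = Ioc 0 N := by
          ext n; simp only [mem_Icc, mem_Ioc]; omega
        rw [e]
        exact Nat.Ioc_filter_dvd_card_eq_div N k
      rw [h2]
      exact Nat.cast_div_le
    have hs1 : 1 ≤ √(k : ℝ) := by
      rw [show (1 : ℝ) = √1 by simp]
      exact Real.sqrt_le_sqrt hk1r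
    have hs0 : 0 < √(k : ℝ) := by linarith
    have h3 : √(k : ℝ) ≤ k := by
      have := Real.mul_self_sqrt hk0.le
      nlinarith
    have h4 : (1 : ℝ) ≤ 4 ^ k.primeFactors.card := one_le_pow₀ (by norm_num)
    calc (((Icc 1 N).filter (fun n => k ∣ n)).card : ℝ) * (1 / (Nat.totient k : ℝ))
        ≤ N / k * (1 / (Nat.totient k : ℝ)) := by gcongr
      _ = N * (1 / ((Nat.totient k : ℝ) * k)) := by field_simp
      _ ≤ N * (4 ^ k.primeFactors.card / ((Nat.totient k : ℝ) * √(k : ℝ))) := by gcongr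
  refine (sum_le_sum e2).trans ?_
  rw [← mul_sum, mul_comm]
  exact mul_le_mul_of_nonneg_right (h N) (Nat.cast_nonneg N)

/-- partial summation -/
lemma abel_div (S : Finset ℕ) (u y : ℕ) (hu : 1 ≤ u) (huy : u ≤ y) (B : ℝ) (hB : 0 ≤ B)
    (h : ∀ n : ℕ, u ≤ n → n ≤ y → |FS S n| ≤ B * n) :
    |∑ n ∈ Ioc u y, fc S n / n| ≤ B * (2 + Real.log y) := by
  have e1 : ∀ y : ℕ, u ≤ y → ∑ n ∈ Ioc u y, fc S n / n =
      FS S y / y - FS S u / u + ∑ n ∈ Ioc u y, FS S ((n - 1 : ℕ) : ℝ) * (1 / ((n - 1 : ℕ) : ℝ) - 1 / n) := by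
    intro y hy
    induction y, hy using Nat.le_induction with
    | base => simp
    | succ n hn ih =>
      rw [← Finset.insert_Ioc_right_eq_Ioc_add_one (by omega), sum_insert (by simp), sum_insert (by simp), ih]
      have e2 : FS S ((n + 1 : ℕ) : ℝ) = FS S n + fc S (n + 1) := by
        rw [FS_nat, FS_nat, sum_Icc_succ_top (by omega)]
      rw [e2]
      have e3 : n + 1 - 1 = n := rfl
      rw [e3]
      have hn0 : (n : ℝ) ≠ 0 := by
        have : 0 < n := by omega
        positivity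
      have hn1 : ((n + 1 : ℕ) : ℝ) ≠ 0 := by positivity
      field_simp
      ring
  rw [e1 y huy]
  have hu0 : (0 : ℝ) < u := by exact_mod_cast hu
  have hy0 : (0 : ℝ) < y := by exact_mod_cast (by omega : 0 < y)
  have h1 : |FS S y / y| ≤ B := by
    rw [abs_div, abs_of_pos hy0, div_le_iff₀ hy0]
    exact h y huy le_rfl
  have h2 : |FS S u / u| ≤ B := by
    rw [abs_div, abs_of_pos hu0, div_le_iff₀ hu0]
    exact h u le_rfl huy
  have h3 : |∑ n ∈ Ioc u y, FS S ((n - 1 : ℕ) : ℝ) * (1 / ((n - 1 : ℕ) : ℝ) - 1 / n)| ≤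
      B * Real.log y := by
    refine (abs_sum_le_sum_abs _ _).trans ?_
    have h4 : ∀ n ∈ Ioc u y, |FS S ((n - 1 : ℕ) : ℝ) * (1 / ((n - 1 : ℕ) : ℝ) - 1 / n)| ≤ B * (1 / (n : ℝ)) := by
      intro n hn
      rw [mem_Ioc] at hn
      obtain ⟨m, rfl⟩ : ∃ m, n = m + 1 := ⟨n - 1, by omega⟩
      have e3 : m + 1 - 1 = m := rfl
      rw [e3]
      have hm := h m (by omega) (by omega)
      have hm0 : (0 : ℝ) < m := by exact_mod_cast (by omega : 0 < m)
      have e4 : 1 / (m : ℝ) - 1 / ((m + 1 : ℕ) : ℝ) = 1 / (m * ((m + 1 : ℕ) : ℝ)) := by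
        push_cast
        field_simp
        ring
      rw [e4, abs_mul, abs_of_pos (show (0 : ℝ) < 1 / (m * ((m + 1 : ℕ) : ℝ)) by positivity)]
      calc |FS S m| * (1 / (m * ((m + 1 : ℕ) : ℝ))) ≤ B * m * (1 / (m * ((m + 1 : ℕ) : ℝ))) := by gcongr
        _ = B * (1 / ((m + 1 : ℕ) : ℝ)) := by field_simp
    refine (sum_le_sum h4).trans ?_
    rw [← mul_sum]
    apply mul_le_mul_of_nonneg_left _ hB
    have h5 := H343.PhiSum.sum_Ioc_le u y hu huy
    have h6 : 0 ≤ Real.log u := Real.log_nonneg (by exact_mod_cast hu)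
    linarith
  calc |FS S y / y - FS S u / u + ∑ n ∈ Ioc u y, FS S ((n - 1 : ℕ) : ℝ) * (1 / ((n - 1 : ℕ) : ℝ) - 1 / n)|
      ≤ |FS S y / y - FS S u / u| + |∑ n ∈ Ioc u y, FS S ((n - 1 : ℕ) : ℝ) * (1 / ((n - 1 : ℕ) : ℝ) - 1 / n)| :=
        abs_add_le _ _
    _ ≤ (|FS S y / y| + |FS S u / u|) + B * Real.log y := add_le_add (abs_sub _ _) h3
    _ ≤ B * (2 + Real.log y) := by linarith

/-- `⌊x/n⌋` as a sum of indicators -/
lemma floor_sum (x : ℝ) (hx : 0 ≤ x) (n K : ℕ) (hn : 1 ≤ n) (h : x < K * n) :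
    Int.fract (x / n) = x / n - ∑ j ∈ Icc 1 K, if ((j * n : ℕ) : ℝ) ≤ x then (1 : ℝ) else 0 := by
  have hn0 : (0 : ℝ) < n := by exact_mod_cast hn
  have h0 : 0 ≤ x / n := by positivity
  have e1 : (⌊x / n⌋ : ℝ) = ((⌊x / n⌋₊ : ℕ) : ℝ) := (natCast_floor_eq_intCast_floor h0).symm
  have e2 : ∑ j ∈ Icc 1 K, (if ((j * n : ℕ) : ℝ) ≤ x then (1 : ℝ) else 0) = ((⌊x / n⌋₊ : ℕ) : ℝ) := by
    rw [← sum_filter, sum_const, nsmul_eq_mul, mul_one]
    have e3 : (Icc 1 K).filter (fun j => ((j * n : ℕ) : ℝ) ≤ x) = Icc 1 ⌊x / n⌋₊ := by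
      ext j
      simp only [mem_filter, mem_Icc]
      have e4 : j ≤ ⌊x / n⌋₊ ↔ ((j * n : ℕ) : ℝ) ≤ x := by
        rw [Nat.le_floor_iff h0, le_div_iff₀ hn0]
        push_cast
        rfl
      rw [e4]
      constructor
      · rintro ⟨⟨h1, _⟩, h3⟩
        exact ⟨h1, h3⟩
      · rintro ⟨h1, h3⟩
        refine ⟨⟨h1, ?_⟩, h3⟩
        have h5 : ((j * n : ℕ) : ℝ) < ((K * n : ℕ) : ℝ) := by
          refine lt_of_le_of_lt h3 ?_
          push_cast
          exact h
        have h6 : j * n < K * n := by exact_mod_cast h5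
        exact (Nat.lt_of_mul_lt_mul_right h6).le
    rw [e3, Nat.card_Icc]
    simp
  rw [e2, ← e1]
  rfl

/-- the basic estimate -/
theorem JJ_le {A : ℕ} (hA : 1 ≤ A) : ∃ C : ℝ, 0 < C ∧ ∀ (S : Finset ℕ), (∀ q ∈ S, q.Prime) →
    ∀ (x : ℝ) (K y1 y2 : ℕ), 1 ≤ K → (2 * K : ℝ) ≤ x →
    |∑ n ∈ Ioc y1 y2, fc S n * Int.fract (x / n)| ≤
      C * (x / K) + C * 4 ^ S.card * (x * (2 + Real.log y2 + 2 * K)) /
        (1 + Real.log (x / (2 * K)) / (2 * A)) ^ A := by
  obtain ⟨C, hC, hFS⟩ := FS_le hA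
  obtain ⟨D, hD, hrat⟩ := sum_ratio
  refine ⟨max C D, lt_of_lt_of_le hC (le_max_left _ _), fun S hS x K y1 y2 hK hKx => ?_⟩
  have hK0 : (0 : ℝ) < K := by exact_mod_cast hK
  have hK1 : (1 : ℝ) ≤ K := by exact_mod_cast hK
  have hx0 : 0 < x := by linarith
  have hx1 : 1 ≤ x := by linarith
  have hCm : C ≤ max C D := le_max_left _ _
  have hDm : D ≤ max C D := le_max_right _ _
  have h4 : (0 : ℝ) < 4 ^ S.card := by positivity
  set a := ⌊x / K⌋₊ with ha
  have hxK : 2 ≤ x / K := by rw [le_div_iff₀ hK0]; linarith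
  have ha1 : 2 ≤ a := Nat.le_floor (by simpa using hxK)
  have haK : (a : ℝ) ≤ x / K := Nat.floor_le (by positivity)
  have haK2 : x / (2 * K) ≤ a := by
    have h1 : x / K < a + 1 := Nat.lt_floor_add_one _
    have h2 : x / (2 * K) = x / K / 2 := by field_simp
    rw [h2]
    have h3 : (2 : ℝ) ≤ a := by exact_mod_cast ha1
    linarith
  have hx2K : 1 ≤ x / (2 * K) := by rw [le_div_iff₀ (by positivity)]; linarith
  set lam : ℝ := 1 / (1 + Real.log (x / (2 * K)) / (2 * A)) ^ A with hlam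
  have hl0 : 0 ≤ Real.log (x / (2 * K)) := Real.log_nonneg hx2K
  have hlam0 : 0 < lam := by positivity
  -- `ps n ≤ lam n` for `n ≥ a`
  have hps : ∀ t : ℝ, x / (2 * K) ≤ t → ps A t ≤ lam * t := by
    intro t ht
    have ht0 : 0 < t := by linarith
    have := ps_div_anti (A := A) hx2K ht
    rw [div_le_iff₀ ht0] at this
    exact this
  have hlogy : 0 ≤ Real.log y2 := Real.log_natCast_nonneg y2
  -- split
  have hsplit : Ioc y1 y2 = (Ioc y1 y2).filter (fun n => n ≤ a) ∪ Ioc (max y1 a) y2 := by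
    ext n
    simp only [mem_union, mem_filter, mem_Ioc, max_lt_iff]
    omega
  have hdisj : Disjoint ((Ioc y1 y2).filter (fun n => n ≤ a)) (Ioc (max y1 a) y2) := by
    rw [disjoint_left]
    intro n h1 h2
    rw [mem_filter] at h1
    rw [mem_Ioc, max_lt_iff] at h2
    omega
  rw [hsplit, sum_union hdisj]
  have hfr : ∀ n : ℕ, |Int.fract (x / (n : ℝ))| ≤ 1 := by
    intro n
    rw [abs_of_nonneg (Int.fract_nonneg _)]
    exact (Int.fract_lt_one _).le
  have hp1 : |∑ n ∈ (Ioc y1 y2).filter (fun n => n ≤ a), fc S n * Int.fract (x / n)| ≤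
      max C D * (x / K) := by
    refine (abs_sum_le_sum_abs _ _).trans ?_
    calc ∑ n ∈ (Ioc y1 y2).filter (fun n => n ≤ a), |fc S n * Int.fract (x / n)|
        ≤ ∑ n ∈ (Ioc y1 y2).filter (fun n => n ≤ a), (n : ℝ) / Nat.totient n := by
          apply sum_le_sum
          intro n _
          rw [abs_mul]
          have h1 := abs_fc_le S n
          have h2 := hfr n
          calc |fc S n| * |Int.fract (x / (n : ℝ))| ≤ (n : ℝ) / Nat.totient n * 1 :=
                mul_le_mul h1 h2 (abs_nonneg _) (by positivity)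
            _ = _ := mul_one _
      _ ≤ ∑ n ∈ Icc 1 a, (n : ℝ) / Nat.totient n := by
          apply sum_le_sum_of_subset_of_nonneg
          · intro n hn
            rw [mem_filter, mem_Ioc] at hn
            rw [mem_Icc]
            omega
          · intro n _ _
            positivity
      _ ≤ D * a := hrat a
      _ ≤ max C D * (x / K) := by gcongr
  have hp2 : |∑ n ∈ Ioc (max y1 a) y2, fc S n * Int.fract (x / n)| ≤
      max C D * 4 ^ S.card * (x * (2 + Real.log y2 + 2 * K)) * lam := by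
    set u0 := max y1 a with hu0
    rcases lt_or_ge y2 u0 with hlt | hge
    · rw [Ioc_eq_empty (by omega), sum_empty, abs_zero]
      positivity
    have hau : a ≤ u0 := le_max_right _ _
    have hu1 : 1 ≤ u0 := by omega
    have hua : x / (2 * K) ≤ u0 := haK2.trans (by exact_mod_cast hau)
    have e1 : ∀ n ∈ Ioc u0 y2, fc S n * Int.fract (x / n) = x * (fc S n / n) -
        ∑ j ∈ Icc 1 K, if ((j * n : ℕ) : ℝ) ≤ x then fc S n else 0 := by
      intro n hn
      rw [mem_Ioc] at hn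
      rw [floor_sum x hx0.le n K (by omega)]
      · rw [mul_sub, mul_sum]
        congr 1
        · ring
        · apply sum_congr rfl
          intro j _
          split_ifs <;> ring
      · have h1 : x / K < n := by
          have h2 : x / K < a + 1 := Nat.lt_floor_add_one _
          have h3 : ((a + 1 : ℕ) : ℝ) ≤ n := by exact_mod_cast (by omega : a + 1 ≤ n)
          push_cast at h3
          linarith
        rw [div_lt_iff₀ hK0] at h1
        linarith
    rw [sum_congr rfl e1, sum_sub_distrib, ← mul_sum, sum_comm]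
    have h5 : |∑ n ∈ Ioc u0 y2, fc S n / n| ≤ C * 4 ^ S.card * lam * (2 + Real.log y2) := by
      apply abel_div S u0 y2 hu1 hge (C * 4 ^ S.card * lam) (by positivity)
      intro n h1 h2
      have hn1 : (1 : ℝ) ≤ n := by exact_mod_cast (by omega : 1 ≤ n)
      refine (hFS S hS n hn1).trans ?_
      have h3 : x / (2 * K) ≤ (n : ℝ) := hua.trans (by exact_mod_cast h1)
      have h6 := hps n h3
      calc C * 4 ^ S.card * ps A n ≤ C * 4 ^ S.card * (lam * n) := by gcongr
        _ = _ := by ring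
    have h6 : ∀ j ∈ Icc 1 K, |∑ n ∈ Ioc u0 y2, (if ((j * n : ℕ) : ℝ) ≤ x then fc S n else 0)| ≤
        2 * (C * 4 ^ S.card * (lam * x)) := by
      intro j hj
      rw [mem_Icc] at hj
      have hj0 : (0 : ℝ) < j := by exact_mod_cast (by omega : 0 < j)
      have hj1 : (1 : ℝ) ≤ j := by exact_mod_cast hj.1
      rw [← sum_filter]
      have e2 : (Ioc u0 y2).filter (fun n => ((j * n : ℕ) : ℝ) ≤ x) = Ioc u0 (min y2 ⌊x / j⌋₊) := by
        ext n
        simp only [mem_filter, mem_Ioc, le_min_iff]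
        rw [Nat.le_floor_iff (by positivity), le_div_iff₀ hj0]
        push_cast
        rw [mul_comm (j : ℝ)]
        tauto
      rw [e2]
      rcases lt_or_ge (min y2 ⌊x / j⌋₊) u0 with h7 | h7
      · rw [Ioc_eq_empty (by omega), sum_empty, abs_zero]
        positivity
      · rw [sum_Ioc_fc S _ _ h7]
        set b := min y2 ⌊x / j⌋₊ with hb
        have hbx : (b : ℝ) ≤ x := by
          have h8 : (b : ℝ) ≤ ⌊x / j⌋₊ := by exact_mod_cast min_le_right _ _
          have h9 : ((⌊x / j⌋₊ : ℕ) : ℝ) ≤ x / j := Nat.floor_le (by positivity)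
          have h10 : x / j ≤ x := div_le_self hx0.le hj1
          linarith
        have hub : (u0 : ℝ) ≤ b := by exact_mod_cast h7
        have hu1r : (1 : ℝ) ≤ u0 := by exact_mod_cast hu1
        have hxx : x / (2 * K) ≤ x := div_le_self hx0.le (by linarith)
        have h11 : |FS S b| ≤ C * 4 ^ S.card * (lam * x) := by
          refine (hFS S hS b (hu1r.trans hub)).trans ?_
          have := ps_mono hA (hu1r.trans hub) hbx
          have h12 := hps x hxx
          have h13 : ps A b ≤ lam * x := this.trans h12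
          gcongr
        have h14 : |FS S u0| ≤ C * 4 ^ S.card * (lam * x) := by
          refine (hFS S hS u0 hu1r).trans ?_
          have := ps_mono hA hu1r (hub.trans hbx)
          have h12 := hps x hxx
          have h13 : ps A u0 ≤ lam * x := this.trans h12
          gcongr
        calc |FS S b - FS S u0| ≤ |FS S b| + |FS S u0| := abs_sub _ _
          _ ≤ _ := by linarith
    have h7 : |∑ j ∈ Icc 1 K, ∑ n ∈ Ioc u0 y2, (if ((j * n : ℕ) : ℝ) ≤ x then fc S n else 0)| ≤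
        K * (2 * (C * 4 ^ S.card * (lam * x))) := by
      refine (abs_sum_le_sum_abs _ _).trans ((sum_le_sum h6).trans ?_)
      rw [sum_const, Nat.card_Icc, nsmul_eq_mul]
      simp
    calc |x * ∑ n ∈ Ioc u0 y2, fc S n / n -
          ∑ j ∈ Icc 1 K, ∑ n ∈ Ioc u0 y2, (if ((j * n : ℕ) : ℝ) ≤ x then fc S n else 0)|
        ≤ |x * ∑ n ∈ Ioc u0 y2, fc S n / n| +
          |∑ j ∈ Icc 1 K, ∑ n ∈ Ioc u0 y2, (if ((j * n : ℕ) : ℝ) ≤ x then fc S n else 0)| := abs_sub _ _
      _ ≤ x * (C * 4 ^ S.card * lam * (2 + Real.log y2)) + K * (2 * (C * 4 ^ S.card * (lam * x))) := by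
          rw [abs_mul, abs_of_pos hx0]
          gcongr
      _ = C * 4 ^ S.card * (x * (2 + Real.log y2 + 2 * K)) * lam := by ring
      _ ≤ max C D * 4 ^ S.card * (x * (2 + Real.log y2 + 2 * K)) * lam := by gcongr
  refine (abs_add_le _ _).trans ((add_le_add hp1 hp2).trans (le_of_eq ?_))
  rw [hlam]
  ring

end Pool.Agent.T2h84.LD
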