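import Pool.Agent.T2h84.LD.Params

/-!
The lower bound for the individual modulus, and the final theorem.
-/

set_option autoImplicit false

open Finset

namespace Pool.Agent.T2h84.LD

open H343 (LL)
open Pool.Agent.W110.HV (ev_const ev_pow div_N markov floor_facts)

lemma fin_ineq (G N L η num den : ℝ) (hG : 0 ≤ G) (hN : 0 < N) (hL : 1 ≤ L) (hη : 0 < η) (hη1 : η ≤ 1 / 4)
    (h1 : (1 - 2 * η) * L * N ≤ num) (h2 : den ≤ N * (L + 2)) (h3 : num ^ 2 ≤ G * den) :
    (1 - 4 * η) * N * (L - 2) ≤ G := by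
  have h4 : 0 ≤ (1 - 2 * η) * L * N := by
    have : 0 ≤ 1 - 2 * η := by linarith
    positivity
  have h5 : ((1 - 2 * η) * L * N) ^ 2 ≤ G * (N * (L + 2)) :=
    (pow_le_pow_left₀ h4 h1 2).trans (h3.trans (mul_le_mul_of_nonneg_left h2 hG))
  have hNL : 0 < N * (L + 2) := by positivity
  by_contra hc
  rw [not_le] at hc
  have h6 : G * (N * (L + 2)) < (1 - 4 * η) * N * (L - 2) * (N * (L + 2)) := mul_lt_mul_of_pos_right hc hNL
  have h7 : (1 - 4 * η) * N * (L - 2) * (N * (L + 2)) ≤ ((1 - 2 * η) * L * N) ^ 2 := by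
    have e1 : (1 - 4 * η) * N * (L - 2) * (N * (L + 2)) = N ^ 2 * ((1 - 4 * η) * (L ^ 2 - 4)) := by ring
    have e2 : ((1 - 2 * η) * L * N) ^ 2 = N ^ 2 * ((1 - 2 * η) ^ 2 * L ^ 2) := by ring
    rw [e1, e2]
    apply mul_le_mul_of_nonneg_left _ (by positivity)
    nlinarith [sq_nonneg η, sq_nonneg L, mul_nonneg (sq_nonneg η) (sq_nonneg L)]
  linarith

/-- the mean is the best centre -/
lemma GG_mean (N k : ℕ) (hk : 1 ≤ k) (u : ℕ → ℝ) (y : ℝ) :
    GG N k u ((∑ a ∈ (range k).filter (fun a => Nat.Coprime a k), cls N k u a) / Nat.totient k) ≤ GG N k u y := by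
  classical
  set S := (range k).filter (fun a => Nat.Coprime a k) with hS
  have hcard : (S.card : ℝ) = Nat.totient k := by
    rw [Nat.totient_eq_card_coprime]
    congr 2
    ext a
    rw [hS, mem_filter, mem_filter, Nat.coprime_comm]
  have hφ0 : (0 : ℝ) < Nat.totient k := by exact_mod_cast Nat.totient_pos.2 hk
  set m := (∑ a ∈ S, cls N k u a) / Nat.totient k with hm
  have hsum : ∑ a ∈ S, cls N k u a = Nat.totient k * m := by
    rw [hm]
    field_simp
  unfold GG
  rw [← hS]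
  have e1 : ∀ z : ℝ, ∑ a ∈ S, (cls N k u a - z) ^ 2 = ∑ a ∈ S, cls N k u a ^ 2 - 2 * z * (Nat.totient k * m) +
      Nat.totient k * z ^ 2 := by
    intro z
    have : ∀ a ∈ S, (cls N k u a - z) ^ 2 = cls N k u a ^ 2 - 2 * z * cls N k u a + z ^ 2 := by
      intro a _
      ring
    rw [sum_congr rfl this, sum_add_distrib, sum_sub_distrib, ← mul_sum, hsum, sum_const, nsmul_eq_mul, hcard]
  rw [e1, e1]
  have : 0 ≤ (Nat.totient k : ℝ) * (y - m) ^ 2 := by positivity
  nlinarith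

/-- the lower bound for the individual modulus -/
theorem modlb (σ η : ℝ) (hσ : 0 < σ) (hσ1 : σ ≤ 1 / 16) (hη : 0 < η) (hη1 : η ≤ 1 / 4) :
    ∃ M1 : ℕ, ∀ M : ℕ, M1 ≤ M → ∀ θ : ℝ, 0 ≤ θ → θ ≤ 1 / 2 → ∀ K k N : ℕ, 1 ≤ K → K < k → k ≤ 2 * K →
    (M : ℝ) ^ (1 - θ) ≤ 2 * K → 2 * K ≤ 3 * M → M ≤ 3 * N → N ≤ M → ∀ y : ℝ,
    1 ≤ LL (Pp θ σ M) (Rr θ σ M) →
    |offR k N (fun n => ArithmeticFunction.vonMangoldt n) (TT (Pp θ σ M) (Rr θ σ M))| ≤ (M : ℝ) ^ (1 - σ / 20) →
    |offR k N (TT (Pp θ σ M) (Rr θ σ M)) (TT (Pp θ σ M) (Rr θ σ M))| ≤ (M : ℝ) ^ (1 - σ / 20) →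
    (1 - 4 * η) * N * (LL (Pp θ σ M) (Rr θ σ M) - 2) ≤
      GG N k (fun n => ArithmeticFunction.vonMangoldt n) y := by
  classical
  obtain ⟨n1, h1⟩ := params σ hσ hσ1
  obtain ⟨n2, h2⟩ := pw (σ / 20) (by positivity)
  obtain ⟨n3, h3⟩ := ev_const (100 / η) (σ / 20) (by positivity)
  obtain ⟨n4, h4⟩ := div_N (σ / 20) (by positivity)
  obtain ⟨n5, h5⟩ := ev_pow 1 1 (σ / 20) (by positivity)
  obtain ⟨n6, h6⟩ := norm_le σ hσ (by linarith)
  obtain ⟨n7, h7⟩ : ∃ n7 : ℕ, ∀ N : ℕ, n7 ≤ N → (1 - η / 2) * N ≤ Chebyshev.theta N := by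
    have h := (Pool.Agent.Helper923.PNT.theta_div_tendsto.comp
      tendsto_natCast_atTop_atTop).eventually (eventually_ge_nhds (show 1 - η / 2 < 1 by linarith))
    obtain ⟨n7, hn7⟩ := Filter.eventually_atTop.1 h
    refine ⟨max n7 1, fun N hN => ?_⟩
    have h8 := hn7 N (le_trans (le_max_left _ _) hN)
    have hN0 : (0 : ℝ) < N := by exact_mod_cast (le_trans (le_max_right _ _) hN : 1 ≤ N)
    simp only [Function.comp_apply] at h8
    rwa [le_div_iff₀ hN0] at h8
  refine ⟨max (max (max n1 n2) (max n3 n4)) (max (max n5 (3 * n6)) (max (3 * n7) 3)),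
    fun M hM θ hθ hθ1 K k N hK hKk hk2K hMK hKM hMN hNM y hL hO1 hO2 => ?_⟩
  have hMn1 : n1 ≤ M := le_trans (le_trans (le_max_left _ _) (le_trans (le_max_left _ _) (le_max_left _ _))) hM
  have hMn2 : n2 ≤ M := le_trans (le_trans (le_max_right _ _) (le_trans (le_max_left _ _) (le_max_left _ _))) hM
  have hMn3 : n3 ≤ M := le_trans (le_trans (le_max_left _ _) (le_trans (le_max_right _ _) (le_max_left _ _))) hM
  have hMn4 : n4 ≤ M := le_trans (le_trans (le_max_right _ _) (le_trans (le_max_right _ _) (le_max_left _ _))) hM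
  have hMn5 : n5 ≤ M := le_trans (le_trans (le_max_left _ _) (le_trans (le_max_left _ _) (le_max_right _ _))) hM
  have hMn6 : 3 * n6 ≤ M := le_trans (le_trans (le_max_right _ _) (le_trans (le_max_left _ _) (le_max_right _ _))) hM
  have hMn7 : 3 * n7 ≤ M := le_trans (le_trans (le_max_left _ _) (le_trans (le_max_right _ _) (le_max_right _ _))) hM
  have hM3 : 3 ≤ M := le_trans (le_trans (le_max_right _ _) (le_trans (le_max_right _ _) (le_max_right _ _))) hM
  obtain ⟨a1, a2, a3, a4, a5, a6, a7⟩ := h1 M hMn1 θ hθ hθ1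
  set P := Pp θ σ M with hP
  set R := Rr θ σ M with hR
  set L := LL P R with hLdef
  obtain ⟨b1, b2⟩ := h2 M hMn2 P R a7
  have hMr : (3 : ℝ) ≤ M := by exact_mod_cast hM3
  have hM1 : (1 : ℝ) ≤ M := by linarith
  have hM0 : (0 : ℝ) < M := by linarith
  have hK0 : (0 : ℝ) < K := by exact_mod_cast hK
  have hk1 : 1 ≤ k := by omega
  have hk0 : (0 : ℝ) < k := by exact_mod_cast hk1
  have hKkr : (K : ℝ) ≤ k := by exact_mod_cast hKk.le
  have hN1 : 1 ≤ N := by omega
  have hNr : (1 : ℝ) ≤ N := by exact_mod_cast hN1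
  have hN0 : (0 : ℝ) < N := by linarith
  have hMNr : (M : ℝ) ≤ 3 * N := by exact_mod_cast hMN
  have hNMr : (N : ℝ) ≤ M := by exact_mod_cast hNM
  have hR0 : (0 : ℝ) < R := by exact_mod_cast (by omega : 0 < R)
  set δ := σ / 20 with hδ
  have hδ0 : 0 < δ := by positivity
  set W : ℝ := (M : ℝ) ^ δ with hW
  have hW0 : 0 < W := by positivity
  have hC := h3 M hMn3
  set T : ℝ := (M : ℝ) ^ (1 - δ) with hT
  have hT0 : 0 < T := by positivity
  -- the basic smallness
  have hTs : T ≤ η / 100 * M := by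
    have e1 : T * W = M := by
      rw [hT, hW, ← Real.rpow_add hM0]
      rw [show 1 - δ + δ = 1 by ring, Real.rpow_one]
    have e2 : T * (100 / η) ≤ M := by
      rw [← e1]
      exact mul_le_mul_of_nonneg_left hC hT0.le
    rw [mul_div_assoc', div_le_iff₀ hη] at e2
    linarith
  have hlog : Real.log M ≤ W := by
    have := h5 M hMn5
    rwa [one_mul, pow_one] at this
  have hlogN : Real.log N ≤ W := (Real.log_le_log hN0 hNMr).trans hlog
  have hlogN0 : 0 ≤ Real.log N := Real.log_nonneg hNr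
  have hb2 : ∀ n : ℕ, 1 ≤ n → n ≤ N → |TT P R n| ≤ W := fun n hn hnN => b2 n hn (by omega)
  have hWT : ∀ a : ℝ, a ≤ 1 - δ → (M : ℝ) ^ a ≤ T := fun a ha => mpow hM1 ha
  have hσδ : σ = 20 * δ := by rw [hδ]; ring
  -- diagonal
  have hD := diag_lower P R N hN1 a2 (by
    have g1 : (R : ℝ) ≤ N := by
      have g2 : (R : ℝ) ≤ T := a3.trans (hWT _ (by rw [hσδ]; linarith))
      have g3 : η / 100 * M ≤ M / 3 := by nlinarith
      linarith
    exact_mod_cast g1) W hb2 hW0.le
  have hthN := h7 N (by omega)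
  have hRT : (R : ℝ) ≤ T := a3.trans (hWT _ (by rw [hσδ]; linarith))
  have hWRT : W * R ≤ T := by
    calc W * R ≤ W * (M : ℝ) ^ (1 - θ - 2 * σ) := mul_le_mul_of_nonneg_left a3 hW0.le
      _ = (M : ℝ) ^ (δ + (1 - θ - 2 * σ)) := by rw [hW, ← Real.rpow_add hM0]
      _ ≤ T := hWT _ (by rw [hσδ]; linarith)
  have hWs : W * (Real.sqrt N * Real.log N) ≤ T := by
    calc W * (Real.sqrt N * Real.log N) ≤ W * ((M : ℝ) ^ (1 / 2 : ℝ) * W) := by
          have : Real.sqrt N ≤ (M : ℝ) ^ (1 / 2 : ℝ) := by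
            rw [Real.sqrt_eq_rpow]
            exact Real.rpow_le_rpow hN0.le hNMr (by norm_num)
          gcongr
      _ = (M : ℝ) ^ (δ + (1 / 2 + δ)) := by
          rw [hW, ← Real.rpow_add hM0, ← Real.rpow_add hM0]
      _ ≤ T := hWT _ (by linarith)
  have hD2 : L * ((1 - η / 2) * N - 2 * T) - 4 * T ≤
      ∑ n ∈ Icc 1 N, ArithmeticFunction.vonMangoldt n * TT P R n := by
    refine le_trans ?_ hD
    have e1 : L * ((1 - η / 2) * N - 2 * T) ≤ L * (Chebyshev.theta N - 2 * R) := by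
      apply mul_le_mul_of_nonneg_left _ (by linarith)
      linarith
    have e2 : W * (2 * Real.sqrt N * Real.log N + 2 * R) = 2 * (W * (Real.sqrt N * Real.log N)) + 2 * (W * R) := by
      ring
    rw [e2]
    linarith
  -- nonreduced classes
  have hkM : k ≤ 3 * M := by omega
  have htau := h4 M hMn4 k hk1 hkM
  have hMk : (M : ℝ) / k ≤ 2 * (M : ℝ) ^ θ := by
    rw [div_le_iff₀ hk0]
    calc (M : ℝ) = (M : ℝ) ^ θ * (M : ℝ) ^ (1 - θ) := by
          rw [← Real.rpow_add hM0]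
          rw [show θ + (1 - θ) = 1 by ring, Real.rpow_one]
      _ ≤ (M : ℝ) ^ θ * (2 * K) := by gcongr
      _ ≤ (M : ℝ) ^ θ * (2 * k) := by gcongr
      _ = _ := by ring
  have hMθ1 : 1 ≤ (M : ℝ) ^ θ := Real.one_le_rpow hM1 hθ
  have hE := nonred N k hN1 hk1 (TT P R) W hb2 hW0.le
  have hE2 : (k.divisors.card : ℝ) * Real.log N * (((N : ℝ) / k + 1) * W) ≤ 3 * T := by
    have e1 : (N : ℝ) / k ≤ M / k := div_le_div_of_nonneg_right hNMr hk0.le
    calc (k.divisors.card : ℝ) * Real.log N * (((N : ℝ) / k + 1) * W) ≤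
          W * W * ((3 * (M : ℝ) ^ θ) * W) := by
          have : (N : ℝ) / k + 1 ≤ 3 * (M : ℝ) ^ θ := by linarith
          gcongr
      _ = 3 * (M : ℝ) ^ (δ + δ + (θ + δ)) := by
          rw [Real.rpow_add hM0, Real.rpow_add hM0, Real.rpow_add hM0]
          ring
      _ ≤ 3 * T := by
          apply mul_le_mul_of_nonneg_left _ (by norm_num)
          apply hWT
          linarith
  -- centering
  have hCc := cent P R N k a1 hk1 W b1 hb2 hW0.le
  have hφ0 : (0 : ℝ) < Nat.totient k := by exact_mod_cast Nat.totient_pos.2 hk1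
  set x : ℝ := ∑ a ∈ (range k).filter (fun a => Nat.Coprime a k),
    cls N k (fun n => ArithmeticFunction.vonMangoldt n) a with hx
  have hx0 : 0 ≤ x := sum_nonneg fun _ _ => sum_nonneg fun _ _ => ArithmeticFunction.vonMangoldt_nonneg
  have hxM : x ≤ 2 * M := by
    have g1 : x ≤ Chebyshev.psi N := by
      calc x ≤ ∑ a ∈ range k, cls N k (fun n => ArithmeticFunction.vonMangoldt n) a :=
            sum_le_sum_of_subset_of_nonneg (filter_subset _ _) fun _ _ _ =>
              sum_nonneg fun _ _ => ArithmeticFunction.vonMangoldt_nonneg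
        _ = ∑ n ∈ Icc 1 N, (ArithmeticFunction.vonMangoldt n : ℝ) := by
            unfold cls
            exact sum_fiberwise_of_maps_to (fun n _ => mem_range.2 (Nat.mod_lt n hk1)) _
        _ ≤ Chebyshev.psi N := by
            rw [Chebyshev.psi_eq_sum_Icc, Nat.floor_natCast]
            exact sum_le_sum_of_subset_of_nonneg (Icc_subset_Icc_left (by omega)) fun _ _ _ =>
              ArithmeticFunction.vonMangoldt_nonneg
    have g2 := Chebyshev.psi_sub_theta_le (x := (N : ℝ)) hNr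
    have g3 := Chebyshev.theta_le_log4_mul_x (x := (N : ℝ)) hN0.le
    have g4 : Real.log 4 ≤ 7 / 5 := by
      have h1 : Real.log 4 = 2 * Real.log 2 := by
        rw [show (4 : ℝ) = 2 ^ 2 by norm_num, Real.log_pow]; push_cast; ring
      have := Real.log_two_lt_d9
      linarith
    have g5 : Real.sqrt N * Real.log N ≤ T := by
      refine le_trans ?_ hWs
      apply le_mul_of_one_le_left (by positivity)
      exact Real.one_le_rpow hM1 hδ0.le
    have g6 : Real.log 4 * N ≤ 7 / 5 * N := mul_le_mul_of_nonneg_right g4 hN0.le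
    have g7 : η / 100 * M ≤ 1 / 100 * M := by
      apply mul_le_mul_of_nonneg_right _ hM0.le
      linarith
    have g8 : 2 * Real.sqrt N * Real.log N = 2 * (Real.sqrt N * Real.log N) := by ring
    rw [g8] at g2
    linarith
  have hy0 : 0 ≤ x / Nat.totient k := by positivity
  have hy : x / Nat.totient k ≤ 4 * (M : ℝ) ^ θ * W := by
    have g1 := Pool.Agent.H398R2.BV.one_div_totient_le k hk1
    have g2 := Pool.Agent.H398R2.BV.two_pow_omega_le k (by omega)
    have g3 : (2 : ℝ) ^ k.primeFactors.card ≤ W := le_trans (by exact_mod_cast g2) htau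
    calc x / Nat.totient k = x * (1 / (Nat.totient k : ℝ)) := by ring
      _ ≤ (2 * M) * (W / k) := by
          apply mul_le_mul hxM _ (by positivity) (by positivity)
          exact g1.trans (div_le_div_of_nonneg_right g3 hk0.le)
      _ = 2 * (M / k) * W := by ring
      _ ≤ 2 * (2 * (M : ℝ) ^ θ) * W := by gcongr
      _ = _ := by ring
  have hNPR : (N : ℝ) / P + R ≤ 3 * (M : ℝ) ^ (1 - θ - σ) := by
    have : (N : ℝ) / P ≤ M / P := div_le_div_of_nonneg_right hNMr (Nat.cast_nonneg _)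
    linarith
  have hC2 : |x / Nat.totient k * ∑ m ∈ (Icc 1 N).filter (fun m => Nat.Coprime m k), TT P R m| ≤ 12 * T := by
    rw [abs_mul, abs_of_nonneg hy0]
    calc x / Nat.totient k * |∑ m ∈ (Icc 1 N).filter (fun m => Nat.Coprime m k), TT P R m|
        ≤ (4 * (M : ℝ) ^ θ * W) * (W * (W * (3 * (M : ℝ) ^ (1 - θ - σ)))) := by
          apply mul_le_mul hy _ (abs_nonneg _) (by positivity)
          refine hCc.trans ?_
          gcongr
      _ = 12 * (M : ℝ) ^ (θ + δ + (δ + (δ + (1 - θ - σ)))) := by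
          rw [Real.rpow_add hM0, Real.rpow_add hM0, Real.rpow_add hM0, Real.rpow_add hM0]
          ring
      _ ≤ 12 * T := by
          apply mul_le_mul_of_nonneg_left _ (by norm_num)
          apply hWT
          rw [hσδ]
          linarith
  -- conclusion
  have hcore := core N k hk1 (fun n => ArithmeticFunction.vonMangoldt n) (TT P R) (x / Nat.totient k)
  have hnorm := h6 N (by omega) P R (by
    refine a3.trans ?_
    have g1 : (M : ℝ) ^ (1 - θ - 2 * σ) ≤ (M : ℝ) ^ (1 - 2 * σ) := mpow hM1 (by linarith)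
    refine g1.trans ?_
    have g2 : (3 : ℝ) ≤ (M : ℝ) ^ σ := by
      have g3 : (3 : ℝ) ≤ 100 / η := by
        rw [le_div_iff₀ hη]
        linarith
      exact g3.trans (hC.trans (mpow hM1 (by rw [hδ]; linarith)))
    have g4 : (M : ℝ) ^ (1 - 2 * σ) * 3 ≤ (M : ℝ) ^ (1 - σ) := by
      calc (M : ℝ) ^ (1 - 2 * σ) * 3 ≤ (M : ℝ) ^ (1 - 2 * σ) * (M : ℝ) ^ σ := by gcongr
        _ = _ := by rw [← Real.rpow_add hM0]; congr 1; ring
    have g5 : (M : ℝ) ^ (1 - σ) ≤ 3 * (N : ℝ) ^ (1 - σ) := by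
      calc (M : ℝ) ^ (1 - σ) ≤ (3 * (N : ℝ)) ^ (1 - σ) := Real.rpow_le_rpow hM0.le hMNr (by linarith)
        _ = (3 : ℝ) ^ (1 - σ) * (N : ℝ) ^ (1 - σ) := Real.mul_rpow (by norm_num) hN0.le
        _ ≤ 3 * (N : ℝ) ^ (1 - σ) := by
            apply mul_le_mul_of_nonneg_right _ (by positivity)
            calc (3 : ℝ) ^ (1 - σ) ≤ (3 : ℝ) ^ (1 : ℝ) :=
                  Real.rpow_le_rpow_of_exponent_le (by norm_num) (by linarith)
              _ = 3 := Real.rpow_one _
    linarith)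
  have hGG0 : 0 ≤ GG N k (fun n => ArithmeticFunction.vonMangoldt n) (x / Nat.totient k) :=
    sum_nonneg fun _ _ => by positivity
  refine le_trans ?_ (GG_mean N k hk1 (fun n => ArithmeticFunction.vonMangoldt n) y)
  refine fin_ineq _ N L η _ _ hGG0 hN0 hL hη hη1 ?_ ?_ hcore
  · have e1 := (abs_le.1 hO1).1
    have e2 := (abs_le.1 (hE.trans hE2)).2
    have e3 := (abs_le.1 hC2).2
    have e4 : η / 100 * M ≤ η / 100 * (3 * N) := mul_le_mul_of_nonneg_left hMNr (by positivity)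
    have e5 : T ≤ 3 * η / 100 * N := by linarith
    have e6 : L * (2 * T) ≤ L * (2 * (3 * η / 100 * N)) := mul_le_mul_of_nonneg_left (by linarith) (by linarith)
    have e7 : 3 * η / 100 * N ≤ L * (3 * η / 100 * N) := le_mul_of_one_le_left (by positivity) hL
    have e8 : (1 - 2 * η) * L * N ≤ L * ((1 - η / 2) * N) - L * (2 * (3 * η / 100 * N)) - 20 * (L * (3 * η / 100 * N)) := by
      have : 0 ≤ L * N * η := by positivity
      nlinarith
    have e9 : L * ((1 - η / 2) * N - 2 * T) = L * ((1 - η / 2) * N) - L * (2 * T) := by ring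
    rw [e9] at hD2
    linarith
  · have e2 := (abs_le.1 hO2).2
    have e4 : η / 100 * M ≤ N := by nlinarith
    linarith

end Pool.Agent.T2h84.LD
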