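import Pool.Agent.T2h84.LD.Psi
import Pool.Agent.TH327.Thin.Base

/-!
Sums of the Moebius function over integers coprime to a finite set of primes.
-/

set_option autoImplicit false

open Finset

namespace Pool.Agent.T2h84.LD

/-- the Moebius function with real values -/
noncomputable def mu (n : ℕ) : ℝ := ((ArithmeticFunction.moebius n : ℤ) : ℝ)

lemma abs_mu_le (n : ℕ) : |mu n| ≤ 1 := by
  unfold mu
  exact_mod_cast ArithmeticFunction.abs_moebius_le_one

/-- `∑ μ(n)` over `n ≤ u` not divisible by the elements of `S` -/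
noncomputable def mcS (S : Finset ℕ) (u : ℝ) : ℝ :=
  ∑ n ∈ (Icc 1 ⌊u⌋₊).filter (fun n => ∀ p ∈ S, ¬ p ∣ n), mu n

lemma mcS_small (S : Finset ℕ) {u : ℝ} (hu : u < 1) : mcS S u = 0 := by
  unfold mcS
  have : ⌊u⌋₊ = 0 := Nat.floor_eq_zero.2 hu
  rw [this]
  simp

lemma mcS_step (S : Finset ℕ) (hS : ∀ q ∈ S, q.Prime) {p : ℕ} (hp : p.Prime) (hpS : p ∉ S) (u : ℝ) :
    mcS S u = mcS (insert p S) u - mcS (insert p S) (u / p) := by
  classical
  unfold mcS
  rw [Nat.floor_div_natCast]
  set N := ⌊u⌋₊ with hN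
  have e1 : (Icc 1 N).filter (fun n => ∀ q ∈ S, ¬ q ∣ n) =
      (Icc 1 N).filter (fun n => ∀ q ∈ insert p S, ¬ q ∣ n) ∪
      (Icc 1 N).filter (fun n => (∀ q ∈ S, ¬ q ∣ n) ∧ p ∣ n) := by
    ext n
    simp only [mem_filter, mem_union, mem_insert, forall_eq_or_imp]
    tauto
  have e2 : Disjoint ((Icc 1 N).filter (fun n => ∀ q ∈ insert p S, ¬ q ∣ n))
      ((Icc 1 N).filter (fun n => (∀ q ∈ S, ¬ q ∣ n) ∧ p ∣ n)) := by
    rw [disjoint_left]
    intro n h1 h2
    rw [mem_filter] at h1 h2
    exact h1.2 p (mem_insert_self p S) h2.2.2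
  rw [e1, sum_union e2, sub_eq_add_neg]
  congr 1
  have e3 : (Icc 1 N).filter (fun n => (∀ q ∈ S, ¬ q ∣ n) ∧ p ∣ n) =
      ((Icc 1 (N / p)).filter (fun n => ∀ q ∈ S, ¬ q ∣ n)).image (fun m => p * m) := by
    ext n
    simp only [mem_filter, mem_image, mem_Icc]
    constructor
    · rintro ⟨⟨h1, h2⟩, h3, m, rfl⟩
      refine ⟨m, ⟨⟨?_, ?_⟩, ?_⟩, rfl⟩
      · rcases Nat.eq_zero_or_pos m with h | h
        · subst h; omega
        · exact h
      · rw [Nat.le_div_iff_mul_le hp.pos, mul_comm]; exact h2
      · intro q hq hd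
        exact h3 q hq (hd.mul_left p)
    · rintro ⟨m, ⟨⟨h1, h2⟩, h3⟩, rfl⟩
      rw [Nat.le_div_iff_mul_le hp.pos, mul_comm] at h2
      refine ⟨⟨?_, h2⟩, ?_, dvd_mul_right p m⟩
      · exact Nat.mul_pos hp.pos h1
      · intro q hq hd
        rcases (hS q hq).dvd_mul.1 hd with h | h
        · have := (Nat.prime_dvd_prime_iff_eq (hS q hq) hp).1 h
          exact hpS (this ▸ hq)
        · exact h3 q hq h
  rw [e3, sum_image (fun a _ b _ hab => Nat.eq_of_mul_eq_mul_left hp.pos hab), ← sum_neg_distrib]
  have e4 : ∀ m : ℕ, mu (p * m) = if p ∣ m then 0 else - mu m := by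
    intro m
    unfold mu
    split_ifs with h
    · rw [ArithmeticFunction.moebius_eq_zero_of_not_squarefree]
      · simp
      · intro hsq
        obtain ⟨k, rfl⟩ := h
        have h2 : p * p ∣ p * (p * k) := ⟨k, by ring⟩
        exact hp.one_lt.ne' (Nat.isUnit_iff.1 (hsq p h2))
    · rw [ArithmeticFunction.isMultiplicative_moebius.map_mul_of_coprime
        ((Nat.Prime.coprime_iff_not_dvd hp).2 h), ArithmeticFunction.moebius_apply_prime hp]
      push_cast
      ring
  simp_rw [e4]
  rw [sum_ite, sum_const_zero, zero_add, filter_filter]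
  apply sum_congr _ (fun _ _ => rfl)
  ext n
  simp only [mem_filter, mem_insert, forall_eq_or_imp]
  tauto

/-- the bound for the sums over the integers coprime to the primes of `S` -/
lemma mcS_le {A : ℕ} (hA : 1 ≤ A) {C : ℝ} (hC : 0 ≤ C)
    (h0 : ∀ u : ℝ, 1 ≤ u → |mcS ∅ u| ≤ C * ps A u) (S : Finset ℕ) (hS : ∀ q ∈ S, q.Prime) :
    ∀ u : ℝ, 1 ≤ u → |mcS S u| ≤ C * 4 ^ S.card * ps A u := by
  classical
  induction S using Finset.induction_on with
  | empty =>
    intro u hu
    simpa using h0 u hu
  | insert p S hpS ih =>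
    have hp : p.Prime := hS p (mem_insert_self p S)
    have hS' : ∀ q ∈ S, q.Prime := fun q hq => hS q (mem_insert_of_mem hq)
    have ih' := ih hS'
    rw [card_insert_of_notMem hpS]
    -- induction on the integer part
    have key : ∀ N : ℕ, ∀ u : ℝ, 1 ≤ u → ⌊u⌋₊ ≤ N →
        |mcS (insert p S) u| ≤ C * 4 ^ (S.card + 1) * ps A u := by
      intro N
      induction N with
      | zero =>
        intro u hu hN
        have : 1 ≤ ⌊u⌋₊ := Nat.le_floor (by simpa using hu)
        omega
      | succ N ihN =>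
        intro u hu hN
        have hstep := mcS_step S hS' hp hpS u
        have h1 := ih' u hu
        have hps := (ps_pos (A := A) hu).le
        have h4 : (0 : ℝ) ≤ C * 4 ^ S.card := by positivity
        have hp2 : (2 : ℝ) ≤ p := by exact_mod_cast hp.two_le
        have hp0 : (0 : ℝ) < p := by linarith
        have h2 : |mcS (insert p S) (u / p)| ≤ C * 4 ^ (S.card + 1) * (ps A u * (3 / 4)) := by
          by_cases h : u / p < 1
          · rw [mcS_small _ h, abs_zero]
            positivity
          · push Not at h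
            have hfl : ⌊u / p⌋₊ ≤ N := by
              rw [Nat.floor_div_natCast]
              have h5 : 1 ≤ ⌊u⌋₊ := Nat.le_floor (by simpa using hu)
              have h6 : ⌊u⌋₊ / p < ⌊u⌋₊ := Nat.div_lt_self (by omega) hp.one_lt
              omega
            refine (ihN (u / p) h hfl).trans ?_
            apply mul_le_mul_of_nonneg_left _ (by positivity)
            have hpu : (p : ℝ) ≤ u := by
              rw [le_div_iff₀ hp0] at h; linarith
            refine (ps_div hA (by linarith) hpu).trans ?_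
            rw [div_le_iff₀ (by positivity)]
            have hs : 4 / 3 ≤ √(p : ℝ) := by
              apply Real.le_sqrt_of_sq_le
              linarith
            nlinarith
        have h3 : mcS (insert p S) u = mcS S u + mcS (insert p S) (u / p) := by linarith
        rw [h3]
        refine (abs_add_le _ _).trans ?_
        have h5 : C * 4 ^ (S.card + 1) * ps A u = 4 * (C * 4 ^ S.card * ps A u) := by ring
        have h6 : C * 4 ^ (S.card + 1) * (ps A u * (3 / 4)) = 3 * (C * 4 ^ S.card * ps A u) := by ring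
        rw [h6] at h2
        rw [h5]
        linarith
    intro u hu
    exact key ⌊u⌋₊ u hu le_rfl

/-- the prime number theorem for the Moebius function -/
lemma mcS_base {A : ℕ} (hA : 1 ≤ A) : ∃ C : ℝ, 0 < C ∧ ∀ u : ℝ, 1 ≤ u → |mcS ∅ u| ≤ C * ps A u := by
  obtain ⟨C₀, hC0, h⟩ := Pool.Agent.TH327.Thin.base
  have hA0 : (1 : ℝ) ≤ A := by exact_mod_cast hA
  set c : ℝ := C₀ A + 1 with hc
  have hc0 : 0 < c := by have := hC0 A; linarith
  refine ⟨(c + 1) * 4 ^ A, by positivity, fun u hu => ?_⟩
  have hl0 : 0 ≤ Real.log u := Real.log_nonneg hu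
  have hu0 : 0 < u := by linarith
  have hden : 0 < 1 + Real.log u / (2 * A) := by positivity
  rcases lt_or_ge u 2 with hu2 | hu2
  · -- small `u`
    have h1 : ⌊u⌋₊ = 1 := by
      rw [Nat.floor_eq_iff (by linarith)]
      norm_num
      exact ⟨hu, hu2⟩
    have h2 : |mcS ∅ u| ≤ 1 := by
      unfold mcS
      rw [h1]
      simp [mu]
    refine h2.trans ?_
    have hl2 : Real.log u ≤ 1 := by
      have := Real.log_le_log hu0 hu2.le
      have := Real.log_two_lt_d9
      linarith
    have h3 : 1 + Real.log u / (2 * A) ≤ 2 := by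
      have : Real.log u / (2 * (A : ℝ)) ≤ 1 := by
        rw [div_le_one (by positivity)]
        linarith
      linarith
    have h4 : (1 + Real.log u / (2 * A)) ^ A ≤ 4 ^ A := by
      calc (1 + Real.log u / (2 * A)) ^ A ≤ 2 ^ A := pow_le_pow_left₀ hden.le h3 A
        _ ≤ 4 ^ A := pow_le_pow_left₀ (by norm_num) (by norm_num) A
    unfold ps
    rw [mul_div_assoc', le_div_iff₀ (by positivity), one_mul]
    have h5 : (0 : ℝ) < 4 ^ A := by positivity
    calc (1 + Real.log u / (2 * A)) ^ A ≤ 4 ^ A := h4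
      _ = 1 * 4 ^ A * 1 := by ring
      _ ≤ (c + 1) * 4 ^ A * u := by
          gcongr
          linarith
  · set N := ⌊u⌋₊ with hN
    have hN2 : 2 ≤ N := Nat.le_floor (by simpa using hu2)
    have hN2r : (2 : ℝ) ≤ N := by exact_mod_cast hN2
    have hNu : (N : ℝ) ≤ u := Nat.floor_le hu0.le
    have huN : u < N + 1 := Nat.lt_floor_add_one u
    have h1 := h A N hN2 N le_rfl 0
    have h2 : ‖∑ n ∈ Icc 1 N, ((ArithmeticFunction.moebius n : ℤ) : ℂ) *
        fourier n (0 : UnitAddCircle)‖ = |mcS ∅ u| := by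
      have e : ∑ n ∈ Icc 1 N, ((ArithmeticFunction.moebius n : ℤ) : ℂ) *
          fourier n (0 : UnitAddCircle) = ((mcS ∅ u : ℝ) : ℂ) := by
        unfold mcS
        rw [filter_true_of_mem (by simp), Complex.ofReal_sum]
        apply sum_congr rfl
        intro n _
        have : fourier (n : ℤ) (0 : UnitAddCircle) = 1 := fourier_eval_zero _
        rw [this]
        unfold mu
        push_cast
        ring
      rw [e, Complex.norm_real, Real.norm_eq_abs]
    rw [h2] at h1
    refine h1.trans ?_
    have hlN : 0 < Real.log N := Real.log_pos (by linarith)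
    -- `log u ≤ 2 log N`
    have hlu : Real.log u ≤ 2 * Real.log N := by
      have : Real.log u ≤ Real.log ((N : ℝ) ^ 2) := by
        apply Real.log_le_log hu0
        nlinarith
      rw [Real.log_pow] at this
      push_cast at this
      exact this
    have hl2 : 0.6931 ≤ Real.log N := by
      have h3 : Real.log 2 ≤ Real.log N := Real.log_le_log (by norm_num) hN2r
      have := Real.log_two_gt_d9
      linarith
    have h3 : 1 + Real.log u / (2 * A) ≤ 4 * Real.log N := by
      have : Real.log u / (2 * (A : ℝ)) ≤ Real.log N := by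
        rw [div_le_iff₀ (by positivity)]
        nlinarith
      linarith
    have h4 : (1 + Real.log u / (2 * A)) ^ A ≤ 4 ^ A * Real.log N ^ A := by
      rw [← mul_pow]
      exact pow_le_pow_left₀ hden.le h3 A
    unfold ps
    rw [mul_div_assoc', mul_div_assoc', div_le_div_iff₀ (by positivity) (by positivity)]
    have h6 : 0 ≤ C₀ A * N := mul_nonneg (hC0 A) (by positivity)
    calc C₀ A * N * (1 + Real.log u / (2 * A)) ^ A ≤ C₀ A * N * (4 ^ A * Real.log N ^ A) :=
          mul_le_mul_of_nonneg_left h4 h6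
      _ = (C₀ A * N) * (4 ^ A * Real.log N ^ A) := rfl
      _ ≤ ((c + 1) * u) * (4 ^ A * Real.log N ^ A) := by
          apply mul_le_mul_of_nonneg_right _ (by positivity)
          apply mul_le_mul _ hNu (by positivity) (by positivity)
          linarith
      _ = (c + 1) * 4 ^ A * u * Real.log N ^ A := by ring

end Pool.Agent.T2h84.LD
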