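import Pool.Agent.T2h84.LD.Coef
import Pool.Agent.T2h84.LD.JJ

/-!
The error term in the norm of the test function: rearrangement.
-/

set_option autoImplicit false

open Finset

namespace Pool.Agent.T2h84.LD

open H343 (LL)

/-- inner sum -/
noncomputable def Jn (P R d : ℕ) (x : ℝ) (g m : ℕ) : ℝ :=
  ∑ n ∈ Ioc (P / (g * m)) (R / (g * m)), fc (d * m).primeFactors n * Int.fract (x / n)

lemma sum_Mod_mult (P R e : ℕ) (he : 1 ≤ e) :
    ∑ q ∈ (H343.Mod P R).filter (fun q => e ∣ q), 1 / (Nat.totient q : ℝ) =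
      ∑ m ∈ H343.Mod 0 R, if e * m ∈ H343.Mod P R then 1 / (Nat.totient (e * m) : ℝ) else 0 := by
  classical
  rw [← sum_filter]
  have e1 : (H343.Mod P R).filter (fun q => e ∣ q) =
      ((H343.Mod 0 R).filter (fun m => e * m ∈ H343.Mod P R)).image (fun m => e * m) := by
    ext q
    simp only [mem_filter, mem_image]
    constructor
    · rintro ⟨h, m, rfl⟩
      have h' := mem_Mod.1 h
      have hm0 : 0 < m := by
        rcases Nat.eq_zero_or_pos m with h0 | h0
        · subst h0; simp at h'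
        · exact h0
      refine ⟨m, ⟨?_, h⟩, rfl⟩
      rw [mem_Mod]
      exact ⟨⟨hm0, (Nat.le_mul_of_pos_left m he).trans h'.1.2⟩, h'.2.of_mul_right⟩
    · rintro ⟨m, ⟨_, h⟩, rfl⟩
      exact ⟨h, dvd_mul_right e m⟩
  rw [e1, sum_image (fun a _ b _ hab => Nat.eq_of_mul_eq_mul_left he hab)]

lemma sum_by_gcd (R d : ℕ) (hd : 1 ≤ d) (G : ℕ → ℝ) :
    ∑ e ∈ Icc 1 R, G e = ∑ g ∈ d.divisors, ∑ n ∈ Icc 1 R,
      if g * n ≤ R ∧ Nat.gcd d (g * n) = g then G (g * n) else 0 := by
  classical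
  rw [← sum_fiberwise_of_maps_to (s := Icc 1 R) (t := d.divisors) (g := fun e => Nat.gcd d e)]
  · apply sum_congr rfl
    intro g hg
    have hg1 : 1 ≤ g := Nat.pos_of_mem_divisors hg
    rw [← sum_filter]
    have e1 : (Icc 1 R).filter (fun e => Nat.gcd d e = g) =
        ((Icc 1 R).filter (fun n => g * n ≤ R ∧ Nat.gcd d (g * n) = g)).image (fun n => g * n) := by
      ext e
      simp only [mem_filter, mem_image, mem_Icc]
      constructor
      · rintro ⟨⟨h1, h2⟩, h3⟩
        obtain ⟨n, hn⟩ : g ∣ e := h3 ▸ Nat.gcd_dvd_right d e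
        subst hn
        have hn0 : 0 < n := by
          rcases Nat.eq_zero_or_pos n with h0 | h0
          · subst h0; simp at h1
          · exact h0
        exact ⟨n, ⟨⟨hn0, (Nat.le_mul_of_pos_left n hg1).trans h2⟩, h2, h3⟩, rfl⟩
      · rintro ⟨n, ⟨⟨h1, _⟩, h2, h3⟩, rfl⟩
        exact ⟨⟨Nat.mul_pos hg1 h1, h2⟩, h3⟩
    rw [e1, sum_image (fun a _ b _ hab => Nat.eq_of_mul_eq_mul_left hg1 hab)]
  · intro e _
    exact Nat.mem_divisors.2 ⟨Nat.gcd_dvd_left d e, by omega⟩

lemma fc_primeFactors (Q n : ℕ) (hQ : 1 ≤ Q) :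
    fc Q.primeFactors n = if n.Coprime Q then fm n else 0 := by
  have h : (∀ p ∈ Q.primeFactors, ¬ p ∣ n) ↔ n.Coprime Q := by
    constructor
    · intro h
      rw [Nat.coprime_iff_gcd_eq_one]
      by_contra hg
      obtain ⟨p, hp, hpd⟩ := Nat.exists_prime_and_dvd hg
      exact h p (Nat.mem_primeFactors.2 ⟨hp, hpd.trans (Nat.gcd_dvd_right _ _), by omega⟩)
        (hpd.trans (Nat.gcd_dvd_left _ _))
    · intro h p hp hd
      have hpp := Nat.prime_of_mem_primeFactors hp
      exact Nat.not_coprime_of_dvd_of_dvd hpp.one_lt hd (Nat.dvd_of_mem_primeFactors hp) h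
  unfold fc
  by_cases hc : n.Coprime Q
  · rw [if_pos (h.2 hc), if_pos hc]
  · rw [if_neg (fun h' => hc (h.1 h')), if_neg hc]

/-- termwise identity -/
lemma term_eq (P R d N g m n : ℕ) (hd : Squarefree d) (hg : g ∣ d) (hm : 1 ≤ m) (hn : 1 ≤ n) :
    (if g * n ≤ R ∧ Nat.gcd d (g * n) = g then
      (if g * n * m ∈ H343.Mod P R then ((g * n : ℕ) : ℝ) * mu (g * n) * (1 / (Nat.totient (g * n * m) : ℝ)) *
        Int.fract ((N : ℝ) / (Nat.lcm d (g * n) : ℝ)) else 0) else 0) =
    if Squarefree (g * m) ∧ P / (g * m) < n ∧ n ≤ R / (g * m) then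
      ((g : ℝ) * mu g / Nat.totient g) * (1 / (Nat.totient m : ℝ)) *
        (fc (d * m).primeFactors n * Int.fract ((N : ℝ) / d / n)) else 0 := by
  have hd1 : 1 ≤ d := Nat.pos_of_ne_zero hd.ne_zero
  have hg1 : 1 ≤ g := Nat.pos_of_dvd_of_pos hg hd1
  have hgm : 0 < g * m := Nat.mul_pos hg1 hm
  rw [fc_primeFactors (d * m) n (Nat.mul_pos hd1 hm)]
  have hrange1 : P / (g * m) < n ↔ P < g * n * m := by
    rw [Nat.div_lt_iff_lt_mul hgm]
    have : n * (g * m) = g * n * m := by ring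
    rw [this]
  have hrange2 : n ≤ R / (g * m) ↔ g * n * m ≤ R := by
    rw [Nat.le_div_iff_mul_le hgm]
    have : n * (g * m) = g * n * m := by ring
    rw [this]
  simp only [hrange1, hrange2]
  by_cases hS : Squarefree n ∧ n.Coprime (d * m) ∧ Squarefree (g * m)
  · obtain ⟨h1, h2, h3⟩ := hS
    have hcd : n.Coprime d := Nat.Coprime.coprime_mul_right_right h2
    have hcm : n.Coprime m := Nat.Coprime.coprime_mul_left_right h2
    have hcg : n.Coprime g := hcd.coprime_dvd_right hg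
    have hsq : Squarefree (g * n * m) := by
      have e : g * n * m = n * (g * m) := by ring
      rw [e, Nat.squarefree_mul (Nat.Coprime.mul_right hcg hcm)]
      exact ⟨h1, h3⟩
    have hgcd : Nat.gcd d (g * n) = g := by
      rw [Nat.Coprime.gcd_mul_right_cancel_right g hcd]
      exact Nat.gcd_eq_right hg
    have hlcm : Nat.lcm d (g * n) = d * n := by
      have h4 := Nat.gcd_mul_lcm d (g * n)
      rw [hgcd] at h4
      have h5 : g * Nat.lcm d (g * n) = g * (d * n) := by rw [h4]; ring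
      exact Nat.eq_of_mul_eq_mul_left hg1 h5
    by_cases hr : P < g * n * m ∧ g * n * m ≤ R
    · have hgn : g * n ≤ R := (Nat.le_mul_of_pos_right (g * n) hm).trans hr.2
      rw [if_pos ⟨hgn, hgcd⟩, if_pos (mem_Mod.2 ⟨hr, hsq⟩), if_pos ⟨h3, hr.1, hr.2⟩, if_pos h2, hlcm]
      have hcgm : g.Coprime m := Nat.coprime_of_squarefree_mul h3
      rw [mu_mul hcg.symm, Nat.totient_mul (Nat.Coprime.mul_left hcgm hcm), Nat.totient_mul hcg.symm]
      unfold fm
      have t1 : (Nat.totient g : ℝ) ≠ 0 := by have := Nat.totient_pos.2 hg1; positivity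
      have t2 : (Nat.totient n : ℝ) ≠ 0 := by have := Nat.totient_pos.2 hn; positivity
      have t3 : (Nat.totient m : ℝ) ≠ 0 := by have := Nat.totient_pos.2 hm; positivity
      push_cast
      rw [div_div]
      field_simp
    · have hR' : ¬ (Squarefree (g * m) ∧ P < g * n * m ∧ g * n * m ≤ R) := fun h => hr ⟨h.2.1, h.2.2⟩
      have hR2 : ¬ (g * n * m ∈ H343.Mod P R) := fun h => hr (mem_Mod.1 h).1
      simp only [hR', hR2, if_false, ite_self]
  · -- both sides vanish
    refine Eq.trans (b := 0) ?_ (Eq.symm ?_)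
    swap
    · split_ifs with h1 h2
      · have h3 : ¬ Squarefree n := fun h => hS ⟨h, h2, h1.1⟩
        unfold fm
        rw [mu_zero h3]
        ring
      · ring
      · rfl
    split_ifs with h5 h6
    · exfalso
      have h7 := (mem_Mod.1 h6).2
      apply hS
      have e : g * n * m = n * (g * m) := by ring
      rw [e] at h7
      have hsn : Squarefree n := h7.of_mul_left
      have hsgm : Squarefree (g * m) := h7.of_mul_right
      have hc : n.Coprime (g * m) := Nat.coprime_of_squarefree_mul h7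
      have hcg : n.Coprime g := Nat.Coprime.coprime_mul_right_right hc
      have hcm : n.Coprime m := Nat.Coprime.coprime_mul_left_right hc
      refine ⟨hsn, Nat.Coprime.mul_right ?_ hcm, hsgm⟩
      -- coprimality with d
      rw [Nat.coprime_iff_gcd_eq_one]
      by_contra hg'
      obtain ⟨p, hp, hpd⟩ := Nat.exists_prime_and_dvd hg'
      have hpn : p ∣ n := hpd.trans (Nat.gcd_dvd_left _ _)
      have hpD : p ∣ d := hpd.trans (Nat.gcd_dvd_right _ _)
      have hpg : p.Coprime g := hcg.coprime_dvd_left hpn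
      have h8 : g * p ∣ d := Nat.Coprime.mul_dvd_of_dvd_of_dvd hpg.symm hg hpD
      have h9 : g * p ∣ Nat.gcd d (g * n) := Nat.dvd_gcd h8 (Nat.mul_dvd_mul_left g hpn)
      rw [h5.2] at h9
      have h10 := Nat.le_of_dvd hg1 h9
      have := hp.one_lt
      nlinarith
    · rfl
    · rfl

/-- the rearranged error term -/
lemma EE_eq (P R N d : ℕ) (hd : Squarefree d) :
    ∑ e ∈ Icc 1 R, cf P R e * Int.fract ((N : ℝ) / (Nat.lcm d e : ℝ)) =
      ∑ g ∈ d.divisors, ∑ m ∈ H343.Mod 0 R, if Squarefree (g * m) then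
        ((g : ℝ) * mu g / Nat.totient g) * (1 / (Nat.totient m : ℝ)) * Jn P R d ((N : ℝ) / d) g m else 0 := by
  classical
  have hd1 : 1 ≤ d := Nat.pos_of_ne_zero hd.ne_zero
  have e1 : ∀ e ∈ Icc 1 R, cf P R e * Int.fract ((N : ℝ) / (Nat.lcm d e : ℝ)) =
      ∑ m ∈ H343.Mod 0 R, if e * m ∈ H343.Mod P R then
        (e : ℝ) * mu e * (1 / (Nat.totient (e * m) : ℝ)) * Int.fract ((N : ℝ) / (Nat.lcm d e : ℝ)) else 0 := by
    intro e he
    rw [mem_Icc] at he
    unfold cf
    rw [sum_Mod_mult P R e he.1, mul_sum, sum_mul]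
    apply sum_congr rfl
    intro m _
    split_ifs <;> ring
  rw [sum_congr rfl e1, sum_comm]
  have e2 : ∀ m ∈ H343.Mod 0 R, (∑ e ∈ Icc 1 R, if e * m ∈ H343.Mod P R then
        (e : ℝ) * mu e * (1 / (Nat.totient (e * m) : ℝ)) * Int.fract ((N : ℝ) / (Nat.lcm d e : ℝ)) else 0) =
      ∑ g ∈ d.divisors, if Squarefree (g * m) then
        ((g : ℝ) * mu g / Nat.totient g) * (1 / (Nat.totient m : ℝ)) * Jn P R d ((N : ℝ) / d) g m else 0 := by
    intro m hm
    have hm1 : 1 ≤ m := by have := (mem_Mod.1 hm).1.1; omega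
    rw [sum_by_gcd R d hd1]
    apply sum_congr rfl
    intro g hg
    have hgd := Nat.dvd_of_mem_divisors hg
    have hg1 : 1 ≤ g := Nat.pos_of_mem_divisors hg
    have hgm : 0 < g * m := Nat.mul_pos hg1 hm1
    have e3 : ∀ n ∈ Icc 1 R, (if g * n ≤ R ∧ Nat.gcd d (g * n) = g then
      (if g * n * m ∈ H343.Mod P R then ((g * n : ℕ) : ℝ) * mu (g * n) * (1 / (Nat.totient (g * n * m) : ℝ)) *
        Int.fract ((N : ℝ) / (Nat.lcm d (g * n) : ℝ)) else 0) else 0) =
      if Squarefree (g * m) ∧ P / (g * m) < n ∧ n ≤ R / (g * m) then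
      ((g : ℝ) * mu g / Nat.totient g) * (1 / (Nat.totient m : ℝ)) *
        (fc (d * m).primeFactors n * Int.fract ((N : ℝ) / d / n)) else 0 := by
      intro n hn
      rw [mem_Icc] at hn
      exact term_eq P R d N g m n hd hgd hm1 hn.1
    rw [sum_congr rfl e3]
    by_cases hsq : Squarefree (g * m)
    · rw [if_pos hsq]
      unfold Jn
      rw [mul_sum, ← sum_filter]
      apply sum_congr _ (fun _ _ => rfl)
      ext n
      simp only [mem_filter, mem_Icc, mem_Ioc]
      constructor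
      · rintro ⟨_, _, h1, h2⟩
        exact ⟨h1, h2⟩
      · rintro ⟨h1, h2⟩
        refine ⟨⟨Nat.lt_of_le_of_lt (Nat.zero_le _) h1, h2.trans (Nat.div_le_self R (g * m))⟩, hsq, h1, h2⟩
    · rw [if_neg hsq]
      apply sum_eq_zero
      intro n _
      rw [if_neg (fun h => hsq h.1)]
  rw [sum_congr rfl e2, sum_comm]

end Pool.Agent.T2h84.LD
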