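import Pool.Agent.T2h84.LD.Norm1

/-!
The norm of the test function, for `R` up to `N ^ (1 - ε)`.
-/

set_option autoImplicit false

open Finset

namespace Pool.Agent.T2h84.LD

open H343 (LL)
open Pool.Agent.H378R2.LSBV (wt sum_wt)

/-- the error term for fixed `d` -/
lemma EE_bound {A : ℕ} (hA : 1 ≤ A) : ∃ C : ℝ, 0 < C ∧ ∀ (P R N d K : ℕ), 1 ≤ d → Squarefree d →
    1 ≤ K → (2 * K : ℝ) ≤ (N : ℝ) / d → R ≤ N →
    |∑ e ∈ Icc 1 R, cf P R e * Int.fract ((N : ℝ) / (Nat.lcm d e : ℝ))| ≤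
      (N : ℝ) / d * (d.divisors.card : ℝ) ^ 4 * (1 + Real.log N) ^ 8 * C *
        (1 / K + (2 + Real.log N + 2 * K) / (1 + Real.log ((N : ℝ) / d / (2 * K)) / (2 * A)) ^ A) := by
  classical
  obtain ⟨C, hC, hJ⟩ := JJ_le hA
  refine ⟨C, hC, fun P R N d K hd1 hd hK hKx hRN => ?_⟩
  have hK0 : (0 : ℝ) < K := by exact_mod_cast hK
  have hd0 : (0 : ℝ) < d := by exact_mod_cast hd1
  set x : ℝ := (N : ℝ) / d with hx
  have hK1 : (1 : ℝ) ≤ K := by exact_mod_cast hK
  have hx0 : 0 < x := by linarith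
  have hlN : 0 ≤ Real.log N := Real.log_natCast_nonneg N
  have hx2K : 1 ≤ x / (2 * K) := by rw [le_div_iff₀ (by positivity)]; linarith
  have hl0 : 0 ≤ Real.log (x / (2 * K)) := Real.log_nonneg hx2K
  set lam : ℝ := (1 + Real.log (x / (2 * K)) / (2 * A)) ^ A with hlam
  have hlam0 : 0 < lam := by positivity
  set E : ℝ := 1 / K + (2 + Real.log N + 2 * K) / lam with hE
  have hE0 : 0 < E := by positivity
  rw [EE_eq P R N d hd]
  refine (abs_sum_le_sum_abs _ _).trans ?_
  have hτ1 : (1 : ℝ) ≤ d.divisors.card := by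
    have : 0 < d.divisors.card := card_pos.2 ⟨1, Nat.one_mem_divisors.2 hd.ne_zero⟩
    exact_mod_cast this
  have h1 : ∀ g ∈ d.divisors, |∑ m ∈ H343.Mod 0 R, if Squarefree (g * m) then
        ((g : ℝ) * mu g / Nat.totient g) * (1 / (Nat.totient m : ℝ)) * Jn P R d x g m else 0| ≤
      (d.divisors.card : ℝ) ^ 3 * (C * x * E) * (1 + Real.log N) ^ 8 := by
    intro g hg
    have hgd := Nat.dvd_of_mem_divisors hg
    have hg1 : 1 ≤ g := Nat.pos_of_mem_divisors hg
    have hratio : (g : ℝ) / Nat.totient g ≤ d.divisors.card := by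
      have h3 := Pool.Agent.H398R2.BV.one_div_totient_le g hg1
      have h4 : (2 : ℝ) ^ g.primeFactors.card ≤ g.divisors.card := by
        exact_mod_cast Pool.Agent.H398R2.BV.two_pow_omega_le g (by omega)
      have h5 : (g.divisors.card : ℝ) ≤ d.divisors.card := by
        exact_mod_cast card_le_card (Nat.divisors_subset_of_dvd (by omega) hgd)
      have hg0 : (0 : ℝ) < g := by exact_mod_cast hg1
      calc (g : ℝ) / Nat.totient g = g * (1 / Nat.totient g) := by ring
        _ ≤ g * (2 ^ g.primeFactors.card / g) := by gcongr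
        _ = 2 ^ g.primeFactors.card := by field_simp
        _ ≤ _ := h4.trans h5
    refine (abs_sum_le_sum_abs _ _).trans ?_
    have h2 : ∀ m ∈ H343.Mod 0 R, |if Squarefree (g * m) then
        ((g : ℝ) * mu g / Nat.totient g) * (1 / (Nat.totient m : ℝ)) * Jn P R d x g m else 0| ≤
        (d.divisors.card : ℝ) ^ 3 * (C * x * E) * wt 2 m := by
      intro m hm
      have hm' := mem_Mod.1 hm
      have hm1 : 1 ≤ m := by omega
      have hτm : (1 : ℝ) ≤ m.divisors.card := by
        have : 0 < m.divisors.card := card_pos.2 ⟨1, Nat.one_mem_divisors.2 (by omega)⟩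
        exact_mod_cast this
      have hpr : ∀ q ∈ (d * m).primeFactors, q.Prime := fun q hq => Nat.prime_of_mem_primeFactors hq
      have hJ1 := hJ (d * m).primeFactors hpr x K (P / (g * m)) (R / (g * m)) hK hKx
      have hcard : (4 : ℝ) ^ (d * m).primeFactors.card ≤ (d.divisors.card : ℝ) ^ 2 * (m.divisors.card : ℝ) ^ 2 := by
        have e1 : (d * m).primeFactors.card ≤ d.primeFactors.card + m.primeFactors.card := by
          rw [Nat.primeFactors_mul (by omega) (by omega)]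
          exact card_union_le _ _
        have e2 : (2 : ℝ) ^ d.primeFactors.card ≤ d.divisors.card := by
          exact_mod_cast Pool.Agent.H398R2.BV.two_pow_omega_le d (by omega)
        have e3 : (2 : ℝ) ^ m.primeFactors.card ≤ m.divisors.card := by
          exact_mod_cast Pool.Agent.H398R2.BV.two_pow_omega_le m (by omega)
        calc (4 : ℝ) ^ (d * m).primeFactors.card ≤ 4 ^ (d.primeFactors.card + m.primeFactors.card) :=
              pow_le_pow_right₀ (by norm_num) e1
          _ = (2 ^ d.primeFactors.card) ^ 2 * (2 ^ m.primeFactors.card) ^ 2 := by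
              rw [show (4 : ℝ) = 2 ^ 2 by norm_num, ← pow_mul, ← pow_mul, ← pow_mul, ← pow_add]
              congr 1; ring
          _ ≤ _ := by gcongr
      have hlog : Real.log ((R / (g * m) : ℕ) : ℝ) ≤ Real.log N := by
        rcases Nat.eq_zero_or_pos (R / (g * m)) with h0 | h0
        · rw [h0]; simp [hlN]
        · apply Real.log_le_log (by exact_mod_cast h0)
          exact_mod_cast (Nat.div_le_self R (g * m)).trans hRN
      have hlog0 : 0 ≤ Real.log ((R / (g * m) : ℕ) : ℝ) := Real.log_natCast_nonneg _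
      have hJ2 : |Jn P R d x g m| ≤ C * x * E * ((d.divisors.card : ℝ) ^ 2 * (m.divisors.card : ℝ) ^ 2) := by
        unfold Jn
        refine hJ1.trans ?_
        have hone : (1 : ℝ) ≤ (d.divisors.card : ℝ) ^ 2 * (m.divisors.card : ℝ) ^ 2 :=
          one_le_mul_of_one_le_of_one_le (one_le_pow₀ hτ1) (one_le_pow₀ hτm)
        rw [← hlam]
        calc C * (x / K) + C * 4 ^ (d * m).primeFactors.card *
              (x * (2 + Real.log ((R / (g * m) : ℕ) : ℝ) + 2 * K)) / lam
            ≤ C * (x / K) * ((d.divisors.card : ℝ) ^ 2 * (m.divisors.card : ℝ) ^ 2) +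
              C * ((d.divisors.card : ℝ) ^ 2 * (m.divisors.card : ℝ) ^ 2) *
              (x * (2 + Real.log N + 2 * K)) / lam := by
              apply add_le_add
              · exact le_mul_of_one_le_right (by positivity) hone
              · gcongr
          _ = _ := by rw [hE]; ring
      have hφm : (0 : ℝ) < Nat.totient m := by exact_mod_cast Nat.totient_pos.2 hm1
      split_ifs with hsq
      · rw [abs_mul, abs_mul]
        have h6 : |(g : ℝ) * mu g / Nat.totient g| ≤ d.divisors.card := by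
          have e : (g : ℝ) * mu g / Nat.totient g = mu g * ((g : ℝ) / Nat.totient g) := by ring
          rw [e, abs_mul, abs_of_nonneg (show (0 : ℝ) ≤ (g : ℝ) / Nat.totient g by positivity)]
          have h7 := abs_mu_le g
          have h8 : (0 : ℝ) ≤ (g : ℝ) / Nat.totient g := by positivity
          nlinarith
        rw [abs_of_pos (show (0 : ℝ) < 1 / Nat.totient m by positivity)]
        calc |(g : ℝ) * mu g / Nat.totient g| * (1 / Nat.totient m) * |Jn P R d x g m|
            ≤ d.divisors.card * (1 / Nat.totient m) *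
              (C * x * E * ((d.divisors.card : ℝ) ^ 2 * (m.divisors.card : ℝ) ^ 2)) := by gcongr
          _ = _ := by unfold wt; ring
      · rw [abs_zero]
        have := Pool.Agent.H378R2.LSBV.wt_nonneg 2 m
        positivity
    refine (sum_le_sum h2).trans ?_
    rw [← mul_sum]
    apply mul_le_mul_of_nonneg_left _ (by positivity)
    have h3 : ∑ m ∈ H343.Mod 0 R, wt 2 m ≤ ∑ m ∈ Icc 1 R, wt 2 m := by
      apply sum_le_sum_of_subset_of_nonneg
      · intro m hm
        have := mem_Mod.1 hm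
        rw [mem_Icc]; omega
      · intro m _ _
        exact Pool.Agent.H378R2.LSBV.wt_nonneg 2 m
    refine h3.trans ((sum_wt 2 R).trans ?_)
    have h4 : Real.log R ≤ Real.log N := by
      rcases Nat.eq_zero_or_pos R with h0 | h0
      · rw [h0]; simp [hlN]
      · exact Real.log_le_log (by exact_mod_cast h0) (by exact_mod_cast hRN)
    have h5 : 0 ≤ Real.log R := Real.log_natCast_nonneg R
    norm_num
    gcongr
  refine (sum_le_sum h1).trans ?_
  rw [sum_const, nsmul_eq_mul]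
  apply le_of_eq
  ring

/-- the norm of the test function -/
theorem norm_le (ε : ℝ) (hε : 0 < ε) (hε1 : ε ≤ 1) : ∃ N0 : ℕ, ∀ N : ℕ, N0 ≤ N → ∀ P R : ℕ,
    (R : ℝ) ≤ (N : ℝ) ^ (1 - ε) → ∑ n ∈ Icc 1 N, TT P R n ^ 2 ≤ N * LL P R + N := by
  classical
  obtain ⟨C, hC, hE⟩ := EE_bound (A := 86) (by norm_num)
  obtain ⟨C2, hC2, hLL⟩ := H343.LL_upper
  -- largeness
  set c : ℝ := (344 / ε) ^ 86 with hc
  have hc0 : 0 < c := by positivity
  set D : ℝ := C * C2 * 2 ^ 41 * (1 + 8 * c) with hD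
  have hD0 : 0 < D := by positivity
  have hlim1 : ∀ᶠ N : ℕ in Filter.atTop, max 4 D ≤ Real.log N :=
    (Real.tendsto_log_atTop.comp tendsto_natCast_atTop_atTop).eventually_ge_atTop _
  have hlim2 : ∀ᶠ N : ℕ in Filter.atTop, 4 * Real.log N ^ 42 ≤ (N : ℝ) ^ (ε / 2) := by
    have h1 : (fun x : ℝ => Real.log x ^ (42 : ℝ)) =o[Filter.atTop] fun x => x ^ (ε / 2) :=
      isLittleO_log_rpow_rpow_atTop 42 (by positivity)
    have h2 := (h1.comp_tendsto tendsto_natCast_atTop_atTop).bound (show (0 : ℝ) < 1 / 4 by norm_num)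
    filter_upwards [h2, Filter.eventually_ge_atTop 1] with N hN hN1
    have hl : 0 ≤ Real.log (N : ℝ) := Real.log_natCast_nonneg N
    simp only [Function.comp_apply] at hN
    rw [Real.norm_of_nonneg (by positivity), Real.norm_of_nonneg (by positivity)] at hN
    have e : Real.log (N : ℝ) ^ (42 : ℝ) = Real.log (N : ℝ) ^ 42 := by
      rw [show (42 : ℝ) = ((42 : ℕ) : ℝ) by norm_num, Real.rpow_natCast]
    rw [e] at hN
    linarith
  obtain ⟨N1, hN1⟩ := Filter.eventually_atTop.1 (hlim1.and hlim2)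
  refine ⟨max N1 2, fun N hN P R hR => ?_⟩
  obtain ⟨hl1, hl2⟩ := hN1 N ((le_max_left _ _).trans hN)
  have hN2 : 2 ≤ N := (le_max_right _ _).trans hN
  have hN2r : (2 : ℝ) ≤ N := by exact_mod_cast hN2
  have hN0 : (0 : ℝ) < N := by linarith
  set L : ℝ := Real.log N with hL
  have hL4 : 4 ≤ L := (le_max_left _ _).trans hl1
  have hLD : D ≤ L := (le_max_right _ _).trans hl1
  have hL0 : 0 < L := by linarith
  rw [norm_eq P R N]
  -- the error term
  suffices h : |∑ d ∈ Icc 1 R, cf P R d * ∑ e ∈ Icc 1 R, cf P R e * Int.fract ((N : ℝ) / (Nat.lcm d e : ℝ))| ≤ N by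
    have := (abs_le.1 h).1
    linarith
  set K : ℕ := ⌈L ^ 42⌉₊ with hK
  have hL42 : (1 : ℝ) ≤ L ^ 42 := one_le_pow₀ (by linarith)
  have hKge : L ^ 42 ≤ K := Nat.le_ceil _
  have hKle : (K : ℝ) ≤ 2 * L ^ 42 := by
    have := Nat.ceil_lt_add_one (by positivity : 0 ≤ L ^ 42)
    linarith
  have hK1 : 1 ≤ K := by
    have : (1 : ℝ) ≤ K := hL42.trans hKge
    exact_mod_cast this
  have hK0 : (0 : ℝ) < K := by exact_mod_cast hK1
  have hRN : R ≤ N := by
    have h1 : (N : ℝ) ^ (1 - ε) ≤ N := by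
      calc (N : ℝ) ^ (1 - ε) ≤ (N : ℝ) ^ (1 : ℝ) :=
            Real.rpow_le_rpow_of_exponent_le (by linarith) (by linarith)
        _ = N := Real.rpow_one _
    exact_mod_cast hR.trans h1
  have hlR : Real.log R ≤ L := by
    rcases Nat.eq_zero_or_pos R with h0 | h0
    · rw [h0]; simp [hL0.le]
    · exact Real.log_le_log (by exact_mod_cast h0) (by exact_mod_cast hRN)
  have hlR0 : 0 ≤ Real.log R := Real.log_natCast_nonneg R
  -- bound of the inner sums
  have hx : ∀ d : ℕ, 1 ≤ d → d ≤ R → (N : ℝ) ^ ε ≤ (N : ℝ) / d := by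
    intro d hd hdR
    have hd0 : (0 : ℝ) < d := by exact_mod_cast hd
    rw [le_div_iff₀ hd0]
    have h1 : (d : ℝ) ≤ (N : ℝ) ^ (1 - ε) := le_trans (by exact_mod_cast hdR) hR
    calc (N : ℝ) ^ ε * d ≤ (N : ℝ) ^ ε * (N : ℝ) ^ (1 - ε) := by gcongr
      _ = N := by
          rw [← Real.rpow_add hN0]
          norm_num
  have hNε : (N : ℝ) ^ ε = (N : ℝ) ^ (ε / 2) * (N : ℝ) ^ (ε / 2) := by
    rw [← Real.rpow_add hN0]
    congr 1; ring
  have h2K : (2 * K : ℝ) ≤ (N : ℝ) ^ (ε / 2) := by linarith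
  have hNe1 : 1 ≤ (N : ℝ) ^ (ε / 2) := by linarith [one_le_pow₀ (n := 42) (show 1 ≤ L by linarith)]
  have hEd : ∀ d ∈ Icc 1 R, Squarefree d →
      1 / (K : ℝ) + (2 + L + 2 * K) / (1 + Real.log ((N : ℝ) / d / (2 * K)) / (2 * ((86 : ℕ) : ℝ))) ^ 86 ≤
        (1 + 8 * c) / L ^ 42 := by
    intro d hd _
    rw [mem_Icc] at hd
    have h1 := hx d hd.1 hd.2
    have h2 : (N : ℝ) ^ (ε / 2) ≤ (N : ℝ) / d / (2 * K) := by
      rw [le_div_iff₀ (by positivity)]
      calc (N : ℝ) ^ (ε / 2) * (2 * K) ≤ (N : ℝ) ^ (ε / 2) * (N : ℝ) ^ (ε / 2) := by gcongr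
        _ = (N : ℝ) ^ ε := hNε.symm
        _ ≤ _ := h1
    have h3 : ε / 2 * L ≤ Real.log ((N : ℝ) / d / (2 * K)) := by
      rw [hL, ← Real.log_rpow hN0]
      exact Real.log_le_log (by positivity) h2
    have h4 : ε * L / 344 ≤ 1 + Real.log ((N : ℝ) / d / (2 * K)) / (2 * ((86 : ℕ) : ℝ)) := by
      have h5 : ε / 2 * L / (2 * ((86 : ℕ) : ℝ)) ≤ Real.log ((N : ℝ) / d / (2 * K)) / (2 * ((86 : ℕ) : ℝ)) := by
        gcongr
      have h6 : ε / 2 * L / (2 * ((86 : ℕ) : ℝ)) = ε * L / 344 := by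
        push_cast; ring
      linarith
    have h5 : (ε * L / 344) ^ 86 ≤ (1 + Real.log ((N : ℝ) / d / (2 * K)) / (2 * ((86 : ℕ) : ℝ))) ^ 86 :=
      pow_le_pow_left₀ (by positivity) h4 86
    have h6 : (ε * L / 344) ^ 86 = L ^ 86 / c := by
      rw [hc]
      have : ε * L / 344 = L / (344 / ε) := by field_simp
      rw [this, div_pow]
    rw [h6] at h5
    have h7 : 0 < L ^ 86 / c := by positivity
    have h8 : 2 + L + 2 * K ≤ 8 * L ^ 42 := by
      have : L ≤ L ^ 42 := by
        calc L = L ^ 1 := (pow_one L).symm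
          _ ≤ L ^ 42 := pow_le_pow_right₀ (by linarith) (by norm_num)
      linarith
    calc 1 / (K : ℝ) + (2 + L + 2 * K) / (1 + Real.log ((N : ℝ) / d / (2 * K)) / (2 * ((86 : ℕ) : ℝ))) ^ 86
        ≤ 1 / L ^ 42 + (8 * L ^ 42) / (L ^ 86 / c) := by gcongr
      _ = 1 / L ^ 42 + 8 * c / L ^ 44 := by
          field_simp
      _ ≤ 1 / L ^ 42 + 8 * c / L ^ 42 := by
          have : L ^ 42 ≤ L ^ 44 := pow_le_pow_right₀ (by linarith) (by norm_num)
          gcongr
      _ = (1 + 8 * c) / L ^ 42 := by ring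
  set B : ℝ := (1 + 8 * c) / L ^ 42 with hB
  have hB0 : 0 < B := by positivity
  refine (abs_sum_le_sum_abs _ _).trans ?_
  have hterm : ∀ d ∈ Icc 1 R, |cf P R d * ∑ e ∈ Icc 1 R, cf P R e * Int.fract ((N : ℝ) / (Nat.lcm d e : ℝ))| ≤
      N * (C2 * (1 + L)) * (1 + L) ^ 8 * C * B * wt 4 d := by
    intro d hd
    have hd' := mem_Icc.1 hd
    have hd0 : (0 : ℝ) < d := by exact_mod_cast hd'.1
    by_cases hsq : Squarefree d
    swap
    · rw [cf_zero hsq, zero_mul, abs_zero]
      have := Pool.Agent.H378R2.LSBV.wt_nonneg 4 d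
      positivity
    have hcf := abs_cf_le P R d hd'.1
    have hLLR : LL 0 R ≤ C2 * (1 + L) := (hLL 0 R).trans (by gcongr)
    have hKx : (2 * K : ℝ) ≤ (N : ℝ) / d := by
      refine h2K.trans (le_trans ?_ (hx d hd'.1 hd'.2))
      rw [hNε]
      nlinarith
    have h1 := hE P R N d K hd'.1 hsq hK1 hKx hRN
    have h2 := hEd d hd hsq
    rw [← hL] at h1
    have hφ : (0 : ℝ) < Nat.totient d := by exact_mod_cast Nat.totient_pos.2 hd'.1
    have hLL0 : 0 ≤ LL 0 R := sum_nonneg fun _ _ => by positivity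
    rw [abs_mul]
    calc |cf P R d| * |∑ e ∈ Icc 1 R, cf P R e * Int.fract ((N : ℝ) / (Nat.lcm d e : ℝ))|
        ≤ ((d : ℝ) / Nat.totient d * (C2 * (1 + L))) *
          ((N : ℝ) / d * (d.divisors.card : ℝ) ^ 4 * (1 + L) ^ 8 * C * B) := by
          apply mul_le_mul (hcf.trans (by gcongr)) (h1.trans _) (abs_nonneg _) (by positivity)
          gcongr
      _ = _ := by
          unfold wt
          field_simp
  refine (sum_le_sum hterm).trans ?_
  rw [← mul_sum]
  have hw : ∑ d ∈ Icc 1 R, wt 4 d ≤ (1 + L) ^ 32 := by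
    refine (sum_wt 4 R).trans ?_
    norm_num
    gcongr
  have h2L : 1 + L ≤ 2 * L := by linarith
  calc N * (C2 * (1 + L)) * (1 + L) ^ 8 * C * B * ∑ d ∈ Icc 1 R, wt 4 d
      ≤ N * (C2 * (1 + L)) * (1 + L) ^ 8 * C * B * (1 + L) ^ 32 := by gcongr
    _ = N * C2 * C * B * (1 + L) ^ 41 := by ring
    _ ≤ N * C2 * C * B * (2 * L) ^ 41 := by gcongr
    _ = N * (D / L) := by
        rw [hB, hD]
        field_simp
    _ ≤ N * 1 := by
        gcongr
        rw [div_le_one hL0]
        exact hLD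
    _ = N := mul_one _

end Pool.Agent.T2h84.LD
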