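import Pool.Agent.T2h84.LD.Cent

/-!
Off-diagonal correlations, uniformly in the length of the interval.
-/

set_option autoImplicit false

open Finset

namespace Pool.Agent.T2h84.LD

open Pool.Agent.W110.HV
open Pool.Agent.Helper112 (ee ls_ee_add ls_conj_ee ls_norm_ee)

/-- bilinearity -/
lemma off_bilin (k : ℕ) (A B : ℤ) (s : Finset ℕ) (a b : ℕ → ℂ) (F G : ℕ → ℤ → ℂ) :
    off k A B (fun n => ∑ j ∈ s, a j * F j n) (fun m => ∑ l ∈ s, b l * G l m) =
      ∑ j ∈ s, ∑ l ∈ s, a j * (starRingEnd ℂ) (b l) * off k A B (F j) (G l) := by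
  unfold off
  have e1 : ∀ n ∈ Icc A B, ∀ m ∈ Icc A B,
      (if n ≠ m ∧ (k : ℤ) ∣ n - m then (∑ j ∈ s, a j * F j n) * (starRingEnd ℂ) (∑ l ∈ s, b l * G l m) else 0) =
      ∑ j ∈ s, ∑ l ∈ s, a j * (starRingEnd ℂ) (b l) *
        (if n ≠ m ∧ (k : ℤ) ∣ n - m then F j n * (starRingEnd ℂ) (G l m) else 0) := by
    intro n _ m _
    split_ifs
    · rw [map_sum, sum_mul_sum]
      apply sum_congr rfl; intro j _
      apply sum_congr rfl; intro l _
      rw [map_mul]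
      ring
    · simp
  rw [sum_congr rfl fun n hn => sum_congr rfl (e1 n hn)]
  calc ∑ n ∈ Icc A B, ∑ m ∈ Icc A B, ∑ j ∈ s, ∑ l ∈ s, a j * (starRingEnd ℂ) (b l) *
        (if n ≠ m ∧ (k : ℤ) ∣ n - m then F j n * (starRingEnd ℂ) (G l m) else 0)
      = ∑ n ∈ Icc A B, ∑ j ∈ s, ∑ m ∈ Icc A B, ∑ l ∈ s, a j * (starRingEnd ℂ) (b l) *
        (if n ≠ m ∧ (k : ℤ) ∣ n - m then F j n * (starRingEnd ℂ) (G l m) else 0) :=
        sum_congr rfl fun n _ => sum_comm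
    _ = ∑ j ∈ s, ∑ n ∈ Icc A B, ∑ m ∈ Icc A B, ∑ l ∈ s, a j * (starRingEnd ℂ) (b l) *
        (if n ≠ m ∧ (k : ℤ) ∣ n - m then F j n * (starRingEnd ℂ) (G l m) else 0) := sum_comm
    _ = ∑ j ∈ s, ∑ n ∈ Icc A B, ∑ l ∈ s, ∑ m ∈ Icc A B, a j * (starRingEnd ℂ) (b l) *
        (if n ≠ m ∧ (k : ℤ) ∣ n - m then F j n * (starRingEnd ℂ) (G l m) else 0) :=
        sum_congr rfl fun j _ => sum_congr rfl fun n _ => sum_comm
    _ = ∑ j ∈ s, ∑ l ∈ s, ∑ n ∈ Icc A B, ∑ m ∈ Icc A B, a j * (starRingEnd ℂ) (b l) *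
        (if n ≠ m ∧ (k : ℤ) ∣ n - m then F j n * (starRingEnd ℂ) (G l m) else 0) :=
        sum_congr rfl fun j _ => sum_comm
    _ = _ := by
        apply sum_congr rfl; intro j _
        apply sum_congr rfl; intro l _
        rw [mul_sum]
        apply sum_congr rfl; intro n _
        rw [mul_sum]

/-- finite Fourier coefficients of the interval `[1,N]` modulo `M` -/
noncomputable def ch (M N j : ℕ) : ℂ := 1 / (M : ℂ) * ∑ m ∈ Icc 1 N, ee (-((m : ℝ) * ((j : ℝ) / M)))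

/-- twist -/
noncomputable def tw (M : ℕ) (f : ℤ → ℂ) (j : ℕ) (n : ℤ) : ℂ := f n * ee (n * ((j : ℝ) / M))

lemma ind_eq (M N : ℕ) (hNM : N < M) (n : ℤ) (hn1 : 1 ≤ n) (hn2 : n < M) :
    ∑ j ∈ range M, ch M N j * ee (n * ((j : ℝ) / M)) = if n ≤ N then 1 else 0 := by
  have hM : 0 < M := by omega
  have hMc : (M : ℂ) ≠ 0 := by exact_mod_cast hM.ne'
  have e1 : ∀ j ∈ range M, ch M N j * ee (n * ((j : ℝ) / M)) =
      ∑ m ∈ Icc 1 N, 1 / (M : ℂ) * ee (((n - m : ℤ) : ℝ) * ((j : ℝ) / M)) := by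
    intro j _
    unfold ch
    rw [mul_assoc, sum_mul, mul_sum]
    apply sum_congr rfl
    intro m _
    congr 1
    rw [← ls_ee_add]
    congr 1
    push_cast
    ring
  rw [sum_congr rfl e1, sum_comm]
  have e2 : ∀ m ∈ Icc 1 N, ∑ j ∈ range M, 1 / (M : ℂ) * ee (((n - m : ℤ) : ℝ) * ((j : ℝ) / M)) =
      if (m : ℤ) = n then 1 else 0 := by
    intro m hm
    rw [mem_Icc] at hm
    rw [← mul_sum, orth M hM]
    have h1 : (M : ℤ) ∣ n - m ↔ (m : ℤ) = n := by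
      constructor
      · intro h
        by_contra hne
        have h2 : n - m ≠ 0 := by omega
        have h3 := Int.le_of_dvd (b := |n - m|) (by positivity) ((dvd_abs _ _).2 h)
        have h4 : |n - m| < M := by
          rw [abs_lt]
          constructor <;> omega
        omega
      · rintro rfl
        simp
    by_cases h : (m : ℤ) = n
    · rw [if_pos (h1.2 h), if_pos h]
      field_simp
    · rw [if_neg (fun g => h (h1.1 g)), if_neg h, mul_zero]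
  rw [sum_congr rfl e2]
  split_ifs with h
  · have : ∀ m ∈ Icc 1 N, (if (m : ℤ) = n then (1 : ℂ) else 0) = if m = n.toNat then 1 else 0 := by
      intro m _
      by_cases g : (m : ℤ) = n
      · rw [if_pos g, if_pos (by omega)]
      · rw [if_neg g, if_neg (by omega)]
    rw [sum_congr rfl this, sum_ite_eq', if_pos]
    rw [mem_Icc]
    omega
  · apply sum_eq_zero
    intro m hm
    rw [mem_Icc] at hm
    rw [if_neg (by omega)]

lemma off_expand (M0 N k : ℕ) (hN : N ≤ M0) (f g : ℤ → ℂ) :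
    off k 1 N f g = ∑ j ∈ range (M0 + 1), ∑ l ∈ range (M0 + 1),
      ch (M0 + 1) N j * (starRingEnd ℂ) (ch (M0 + 1) N l) *
        off k 1 M0 (tw (M0 + 1) f j) (tw (M0 + 1) g l) := by
  rw [← off_bilin]
  have e1 : ∀ h : ℤ → ℂ, ∀ n ∈ Icc (1 : ℤ) M0, ∑ j ∈ range (M0 + 1), ch (M0 + 1) N j * tw (M0 + 1) h j n =
      if n ≤ N then h n else 0 := by
    intro h n hn
    rw [mem_Icc] at hn
    have h1 := ind_eq (M0 + 1) N (by omega) n hn.1 (by push_cast; omega)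
    have h2 : ∑ j ∈ range (M0 + 1), ch (M0 + 1) N j * tw (M0 + 1) h j n =
        h n * ∑ j ∈ range (M0 + 1), ch (M0 + 1) N j * ee (n * ((j : ℝ) / ((M0 + 1 : ℕ) : ℝ))) := by
      rw [mul_sum]
      apply sum_congr rfl
      intro j _
      unfold tw
      ring
    rw [h2, h1]
    split_ifs
    · ring
    · ring
  unfold off
  have e2 : ∀ F : ℤ → ℂ, ∑ n ∈ Icc (1 : ℤ) N, F n = ∑ n ∈ Icc (1 : ℤ) M0, if n ≤ N then F n else 0 := by
    intro F
    rw [← sum_filter]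
    apply sum_congr _ fun _ _ => rfl
    ext n
    simp only [mem_filter, mem_Icc]
    omega
  rw [e2]
  apply sum_congr rfl
  intro n hn
  by_cases hnN : n ≤ N
  · rw [if_pos hnN, e2]
    apply sum_congr rfl
    intro m hm
    beta_reduce
    rw [e1 f n hn, e1 g m hm, if_pos hnN]
    by_cases hmN : m ≤ N
    · rw [if_pos hmN, if_pos hmN]
    · rw [if_neg hmN, if_neg hmN, map_zero, mul_zero]
      simp
  · rw [if_neg hnN]
    symm
    apply sum_eq_zero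
    intro m hm
    beta_reduce
    rw [e1 f n hn, if_neg hnN, zero_mul]
    simp

/-- majorant of the coefficients -/
noncomputable def cM (M j : ℕ) : ℝ := 1 / (M : ℝ) * Pool.Agent.H807R2.Dav.KK M ((j : ℝ) / M)

lemma cM_nonneg (M j : ℕ) : 0 ≤ cM M j := by
  unfold cM
  have := Pool.Agent.H807R2.Dav.KK_nonneg (M := (M : ℝ)) (Nat.cast_nonneg _) ((j : ℝ) / M)
  positivity

lemma ch_le (M N j : ℕ) (hN : N ≤ M) : ‖ch M N j‖ ≤ cM M j := by
  unfold ch cM
  rw [norm_mul, norm_div, norm_one, Complex.norm_natCast]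
  apply mul_le_mul_of_nonneg_left _ (by positivity)
  have h1 := Pool.Agent.H807R2.Dav.geo_bound 1 (N + 1) (by omega) (M := (M : ℝ)) (by
    push_cast
    have : (N : ℝ) ≤ M := by exact_mod_cast hN
    linarith) (-((j : ℝ) / M))
  rw [Pool.Agent.H807R2.Dav.KK_neg] at h1
  refine le_trans (le_of_eq ?_) h1
  congr 1
  have : Icc 1 N = Ico 1 (N + 1) := by
    ext n; simp only [mem_Icc, mem_Ico]; omega
  rw [this]
  apply sum_congr rfl
  intro m _
  rw [Pool.Agent.W110.HV.ee_eq]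
  congr 1
  ring

lemma sum_cM (M : ℕ) (hM : 1 ≤ M) : ∑ j ∈ range M, cM M j ≤ 42 + 3 * Real.log M := by
  have hM0 : (0 : ℝ) < M := by exact_mod_cast hM
  have h1 := Pool.Agent.H807R2.Dav.vino_block (q := M) hM (a := 1) (by
    exact isCoprime_one_left) (α := 1 / (M : ℝ)) (by
    simp) (M := (M : ℝ)) hM0.le 0
  unfold cM
  rw [← mul_sum]
  have h2 : ∑ j ∈ range M, Pool.Agent.H807R2.Dav.KK M ((j : ℝ) / M) =
      ∑ j ∈ range M, Pool.Agent.H807R2.Dav.KK M (0 + j * (1 / (M : ℝ))) := by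
    apply sum_congr rfl
    intro j _
    congr 1
    ring
  rw [h2]
  calc 1 / (M : ℝ) * ∑ j ∈ range M, Pool.Agent.H807R2.Dav.KK M (0 + j * (1 / (M : ℝ)))
      ≤ 1 / (M : ℝ) * (39 * M + 3 * M * (1 + Real.log M)) := mul_le_mul_of_nonneg_left h1 (by positivity)
    _ = _ := by field_simp; ring

lemma ES_tw (M : ℕ) (A B : ℤ) (g : ℤ → ℂ) (l : ℕ) (α : ℝ) :
    ES A B (tw M g l) α = ES A B g (α + (l : ℝ) / M) := by
  unfold ES tw
  apply sum_congr rfl
  intro n _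
  rw [mul_assoc, ← ls_ee_add]
  congr 2
  ring

lemma norm_tw (M : ℕ) (f : ℤ → ℂ) (j : ℕ) (n : ℤ) : ‖tw M f j n‖ = ‖f n‖ := by
  unfold tw
  rw [norm_mul, ls_norm_ee, mul_one]

/-- the off-diagonal correlations, uniformly in the length -/
theorem off_max (M0 K : ℕ) (hM : 1 ≤ M0) (hK : 1 ≤ K) (f g : ℤ → ℂ) (Z D : ℝ)
    (hg : ∀ α : ℝ, ‖ES 1 M0 g α‖ ≤ Z) (hD0 : 0 ≤ D)
    (hD : ∀ h : ℕ, 1 ≤ h → h ≤ M0 → (h.divisors.card : ℝ) ≤ D) :
    ∃ F : ℕ → ℝ, (∀ k, 0 ≤ F k) ∧ (∀ k N : ℕ, N ≤ M0 → ‖off k 1 N f g‖ ^ 2 ≤ F k) ∧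
      ∑ k ∈ Ioc K (2 * K), F k ≤ (42 + 3 * Real.log (M0 + 1)) ^ 4 *
        (2 * M0 / K * D * Z ^ 2 * ∑ n ∈ Icc (1 : ℤ) M0, ‖f n‖ ^ 2) := by
  classical
  set M := M0 + 1 with hMdef
  set s := range M with hs
  set c : ℕ × ℕ → ℝ := fun p => cM M p.1 * cM M p.2 with hc
  have hc0 : ∀ p, 0 ≤ c p := fun p => mul_nonneg (cM_nonneg _ _) (cM_nonneg _ _)
  set O : ℕ → ℕ × ℕ → ℝ := fun k p => ‖off k 1 M0 (tw M f p.1) (tw M g p.2)‖ with hO
  set S := ∑ p ∈ s ×ˢ s, c p with hS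
  have hS0 : 0 ≤ S := sum_nonneg fun p _ => hc0 p
  have hSle : S ≤ (42 + 3 * Real.log (M0 + 1)) ^ 2 := by
    rw [hS, sum_product, hc]
    simp only
    rw [← sum_mul_sum, ← sq]
    apply pow_le_pow_left₀ (sum_nonneg fun _ _ => cM_nonneg _ _)
    have := sum_cM M (by omega)
    rw [hMdef] at this
    push_cast at this
    exact this
  refine ⟨fun k => S * ∑ p ∈ s ×ˢ s, c p * O k p ^ 2, ?_, ?_, ?_⟩
  · intro k
    apply mul_nonneg hS0
    exact sum_nonneg fun p _ => mul_nonneg (hc0 p) (by positivity)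
  · intro k N hN
    have h1 : ‖off k 1 N f g‖ ≤ ∑ p ∈ s ×ˢ s, c p * O k p := by
      rw [off_expand M0 N k hN f g, sum_product]
      refine (norm_sum_le _ _).trans (sum_le_sum fun j _ => ?_)
      refine (norm_sum_le _ _).trans (sum_le_sum fun l _ => ?_)
      rw [norm_mul, norm_mul, RCLike.norm_conj]
      apply mul_le_mul_of_nonneg_right _ (norm_nonneg _)
      exact mul_le_mul (ch_le M N j (by omega)) (ch_le M N l (by omega)) (norm_nonneg _) (cM_nonneg _ _)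
    have h2 : (∑ p ∈ s ×ˢ s, c p * O k p) ^ 2 ≤ S * ∑ p ∈ s ×ˢ s, c p * O k p ^ 2 := by
      apply sum_sq_le_sum_mul_sum_of_sq_eq_mul
      · intro p _; exact hc0 p
      · intro p _; exact mul_nonneg (hc0 p) (by positivity)
      · intro p _; ring
    exact (pow_le_pow_left₀ (norm_nonneg _) h1 2).trans h2
  · rw [← mul_sum, sum_comm]
    set Bd := 2 * (M0 : ℝ) / K * D * Z ^ 2 * ∑ n ∈ Icc (1 : ℤ) M0, ‖f n‖ ^ 2 with hBd
    have hsum0 : 0 ≤ ∑ n ∈ Icc (1 : ℤ) M0, ‖f n‖ ^ 2 := sum_nonneg fun _ _ => by positivity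
    have hBd0 : 0 ≤ Bd := by positivity
    have h1 : ∀ p ∈ s ×ˢ s, ∑ k ∈ Ioc K (2 * K), c p * O k p ^ 2 ≤ c p * Bd := by
      intro p _
      rw [← mul_sum]
      apply mul_le_mul_of_nonneg_left _ (hc0 p)
      have h2 := off_avg 1 M0 (by exact_mod_cast hM) K hK (tw M f p.1) (tw M g p.2) Z D
        (fun α => by rw [ES_tw]; exact hg _) hD0 (fun h h0 h1 => by
          apply hD
          · exact Nat.pos_of_ne_zero (Int.natAbs_ne_zero.2 h0)
          · have : |h| = (h.natAbs : ℤ) := Int.abs_eq_natAbs h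
            omega)
      simp_rw [norm_tw] at h2
      refine h2.trans ?_
      rw [hBd]
      have h3 : 2 * (((M0 : ℤ) : ℝ) - ((1 : ℤ) : ℝ)) / K * D * Z ^ 2 ≤ 2 * (M0 : ℝ) / K * D * Z ^ 2 := by
        have hK0 : (0 : ℝ) < K := by exact_mod_cast hK
        have : 2 * (((M0 : ℤ) : ℝ) - ((1 : ℤ) : ℝ)) ≤ 2 * (M0 : ℝ) := by
          push_cast
          linarith
        gcongr
      exact mul_le_mul_of_nonneg_right h3 hsum0
    calc S * ∑ p ∈ s ×ˢ s, ∑ k ∈ Ioc K (2 * K), c p * O k p ^ 2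
        ≤ S * ∑ p ∈ s ×ˢ s, c p * Bd := mul_le_mul_of_nonneg_left (sum_le_sum h1) hS0
      _ = S * S * Bd := by rw [← sum_mul]; ring
      _ ≤ (42 + 3 * Real.log (M0 + 1)) ^ 2 * (42 + 3 * Real.log (M0 + 1)) ^ 2 * Bd := by
          gcongr
      _ = _ := by ring

end Pool.Agent.T2h84.LD
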