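import Pool.Agent.T2h84.LD.Core
import Pool.Agent.T2h84.LD.Norm2

/-!
Choice of the parameters.
-/

set_option autoImplicit false

open Finset

namespace Pool.Agent.T2h84.LD

open H343 (LL)
open Pool.Agent.W110.HV (ev_const ev_pow div_N markov floor_facts)

/-- lower end of the moduli of the test function -/
noncomputable def Pp (θ σ : ℝ) (M : ℕ) : ℕ := ⌊(M : ℝ) ^ (θ + σ)⌋₊

/-- upper end of the moduli of the test function -/
noncomputable def Rr (θ σ : ℝ) (M : ℕ) : ℕ := ⌊(M : ℝ) ^ (1 - θ - 2 * σ)⌋₊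

lemma mpow {M : ℝ} (hM : 1 ≤ M) {a b : ℝ} (h : a ≤ b) : M ^ a ≤ M ^ b :=
  Real.rpow_le_rpow_of_exponent_le hM h

/-- facts about the parameters -/
theorem params (σ : ℝ) (hσ : 0 < σ) (hσ1 : σ ≤ 1 / 16) : ∃ M1 : ℕ, ∀ M : ℕ, M1 ≤ M → ∀ θ : ℝ,
    0 ≤ θ → θ ≤ 1 / 2 →
    1 ≤ Pp θ σ M ∧ 1 ≤ Rr θ σ M ∧ (Rr θ σ M : ℝ) ≤ (M : ℝ) ^ (1 - θ - 2 * σ) ∧
    (M : ℝ) ^ (1 - θ - 2 * σ) / 2 ≤ (Rr θ σ M : ℝ) ∧ (Pp θ σ M : ℝ) ≤ (M : ℝ) ^ (θ + σ) ∧
    (M : ℝ) / Pp θ σ M + Rr θ σ M ≤ 3 * (M : ℝ) ^ (1 - θ - σ) ∧ Rr θ σ M ≤ M := by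
  obtain ⟨n1, h1⟩ := ev_const 4 σ hσ
  refine ⟨max n1 1, fun M hM θ hθ hθ1 => ?_⟩
  have e1 := h1 M (le_trans (le_max_left _ _) hM)
  have hM1n : 1 ≤ M := le_trans (le_max_right _ _) hM
  have hM1 : (1 : ℝ) ≤ M := by exact_mod_cast hM1n
  have hM0 : (0 : ℝ) < M := by linarith
  have a1 : 4 ≤ (M : ℝ) ^ (θ + σ) := e1.trans (mpow hM1 (by linarith))
  have a2 : 4 ≤ (M : ℝ) ^ (1 - θ - 2 * σ) := e1.trans (mpow hM1 (by linarith))
  obtain ⟨p1, p2, p3, _⟩ := floor_facts _ a1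
  obtain ⟨r1, r2, r3, _⟩ := floor_facts _ a2
  change 2 ≤ Pp θ σ M at p1
  change (Pp θ σ M : ℝ) ≤ _ at p2
  change _ ≤ (Pp θ σ M : ℝ) at p3
  change 2 ≤ Rr θ σ M at r1
  change (Rr θ σ M : ℝ) ≤ _ at r2
  change _ ≤ (Rr θ σ M : ℝ) at r3
  have hP0 : (0 : ℝ) < Pp θ σ M := by exact_mod_cast (by omega : 0 < Pp θ σ M)
  refine ⟨by omega, by omega, r2, r3, p2, ?_, ?_⟩
  · have g1 : (M : ℝ) / Pp θ σ M ≤ 2 * (M : ℝ) ^ (1 - θ - σ) := by
      rw [div_le_iff₀ hP0]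
      calc (M : ℝ) = 2 * (M : ℝ) ^ (1 - θ - σ) * ((M : ℝ) ^ (θ + σ) / 2) := by
            have : (M : ℝ) ^ (1 - θ - σ) * (M : ℝ) ^ (θ + σ) = M := by
              rw [← Real.rpow_add hM0]
              rw [show 1 - θ - σ + (θ + σ) = 1 by ring, Real.rpow_one]
            linarith
        _ ≤ 2 * (M : ℝ) ^ (1 - θ - σ) * Pp θ σ M := by gcongr
    have g2 : (M : ℝ) ^ (1 - θ - 2 * σ) ≤ (M : ℝ) ^ (1 - θ - σ) := mpow hM1 (by linarith)
    linarith
  · have : (Rr θ σ M : ℝ) ≤ M := r2.trans (by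
      calc (M : ℝ) ^ (1 - θ - 2 * σ) ≤ (M : ℝ) ^ (1 : ℝ) := mpow hM1 (by linarith)
        _ = M := Real.rpow_one _)
    exact_mod_cast this

/-- the sup bound for the chosen parameters -/
theorem sup_par (σ : ℝ) (hσ : 0 < σ) (hσ1 : σ ≤ 1 / 16) : ∃ M1 : ℕ, ∀ M : ℕ, M1 ≤ M → ∀ θ : ℝ,
    0 ≤ θ → θ ≤ 1 / 2 → ∀ α : ℝ,
    ‖Pool.Agent.W110.HV.ES 1 M (zz (TT (Pp θ σ M) (Rr θ σ M))) α‖ ≤ (M : ℝ) ^ (1 - θ - σ + 3 * (σ / 20)) := by
  obtain ⟨n1, h1⟩ := params σ hσ hσ1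
  obtain ⟨n2, h2⟩ := pw (σ / 20) (by positivity)
  obtain ⟨n3, h3⟩ := ev_pow 54000 2 (2 * (σ / 20)) (by positivity)
  refine ⟨max (max n1 n2) (max n3 3), fun M hM θ hθ hθ1 α => ?_⟩
  have hMn1 : n1 ≤ M := le_trans (le_trans (le_max_left _ _) (le_max_left _ _)) hM
  have hMn2 : n2 ≤ M := le_trans (le_trans (le_max_right _ _) (le_max_left _ _)) hM
  have hMn3 : n3 ≤ M := le_trans (le_trans (le_max_left _ _) (le_max_right _ _)) hM
  have hM3 : 3 ≤ M := le_trans (le_trans (le_max_right _ _) (le_max_right _ _)) hM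
  obtain ⟨a1, a2, a3, a4, a5, a6, a7⟩ := h1 M hMn1 θ hθ hθ1
  set P := Pp θ σ M with hP
  set R := Rr θ σ M with hR
  obtain ⟨b1, b2⟩ := h2 M hMn2 P R a7
  have hMr : (3 : ℝ) ≤ M := by exact_mod_cast hM3
  have hM1 : (1 : ℝ) ≤ M := by linarith
  have hM0 : (0 : ℝ) < M := by linarith
  have hR0 : (0 : ℝ) < R := by exact_mod_cast (by omega : 0 < R)
  have hR1 : (1 : ℝ) ≤ R := by exact_mod_cast a2
  have hl1 : 1 ≤ Real.log M := by
    rw [← Real.log_exp 1]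
    apply Real.log_le_log (Real.exp_pos 1)
    have := Real.exp_one_lt_d9
    linarith
  have hlR : Real.log R ≤ Real.log M := Real.log_le_log hR0 (by exact_mod_cast a7)
  have hlR0 : 0 ≤ Real.log R := Real.log_nonneg hR1
  rw [ES_zz]
  refine (sup_TT P R M a1 a2 (by omega) ((M : ℝ) ^ (σ / 20)) (fun d hd => ?_) α).trans ?_
  · rw [mem_Icc] at hd
    exact b1 d hd.1 hd.2
  · have g1 : (Nat.log 2 R + 1 : ℝ) ≤ 3 * Real.log M := by
      have g2 : (Nat.log 2 R : ℝ) * Real.log 2 ≤ Real.log R := by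
        have g4 : (2 : ℝ) ^ Nat.log 2 R ≤ R := by
          exact_mod_cast Nat.pow_log_le_self 2 (by omega)
        have g7 := Real.log_le_log (by positivity) g4
        rwa [Real.log_pow] at g7
      have g4 := Real.log_two_gt_d9
      have g5 : (0 : ℝ) ≤ Nat.log 2 R := Nat.cast_nonneg _
      nlinarith
    have g2 : 1 + Real.log (2 * R) ≤ 3 * Real.log M := by
      rw [Real.log_mul (by norm_num) hR0.ne']
      have := Real.log_two_lt_d9
      linarith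
    have g3 := h3 M hMn3
    have g4 : (0 : ℝ) ≤ 1 + Real.log (2 * R) := by
      have := Real.log_nonneg (show (1 : ℝ) ≤ 2 * R by linarith)
      linarith
    calc 2000 * (M : ℝ) ^ (σ / 20) * (Nat.log 2 R + 1 : ℝ) * ((M : ℝ) / P + R) * (1 + Real.log (2 * R))
        ≤ 2000 * (M : ℝ) ^ (σ / 20) * (3 * Real.log M) * (3 * (M : ℝ) ^ (1 - θ - σ)) * (3 * Real.log M) := by
          gcongr
      _ = (54000 * Real.log M ^ 2) * ((M : ℝ) ^ (σ / 20) * (M : ℝ) ^ (1 - θ - σ)) := by ring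
      _ ≤ (M : ℝ) ^ (2 * (σ / 20)) * ((M : ℝ) ^ (σ / 20) * (M : ℝ) ^ (1 - θ - σ)) := by gcongr
      _ = _ := by
          rw [← Real.rpow_add hM0, ← Real.rpow_add hM0]
          congr 1
          ring

/-- the exceptional set -/
theorem exc (σ : ℝ) (hσ : 0 < σ) (hσ1 : σ ≤ 1 / 16) : ∃ M1 : ℕ, ∀ M : ℕ, M1 ≤ M → ∀ θ : ℝ,
    0 ≤ θ → θ ≤ 1 / 2 → ∀ K : ℕ, 1 ≤ K → ∃ E : Finset ℕ, E ⊆ Ioc K (2 * K) ∧
    (E.card : ℝ) ≤ 4 * (M : ℝ) ^ (2 - 2 * θ - 2 * σ + 12 * (σ / 20)) / K ∧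
    ∀ k ∈ Ioc K (2 * K), k ∉ E → ∀ N : ℕ, N ≤ M →
      |offR k N (fun n => ArithmeticFunction.vonMangoldt n) (TT (Pp θ σ M) (Rr θ σ M))| ≤ (M : ℝ) ^ (1 - σ / 20) ∧
      |offR k N (TT (Pp θ σ M) (Rr θ σ M)) (TT (Pp θ σ M) (Rr θ σ M))| ≤ (M : ℝ) ^ (1 - σ / 20) := by
  classical
  obtain ⟨n1, h1⟩ := params σ hσ hσ1
  obtain ⟨n2, h2⟩ := pw (σ / 20) (by positivity)
  obtain ⟨n3, h3⟩ := sup_par σ hσ hσ1
  obtain ⟨n4, h4⟩ := div_N (σ / 20) (by positivity)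
  obtain ⟨n5, h5⟩ := ev_pow 6250000 4 (σ / 20) (by positivity)
  obtain ⟨n6, h6⟩ := ev_pow 1 2 (2 * (σ / 20)) (by positivity)
  refine ⟨max (max (max n1 n2) (max n3 n4)) (max (max n5 n6) 3), fun M hM θ hθ hθ1 K hK => ?_⟩
  have hMn1 : n1 ≤ M := le_trans (le_trans (le_max_left _ _) (le_trans (le_max_left _ _) (le_max_left _ _))) hM
  have hMn2 : n2 ≤ M := le_trans (le_trans (le_max_right _ _) (le_trans (le_max_left _ _) (le_max_left _ _))) hM
  have hMn3 : n3 ≤ M := le_trans (le_trans (le_max_left _ _) (le_trans (le_max_right _ _) (le_max_left _ _))) hM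
  have hMn4 : n4 ≤ M := le_trans (le_trans (le_max_right _ _) (le_trans (le_max_right _ _) (le_max_left _ _))) hM
  have hMn5 : n5 ≤ M := le_trans (le_trans (le_max_left _ _) (le_trans (le_max_left _ _) (le_max_right _ _))) hM
  have hMn6 : n6 ≤ M := le_trans (le_trans (le_max_right _ _) (le_trans (le_max_left _ _) (le_max_right _ _))) hM
  have hM3 : 3 ≤ M := le_trans (le_trans (le_max_right _ _) (le_max_right _ _)) hM
  obtain ⟨a1, a2, a3, a4, a5, a6, a7⟩ := h1 M hMn1 θ hθ hθ1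
  have hsup := h3 M hMn3 θ hθ hθ1
  set P := Pp θ σ M with hP
  set R := Rr θ σ M with hR
  obtain ⟨b1, b2⟩ := h2 M hMn2 P R a7
  have hMr : (3 : ℝ) ≤ M := by exact_mod_cast hM3
  have hM1 : (1 : ℝ) ≤ M := by linarith
  have hM0 : (0 : ℝ) < M := by linarith
  have hK0 : (0 : ℝ) < K := by exact_mod_cast hK
  have hl1 : 1 ≤ Real.log M := by
    rw [← Real.log_exp 1]
    apply Real.log_le_log (Real.exp_pos 1)
    have := Real.exp_one_lt_d9
    linarith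
  set δ := σ / 20 with hδ
  have hδ0 : 0 < δ := by positivity
  set Z : ℝ := (M : ℝ) ^ (1 - θ - σ + 3 * δ) with hZ
  set D : ℝ := (M : ℝ) ^ δ with hD
  have hDh : ∀ h : ℕ, 1 ≤ h → h ≤ M → (h.divisors.card : ℝ) ≤ D := fun h h0 h1 => h4 M hMn4 h h0 (by omega)
  obtain ⟨F1, c1, c2, c3⟩ := off_max M K (by omega) hK (zz (fun n => ArithmeticFunction.vonMangoldt n))
    (zz (TT P R)) Z D hsup (by positivity) hDh
  obtain ⟨F2, d1, d2, d3⟩ := off_max M K (by omega) hK (zz (TT P R))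
    (zz (TT P R)) Z D hsup (by positivity) hDh
  set l : ℝ := (M : ℝ) ^ (2 - 2 * δ) with hl
  have hl0 : 0 < l := by positivity
  -- the norms
  have hn1 : ∑ n ∈ Icc (1 : ℤ) M, ‖zz (fun n => (ArithmeticFunction.vonMangoldt n : ℝ)) n‖ ^ 2 ≤ (M : ℝ) ^ (1 + 2 * δ) := by
    rw [norm_zz]
    calc ∑ n ∈ Icc 1 M, (ArithmeticFunction.vonMangoldt n : ℝ) ^ 2 ≤ ∑ n ∈ Icc 1 M, Real.log M ^ 2 := by
          apply sum_le_sum
          intro n hn
          rw [mem_Icc] at hn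
          apply pow_le_pow_left₀ ArithmeticFunction.vonMangoldt_nonneg
          refine ArithmeticFunction.vonMangoldt_le_log.trans ?_
          apply Real.log_le_log (by exact_mod_cast hn.1)
          exact_mod_cast hn.2
      _ = M * Real.log M ^ 2 := by simp
      _ ≤ M * (M : ℝ) ^ (2 * δ) := by
          have := h6 M hMn6
          rw [one_mul] at this
          gcongr
      _ = _ := by rw [Real.rpow_add hM0, Real.rpow_one]
  have hn2 : ∑ n ∈ Icc (1 : ℤ) M, ‖zz (TT P R) n‖ ^ 2 ≤ (M : ℝ) ^ (1 + 2 * δ) := by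
    rw [norm_zz]
    calc ∑ n ∈ Icc 1 M, (TT P R n) ^ 2 ≤ ∑ n ∈ Icc 1 M, ((M : ℝ) ^ δ) ^ 2 := by
          apply sum_le_sum
          intro n hn
          rw [mem_Icc] at hn
          rw [← sq_abs]
          exact pow_le_pow_left₀ (abs_nonneg _) (b2 n hn.1 (by omega)) 2
      _ = M * ((M : ℝ) ^ δ) ^ 2 := by simp
      _ = _ := by
          rw [Real.rpow_add hM0, Real.rpow_one, ← Real.rpow_natCast, ← Real.rpow_mul hM0.le]
          congr 2
          push_cast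
          ring
  have hlogf : (42 + 3 * Real.log (M + 1)) ^ 4 ≤ (M : ℝ) ^ δ := by
    have g1 : Real.log (M + 1) ≤ Real.log M + 1 := by
      have : Real.log (M + 1) ≤ Real.log (M * 2) := Real.log_le_log (by linarith) (by linarith)
      rw [Real.log_mul (by linarith) (by norm_num)] at this
      have := Real.log_two_lt_d9
      linarith
    have g0 : 0 ≤ Real.log (M + 1) := Real.log_nonneg (by linarith)
    calc (42 + 3 * Real.log (M + 1)) ^ 4 ≤ (50 * Real.log M) ^ 4 := by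
          apply pow_le_pow_left₀ (by linarith)
          linarith
      _ = 6250000 * Real.log M ^ 4 := by ring
      _ ≤ _ := h5 M hMn5
  have hbound : ∀ S : ℝ, 0 ≤ S → S ≤ (M : ℝ) ^ (1 + 2 * δ) →
      (42 + 3 * Real.log (M + 1)) ^ 4 * (2 * M / K * D * Z ^ 2 * S) ≤
      (2 * (M : ℝ) ^ (2 - 2 * θ - 2 * σ + 12 * δ) / K) * l := by
    intro S hS0 hS
    calc (42 + 3 * Real.log (M + 1)) ^ 4 * (2 * M / K * D * Z ^ 2 * S)
        ≤ (M : ℝ) ^ δ * (2 * M / K * D * Z ^ 2 * (M : ℝ) ^ (1 + 2 * δ)) := by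
          gcongr
      _ = (2 / K) * ((M : ℝ) ^ δ * (M : ℝ) ^ (1 : ℝ) * D * Z ^ 2 * (M : ℝ) ^ (1 + 2 * δ)) := by
          rw [Real.rpow_one]; ring
      _ = (2 / K) * ((M : ℝ) ^ (2 - 2 * θ - 2 * σ + 12 * δ) * l) := by
          congr 1
          rw [hZ, hD, hl, ← Real.rpow_natCast ((M : ℝ) ^ (1 - θ - σ + 3 * δ)) 2, ← Real.rpow_mul hM0.le,
            ← Real.rpow_add hM0, ← Real.rpow_add hM0, ← Real.rpow_add hM0, ← Real.rpow_add hM0,
            ← Real.rpow_add hM0]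
          congr 1
          push_cast
          ring
      _ = _ := by ring
  have m1 := markov (Ioc K (2 * K)) F1 (fun k _ => c1 k) l _ _ c3 hl0
    (hbound _ (sum_nonneg fun _ _ => by positivity) hn1)
  have m2 := markov (Ioc K (2 * K)) F2 (fun k _ => d1 k) l _ _ d3 hl0
    (hbound _ (sum_nonneg fun _ _ => by positivity) hn2)
  have hsq : l = ((M : ℝ) ^ (1 - δ)) ^ 2 := by
    rw [hl, ← Real.rpow_natCast, ← Real.rpow_mul hM0.le]
    congr 1
    push_cast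
    ring
  refine ⟨(Ioc K (2 * K)).filter (fun q => l < F1 q) ∪ (Ioc K (2 * K)).filter (fun q => l < F2 q), ?_, ?_, ?_⟩
  · exact union_subset (filter_subset _ _) (filter_subset _ _)
  · calc ((((Ioc K (2 * K)).filter (fun q => l < F1 q) ∪ (Ioc K (2 * K)).filter (fun q => l < F2 q)).card : ℕ) : ℝ)
        ≤ ((((Ioc K (2 * K)).filter (fun q => l < F1 q)).card +
          ((Ioc K (2 * K)).filter (fun q => l < F2 q)).card : ℕ) : ℝ) := by exact_mod_cast card_union_le _ _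
      _ ≤ 2 * (M : ℝ) ^ (2 - 2 * θ - 2 * σ + 12 * δ) / K + 2 * (M : ℝ) ^ (2 - 2 * θ - 2 * σ + 12 * δ) / K := by
          push_cast
          exact add_le_add m1 m2
      _ = _ := by ring
  · intro k hk hkE N hN
    rw [mem_union, mem_filter, mem_filter, not_or] at hkE
    have g1 : F1 k ≤ l := by
      by_contra hc
      exact hkE.1 ⟨hk, not_le.1 hc⟩
    have g2 : F2 k ≤ l := by
      by_contra hc
      exact hkE.2 ⟨hk, not_le.1 hc⟩
    have g3 := (c2 k N hN).trans g1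
    have g4 := (d2 k N hN).trans g2
    rw [off_zz, Complex.norm_real, Real.norm_eq_abs, hsq] at g3 g4
    exact ⟨le_of_sq_le_sq g3 (by positivity), le_of_sq_le_sq g4 (by positivity)⟩

end Pool.Agent.T2h84.LD
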