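import Mathlib

/-!
The majorants `ps A u = u / (1 + log u / (2 A)) ^ A`; `ps A u / √u` is nondecreasing for `u ≥ 1`.
-/

set_option autoImplicit false

namespace Pool.Agent.T2h84.LD

/-- `u / (1 + log u / (2 A)) ^ A` -/
noncomputable def ps (A : ℕ) (u : ℝ) : ℝ := u / (1 + Real.log u / (2 * A)) ^ A

lemma ps_pos {A : ℕ} {u : ℝ} (hu : 1 ≤ u) : 0 < ps A u := by
  unfold ps
  have h1 : 0 ≤ Real.log u := Real.log_nonneg hu
  have h2 : 0 ≤ Real.log u / (2 * A) := by positivity
  positivity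

/-- `ps A (u / v) ≤ ps A u / √v` -/
lemma ps_div {A : ℕ} (hA : 1 ≤ A) {u v : ℝ} (hv : 1 ≤ v) (hvu : v ≤ u) :
    ps A (u / v) ≤ ps A u / √v := by
  have hA0 : (0 : ℝ) < A := by exact_mod_cast hA
  have hv0 : 0 < v := by linarith
  have hu0 : 0 < u := by linarith
  have hw1 : 1 ≤ u / v := by rw [le_div_iff₀ hv0]; linarith
  have hw0 : 0 < u / v := by linarith
  set a : ℝ := Real.log (u / v) with ha
  set b : ℝ := Real.log v with hb
  have ha0 : 0 ≤ a := Real.log_nonneg hw1
  have hb0 : 0 ≤ b := Real.log_nonneg hv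
  have hlu : Real.log u = a + b := by
    rw [ha, hb, ← Real.log_mul hw0.ne' hv0.ne']
    congr 1
    field_simp
  have hx : 0 < 1 + a / (2 * A) := by positivity
  have hy : 0 < 1 + Real.log u / (2 * A) := by rw [hlu]; positivity
  -- the ratio
  have h1 : (1 + Real.log u / (2 * A)) / (1 + a / (2 * A)) ≤ Real.exp (b / (2 * A)) := by
    rw [div_le_iff₀ hx, hlu]
    have h2 : 1 + b / (2 * A) ≤ Real.exp (b / (2 * A)) := by
      have := Real.add_one_le_exp (b / (2 * (A : ℝ)))
      linarith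
    have h3 : 0 ≤ a / (2 * A) * (b / (2 * A)) := by positivity
    calc 1 + (a + b) / (2 * A) ≤ (1 + b / (2 * A)) * (1 + a / (2 * A)) := by
          have : (1 + b / (2 * A)) * (1 + a / (2 * (A : ℝ))) =
              1 + (a + b) / (2 * A) + a / (2 * A) * (b / (2 * A)) := by ring
          rw [this]
          linarith
      _ ≤ Real.exp (b / (2 * A)) * (1 + a / (2 * A)) := mul_le_mul_of_nonneg_right h2 hx.le
  have h2 : ((1 + Real.log u / (2 * A)) / (1 + a / (2 * A))) ^ A ≤ √v := by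
    calc ((1 + Real.log u / (2 * A)) / (1 + a / (2 * A))) ^ A ≤ Real.exp (b / (2 * A)) ^ A :=
          pow_le_pow_left₀ (by positivity) h1 A
      _ = Real.exp (b / 2) := by
          rw [← Real.exp_nat_mul]
          congr 1
          field_simp
      _ = √v := by
          rw [Real.sqrt_eq_rpow, Real.rpow_def_of_pos hv0, ← hb]
          congr 1; ring
  rw [div_pow, div_le_iff₀ (by positivity)] at h2
  unfold ps
  rw [← ha]
  have hs : 0 < √v := Real.sqrt_pos.2 hv0
  rw [div_div u ((1 + Real.log u / (2 * A)) ^ A) √v, div_le_div_iff₀ (by positivity) (by positivity)]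
  have hss : √v * √v = v := Real.mul_self_sqrt hv0.le
  have e1 : u / v * ((1 + Real.log u / (2 * A)) ^ A * √v) ≤
      u / v * ((√v * (1 + a / (2 * A)) ^ A) * √v) := by
    gcongr
  refine e1.trans (le_of_eq ?_)
  have e2 : u / v * ((√v * (1 + a / (2 * A)) ^ A) * √v) =
      u / v * (√v * √v) * (1 + a / (2 * A)) ^ A := by ring
  rw [e2, hss]
  have e3 : u / v * v = u := by field_simp
  rw [e3]

lemma ps_mono {A : ℕ} (hA : 1 ≤ A) {w u : ℝ} (hw : 1 ≤ w) (hwu : w ≤ u) : ps A w ≤ ps A u := by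
  have hw0 : 0 < w := by linarith
  have hu0 : 0 < u := by linarith
  have hv : 1 ≤ u / w := by rw [le_div_iff₀ hw0]; linarith
  have h1 := ps_div hA hv (show u / w ≤ u by rw [div_le_iff₀ hw0]; nlinarith)
  have e : u / (u / w) = w := by field_simp
  rw [e] at h1
  refine h1.trans ?_
  have h2 : 1 ≤ √(u / w) := by
    rw [show (1 : ℝ) = √1 by simp]
    exact Real.sqrt_le_sqrt hv
  rw [div_le_iff₀ (by positivity)]
  have := (ps_pos (A := A) (hw.trans hwu)).le
  nlinarith

/-- the quotient `ps A u / u` is nonincreasing -/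
lemma ps_div_anti {A : ℕ} {w u : ℝ} (hw : 1 ≤ w) (hwu : w ≤ u) :
    ps A u / u ≤ 1 / (1 + Real.log w / (2 * A)) ^ A := by
  have hw0 : 0 < w := by linarith
  have hu0 : 0 < u := by linarith
  have h0 : 0 ≤ Real.log w := Real.log_nonneg hw
  have h1 : Real.log w ≤ Real.log u := Real.log_le_log hw0 hwu
  unfold ps
  have e : u / (1 + Real.log u / (2 * A)) ^ A / u = 1 / (1 + Real.log u / (2 * A)) ^ A := by
    field_simp
  rw [e]
  have h2 : Real.log w / (2 * (A : ℝ)) ≤ Real.log u / (2 * A) := by gcongr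
  have h3 : 0 ≤ Real.log w / (2 * (A : ℝ)) := by positivity
  gcongr

end Pool.Agent.T2h84.LD
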