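import Pool.Agent.T2h84.LD.Coef
import Pool.Agent.W110.HV.Vino

/-!
The exponential sum of the test function is small at every frequency.
-/

set_option autoImplicit false

open Finset

namespace Pool.Agent.T2h84.LD

open Pool.Agent.H807R2.Dav
open Pool.Agent.H373R2.T7

/-- the exponential sum over the multiples -/
lemma exp_TT (P R N : ℕ) (α : ℝ) :
    ∑ n ∈ Icc 1 N, ((TT P R n : ℝ) : ℂ) * ee (n * α) =
      ∑ d ∈ Icc 1 R, ((cf P R d : ℝ) : ℂ) * ∑ l ∈ Icc 1 (N / d), ee (l * (d * α)) := by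
  classical
  have e1 : ∀ n ∈ Icc 1 N, ((TT P R n : ℝ) : ℂ) * ee (n * α) =
      ∑ d ∈ Icc 1 R, if d ∣ n then ((cf P R d : ℝ) : ℂ) * ee (n * α) else 0 := by
    intro n _
    unfold TT
    rw [← sum_filter, ← sum_mul]
    push_cast
    rfl
  rw [sum_congr rfl e1, sum_comm]
  apply sum_congr rfl
  intro d hd
  rw [mem_Icc] at hd
  rw [← sum_filter, ← mul_sum]
  congr 1
  have e2 : (Icc 1 N).filter (fun n => d ∣ n) = (Icc 1 (N / d)).image (fun l => l * d) := by
    ext n
    simp only [mem_filter, mem_Icc, mem_image]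
    constructor
    · rintro ⟨⟨h1, h2⟩, k, rfl⟩
      refine ⟨k, ⟨?_, ?_⟩, by ring⟩
      · rcases Nat.eq_zero_or_pos k with h | h
        · subst h; omega
        · exact h
      · rw [Nat.le_div_iff_mul_le (by omega)]
        rw [mul_comm]; exact h2
    · rintro ⟨k, ⟨h1, h2⟩, rfl⟩
      rw [Nat.le_div_iff_mul_le (by omega)] at h2
      exact ⟨⟨Nat.mul_pos h1 hd.1, h2⟩, dvd_mul_left d k⟩
  rw [e2, sum_image (fun a _ b _ hab => Nat.eq_of_mul_eq_mul_right (by omega : 0 < d) hab)]
  apply sum_congr rfl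
  intro l _
  congr 1
  push_cast
  ring

lemma dd_eq_zero_add (x : ℝ) : ‖ee x - 1‖ = dd x := by
  unfold dd
  rw [← norm_neg]
  congr 1
  ring

/-- comparison of the sum over the multiples of `d` with the complete sum -/
lemma geo_cmp (N d : ℕ) (hd : 1 ≤ d) (β : ℝ) (hβ : (d : ℝ) * |β| ≤ 1 / 2) :
    ‖∑ l ∈ Icc 1 (N / d), ee (l * (d * β)) - 1 / (d : ℂ) * ∑ n ∈ Icc 1 N, ee (n * β)‖ ≤ 6 := by
  classical
  set M := N / d with hM
  have hd0 : (0 : ℝ) < d := by exact_mod_cast hd
  have hdc : (d : ℂ) ≠ 0 := by exact_mod_cast hd0.ne'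
  have hMN : M * d ≤ N := Nat.div_mul_le_self N d
  have hMN2 : N - M * d ≤ d := by
    have := Nat.div_add_mod N d
    have h2 := Nat.mod_lt N (by omega : 0 < d)
    rw [← hM] at this
    have h3 : M * d = d * M := mul_comm _ _
    omega
  have e1 : ∑ n ∈ Icc 1 N, ee (n * β) = ∑ n ∈ Icc 1 (M * d), ee (n * β) + ∑ n ∈ Ioc (M * d) N, ee (n * β) := by
    rw [← sum_union (by
      rw [disjoint_left]; intro n hn hn'
      rw [mem_Icc] at hn; rw [mem_Ioc] at hn'; omega)]
    congr 1
    ext n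
    rw [mem_union, mem_Icc, mem_Icc, mem_Ioc]
    omega
  set T := ∑ l ∈ range M, ee (l * (d * β)) with hT
  have e2 : ∑ l ∈ Icc 1 M, ee (l * (d * β)) = T * ee (d * β) := by
    rw [hT, sum_mul]
    have : Icc 1 M = (range M).image (fun l => l + 1) := by
      ext x
      simp only [mem_Icc, mem_image, mem_range]
      constructor
      · intro h; exact ⟨x - 1, by omega, by omega⟩
      · rintro ⟨y, hy, rfl⟩; omega
    rw [this, sum_image (fun a _ b _ hab => by simpa using hab)]
    apply sum_congr rfl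
    intro l _
    rw [← ee_add]
    congr 1
    push_cast
    ring
  have e3 : ∑ n ∈ Icc 1 (M * d), ee (n * β) = T * ∑ j ∈ range d, ee (((j + 1 : ℕ) : ℝ) * β) := by
    have h1 : Icc 1 (M * d) = (range (M * d)).image (fun l => l + 1) := by
      ext x
      simp only [mem_Icc, mem_image, mem_range]
      constructor
      · intro h; exact ⟨x - 1, by omega, by omega⟩
      · rintro ⟨y, hy, rfl⟩; omega
    rw [h1, sum_image (fun a _ b _ hab => by simpa using hab), hT, sum_mul]
    clear_value M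
    clear h1 e2 hT T e1 hMN hMN2 hM
    induction M with
    | zero => simp
    | succ k ih =>
      rw [Nat.succ_mul, sum_range_add, ih, sum_range_succ _ k]
      congr 1
      rw [mul_sum]
      apply sum_congr rfl
      intro j _
      rw [← ee_add]
      congr 1
      push_cast
      ring
  have e4 : ∑ l ∈ Icc 1 M, ee (l * (d * β)) - 1 / (d : ℂ) * ∑ n ∈ Icc 1 N, ee (n * β) =
      T * (1 / (d : ℂ) * ∑ j ∈ range d, (ee (d * β) - ee (((j + 1 : ℕ) : ℝ) * β))) -
        1 / (d : ℂ) * ∑ n ∈ Ioc (M * d) N, ee (n * β) := by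
    rw [e1, e2, e3, sum_sub_distrib, sum_const, card_range, nsmul_eq_mul]
    field_simp
    ring
  rw [e4]
  have h1 : ‖1 / (d : ℂ) * ∑ n ∈ Ioc (M * d) N, ee (n * β)‖ ≤ 1 := by
    rw [norm_mul, norm_div, norm_one, Complex.norm_natCast, one_div, inv_mul_le_iff₀ hd0, mul_one]
    refine (norm_sum_le _ _).trans ?_
    simp only [norm_ee, sum_const, Nat.card_Ioc, nsmul_eq_mul, mul_one]
    exact_mod_cast hMN2
  have h2 : ‖1 / (d : ℂ) * ∑ j ∈ range d, (ee (d * β) - ee (((j + 1 : ℕ) : ℝ) * β))‖ ≤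
      2 * Real.pi * (d * |β|) := by
    rw [norm_mul, norm_div, norm_one, Complex.norm_natCast, one_div, inv_mul_le_iff₀ hd0]
    refine (norm_sum_le _ _).trans ?_
    calc ∑ j ∈ range d, ‖ee (d * β) - ee (((j + 1 : ℕ) : ℝ) * β)‖
        ≤ ∑ j ∈ range d, 2 * Real.pi * (d * |β|) := by
          apply sum_le_sum
          intro j hj
          rw [mem_range] at hj
          have : ee (d * β) - ee (((j + 1 : ℕ) : ℝ) * β) =
              ee (((j + 1 : ℕ) : ℝ) * β) * (ee (((d - (j + 1 : ℕ) : ℝ)) * β) - 1) := by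
            rw [mul_sub, ← ee_add, mul_one]
            congr 2
            ring
          rw [this, norm_mul, norm_ee, one_mul, dd_eq_zero_add]
          refine (dd_le _).trans ?_
          apply mul_le_mul_of_nonneg_left _ (by positivity)
          rw [abs_mul]
          apply mul_le_mul_of_nonneg_right _ (abs_nonneg _)
          have h3 : ((j + 1 : ℕ) : ℝ) ≤ d := by exact_mod_cast hj
          have h4 : (0 : ℝ) ≤ ((j + 1 : ℕ) : ℝ) := Nat.cast_nonneg _
          rw [abs_of_nonneg (by linarith)]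
          linarith
      _ = d * (2 * Real.pi * (d * |β|)) := by
          rw [sum_const, card_range, nsmul_eq_mul]
  have h3 : ‖T‖ * (2 * Real.pi * (d * |β|)) ≤ 5 := by
    rcases eq_or_ne β 0 with h | h
    · rw [h]; simp
    · have hb : 0 < |β| := abs_pos.2 h
      have hdb : 0 < (d : ℝ) * |β| := by positivity
      have h4 : 4 * ((d : ℝ) * |β|) ≤ dd (d * β) := by
        have h5 := dd_ge (t := (d : ℝ) * |β|) hdb.le (by linarith)
        rw [min_eq_left (by linarith)] at h5
        refine h5.trans (le_of_eq ?_)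
        rcases abs_choice β with h6 | h6
        · rw [h6]
        · rw [h6, mul_neg, dd_neg]
      have h5 : ‖T‖ ≤ KK M (d * β) := by
        have := geo_bound 0 M (Nat.zero_le _) (M := (M : ℝ)) (by simp) (d * β)
        rwa [← range_eq_Ico] at this
      have h6 := KK_le' (M := (M : ℝ)) (Nat.cast_nonneg _) (show 0 < 4 * ((d : ℝ) * |β|) by positivity) h4
      have h7 : ‖T‖ ≤ 3 / (4 * ((d : ℝ) * |β|)) := h5.trans h6
      calc ‖T‖ * (2 * Real.pi * (d * |β|)) ≤ 3 / (4 * ((d : ℝ) * |β|)) * (2 * Real.pi * (d * |β|)) :=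
            mul_le_mul_of_nonneg_right h7 (by positivity)
        _ = 3 / 2 * Real.pi := by field_simp; norm_num
        _ ≤ 5 := by have := Real.pi_lt_d2; linarith
  calc _ ≤ ‖T * (1 / (d : ℂ) * ∑ j ∈ range d, (ee (d * β) - ee (((j + 1 : ℕ) : ℝ) * β)))‖ +
        ‖1 / (d : ℂ) * ∑ n ∈ Ioc (M * d) N, ee (n * β)‖ := norm_sub_le _ _
    _ ≤ ‖T‖ * (2 * Real.pi * (d * |β|)) + 1 := by
        apply add_le_add _ h1
        rw [norm_mul]
        exact mul_le_mul_of_nonneg_left h2 (norm_nonneg _)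
    _ ≤ 6 := by linarith

/-- frequencies near a fraction with denominator `q ∤ d` -/
lemma gap_major {q : ℕ} (hq : 1 ≤ q) {a : ℤ} (hcop : IsCoprime a (q : ℤ)) {α : ℝ} (R : ℕ)
    (hα : |α - a / q| ≤ 1 / (2 * R * q)) (d : ℕ) (hdR : d ≤ R) (hqd : ¬ q ∣ d) :
    2 / (q : ℝ) ≤ dd (d * α) := by
  have hq0 : (0 : ℝ) < q := by exact_mod_cast hq
  have hd1 : 1 ≤ d := by
    rcases Nat.eq_zero_or_pos d with h | h
    · subst h; exact absurd (dvd_zero q) hqd
    · exact h
  have hR0 : (0 : ℝ) < R := by exact_mod_cast (by omega : 0 < R)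
  have hint : ∀ m : ℤ, 1 / (2 * (q : ℝ)) ≤ |d * α - m| := by
    intro m
    have hne : (d : ℤ) * a - m * q ≠ 0 := by
      intro h
      have h1 : (q : ℤ) ∣ (d : ℤ) * a := ⟨m, by linarith⟩
      have h2 : (q : ℤ) ∣ (d : ℤ) := (hcop.symm).dvd_of_dvd_mul_right h1
      exact hqd (by exact_mod_cast h2)
    have h1 : (1 : ℝ) ≤ |(d : ℝ) * a - m * q| := by
      have : (1 : ℤ) ≤ |(d : ℤ) * a - m * q| := Int.one_le_abs hne
      exact_mod_cast this
    have h2 : 1 / (q : ℝ) ≤ |(d : ℝ) * ((a : ℝ) / q) - m| := by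
      have e : (d : ℝ) * (a / q) - m = ((d : ℝ) * a - m * q) / q := by field_simp
      rw [e, abs_div, abs_of_pos hq0]
      exact div_le_div_of_nonneg_right h1 hq0.le
    have h3 : |(d : ℝ) * (α - a / q)| ≤ 1 / (2 * q) := by
      rw [abs_mul, abs_of_nonneg (Nat.cast_nonneg d)]
      calc (d : ℝ) * |α - a / q| ≤ d * (1 / (2 * R * q)) := mul_le_mul_of_nonneg_left hα (Nat.cast_nonneg _)
        _ ≤ R * (1 / (2 * R * q)) := by
            apply mul_le_mul_of_nonneg_right _ (by positivity)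
            exact_mod_cast hdR
        _ = _ := by field_simp
    have h4 : (d : ℝ) * ((a : ℝ) / q) - m = (d * α - m) - (d : ℝ) * (α - a / q) := by ring
    have h5 := abs_sub (d * α - m : ℝ) ((d : ℝ) * (α - a / q))
    rw [← h4] at h5
    have h6 : 1 / (q : ℝ) = 1 / (2 * q) + 1 / (2 * q) := by field_simp; norm_num
    linarith
  set t := Int.fract ((d : ℝ) * α) with ht
  have h0 : 0 ≤ t := Int.fract_nonneg _
  have h1 : t < 1 := Int.fract_lt_one _
  have hdd : dd (d * α) = dd t := by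
    have : (d : ℝ) * α = t + (⌊(d : ℝ) * α⌋ : ℤ) := (Int.fract_add_floor _).symm
    rw [this, dd_add_int]
  have h2 := dd_ge h0 h1.le
  rw [hdd]
  have h3 : 1 / (2 * (q : ℝ)) ≤ t := by
    have := hint ⌊(d : ℝ) * α⌋
    rw [show (d : ℝ) * α - (⌊(d : ℝ) * α⌋ : ℤ) = t from rfl, abs_of_nonneg h0] at this
    exact this
  have h4 : 1 / (2 * (q : ℝ)) ≤ 1 - t := by
    have := hint (⌊(d : ℝ) * α⌋ + 1)
    have e : (d : ℝ) * α - ((⌊(d : ℝ) * α⌋ + 1 : ℤ) : ℝ) = -(1 - t) := by
      rw [ht, Int.fract]; push_cast; ring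
    rw [e, abs_neg, abs_of_nonneg (by linarith)] at this
    exact this
  have h5 : 1 / (2 * (q : ℝ)) ≤ min t (1 - t) := le_min h3 h4
  have h6 : 2 / (q : ℝ) = 4 * (1 / (2 * q)) := by field_simp; norm_num
  rw [h6]
  linarith

/-- the sum over the multiples is bounded by the kernel -/
lemma Icc_bound (N d : ℕ) (hd : 1 ≤ d) (x : ℝ) :
    ‖∑ l ∈ Icc 1 (N / d), ee (l * x)‖ ≤ KK (2 * N / d) x := by
  have hd0 : (0 : ℝ) < d := by exact_mod_cast hd
  have e : Icc 1 (N / d) = Ico 1 (N / d + 1) := by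
    ext n; simp only [mem_Icc, mem_Ico]; omega
  rw [e]
  apply geo_bound 1 (N / d + 1) (Nat.le_add_left 1 _)
  push_cast
  have h1 : ((N / d : ℕ) : ℝ) ≤ (N : ℝ) / d := Nat.cast_div_le
  have h2 : (0 : ℝ) ≤ (N : ℝ) / d := by positivity
  have h3 : 2 * (N : ℝ) / d = 2 * (N / d) := by ring
  rw [h3]
  linarith

/-- the exponential sum of the test function -/
theorem sup_TT (P R N : ℕ) (hP : 1 ≤ P) (hR : 1 ≤ R) (hN : 1 ≤ N) (W : ℝ) (hW : ∀ d ∈ Icc 1 R, |cf P R d| ≤ W)
    (α : ℝ) : ‖∑ n ∈ Icc 1 N, ((TT P R n : ℝ) : ℂ) * ee (n * α)‖ ≤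
      2000 * W * (Nat.log 2 R + 1 : ℝ) * ((N : ℝ) / P + R) * (1 + Real.log (2 * R)) := by
  classical
  have hR0 : (0 : ℝ) < R := by exact_mod_cast hR
  have hR1 : (1 : ℝ) ≤ R := by exact_mod_cast hR
  have hP0 : (0 : ℝ) < P := by exact_mod_cast hP
  have hW0 : 0 ≤ W := (abs_nonneg _).trans (hW 1 (by rw [mem_Icc]; omega))
  have hl0 : 0 ≤ Real.log (2 * R) := Real.log_nonneg (by linarith)
  have hJ : (1 : ℝ) ≤ (Nat.log 2 R + 1 : ℝ) := by
    have : (0 : ℝ) ≤ (Nat.log 2 R : ℝ) := Nat.cast_nonneg _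
    linarith
  obtain ⟨x, hx1, hx2⟩ := Real.exists_rat_abs_sub_le_and_den_le α (show 0 < 2 * R by omega)
  set q := x.den with hqdef
  set a := x.num with hadef
  have hq : 1 ≤ q := x.den_pos
  have hq0 : (0 : ℝ) < q := by exact_mod_cast hq
  have hqr : (1 : ℝ) ≤ q := by exact_mod_cast hq
  have hxq : (x : ℝ) = (a : ℝ) / q := by
    rw [hadef, hqdef]
    exact_mod_cast (Rat.num_div_den x).symm
  have hcop : IsCoprime a (q : ℤ) := by
    rw [Int.isCoprime_iff_gcd_eq_one]
    have := x.reduced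
    unfold Nat.Coprime at this
    rw [Int.gcd, Int.natAbs_natCast]
    exact this
  rw [hxq] at hx1
  have hα : |α - a / q| ≤ 1 / (2 * R * q) := by
    refine hx1.trans ?_
    apply one_div_le_one_div_of_le (by positivity)
    push_cast
    nlinarith
  have hq2R : (q : ℝ) ≤ 2 * R := by exact_mod_cast hx2
  have hlq : Real.log q ≤ Real.log (2 * R) := Real.log_le_log hq0 hq2R
  have hlq0 : 0 ≤ Real.log q := Real.log_nonneg hqr
  have hα2 : |α - a / q| ≤ 1 / (q : ℝ) ^ 2 := by
    refine hα.trans ?_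
    apply one_div_le_one_div_of_le (by positivity)
    nlinarith
  have hNP : 0 ≤ (N : ℝ) / P := by positivity
  rw [exp_TT]
  rcases lt_or_ge P q with hqP | hqP
  · -- minor arcs
    calc ‖∑ d ∈ Icc 1 R, ((cf P R d : ℝ) : ℂ) * ∑ l ∈ Icc 1 (N / d), ee (l * (d * α))‖
        ≤ ∑ d ∈ Icc 1 R, W * KK (2 * N / d) (d * α) := by
          refine (norm_sum_le _ _).trans (sum_le_sum fun d hd => ?_)
          rw [norm_mul, Complex.norm_real, Real.norm_eq_abs]
          rw [mem_Icc] at hd
          exact mul_le_mul (hW d (by rw [mem_Icc]; exact hd)) (Icc_bound N d hd.1 _) (norm_nonneg _) hW0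
      _ = W * ∑ d ∈ Icc 1 R, KK (2 * N / d) (d * α) := by rw [mul_sum]
      _ ≤ W * (600 * (Nat.log 2 R + 1 : ℝ) * ((N : ℝ) / q + R + q) * (1 + Real.log q)) :=
          mul_le_mul_of_nonneg_left (typeI_lin hq hcop hα2 N R hN hR) hW0
      _ ≤ W * (600 * (Nat.log 2 R + 1 : ℝ) * (3 * ((N : ℝ) / P + R)) * (1 + Real.log (2 * R))) := by
          have h1 : (N : ℝ) / q ≤ N / P := by
            apply div_le_div_of_nonneg_left (Nat.cast_nonneg _) hP0
            exact_mod_cast hqP.le
          have h2 : (N : ℝ) / q + R + q ≤ 3 * ((N : ℝ) / P + R) := by linarith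
          gcongr
      _ ≤ _ := by
          have : 0 ≤ W * (Nat.log 2 R + 1 : ℝ) * ((N : ℝ) / P + R) * (1 + Real.log (2 * R)) := by positivity
          nlinarith
  · -- major arcs
    set β : ℝ := α - a / q with hβ
    rw [← sum_filter_add_sum_filter_not (Icc 1 R) (fun d => q ∣ d)]
    have hmaj : ‖∑ d ∈ (Icc 1 R).filter (fun d => q ∣ d), ((cf P R d : ℝ) : ℂ) *
        ∑ l ∈ Icc 1 (N / d), ee (l * (d * α))‖ ≤ W * (6 * R) := by
      set S1 := ∑ n ∈ Icc 1 N, ee (n * β) with hS1
      have e1 : ∑ d ∈ (Icc 1 R).filter (fun d => q ∣ d), ((cf P R d : ℝ) : ℂ) * (1 / (d : ℂ) * S1) = 0 := by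
        have h1 := sum_cf_mult P R q hq
        rw [if_neg (by rw [mem_Mod]; omega)] at h1
        have h2 : (((∑ d ∈ (Icc 1 R).filter (fun d => q ∣ d), cf P R d / d : ℝ)) : ℂ) * S1 = 0 := by
          rw [h1]; simp
        rw [← h2]
        push_cast
        rw [sum_mul]
        apply sum_congr rfl
        intro d _
        ring
      have e2 : ∑ d ∈ (Icc 1 R).filter (fun d => q ∣ d), ((cf P R d : ℝ) : ℂ) *
          ∑ l ∈ Icc 1 (N / d), ee (l * (d * α)) =
          ∑ d ∈ (Icc 1 R).filter (fun d => q ∣ d), ((cf P R d : ℝ) : ℂ) *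
          (∑ l ∈ Icc 1 (N / d), ee (l * (d * β)) - 1 / (d : ℂ) * S1) := by
        have : ∑ d ∈ (Icc 1 R).filter (fun d => q ∣ d), ((cf P R d : ℝ) : ℂ) *
          (∑ l ∈ Icc 1 (N / d), ee (l * (d * β)) - 1 / (d : ℂ) * S1) =
          ∑ d ∈ (Icc 1 R).filter (fun d => q ∣ d), ((cf P R d : ℝ) : ℂ) *
          ∑ l ∈ Icc 1 (N / d), ee (l * (d * β)) -
          ∑ d ∈ (Icc 1 R).filter (fun d => q ∣ d), ((cf P R d : ℝ) : ℂ) * (1 / (d : ℂ) * S1) := by
          rw [← sum_sub_distrib]
          apply sum_congr rfl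
          intro d _
          ring
        rw [this, e1, sub_zero]
        apply sum_congr rfl
        intro d hd
        rw [mem_filter] at hd
        obtain ⟨_, m, hm⟩ := hd
        congr 1
        apply sum_congr rfl
        intro l _
        have h3 : (l : ℝ) * (d * α) = l * (d * β) + ((l * (m * a) : ℤ) : ℝ) := by
          have : (d : ℝ) = q * m := by rw [hm]; push_cast; ring
          rw [hβ, this]
          push_cast
          field_simp
          ring
        rw [h3, ee_add_int]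
      rw [e2]
      refine (norm_sum_le _ _).trans ?_
      calc ∑ d ∈ (Icc 1 R).filter (fun d => q ∣ d), ‖((cf P R d : ℝ) : ℂ) *
          (∑ l ∈ Icc 1 (N / d), ee (l * (d * β)) - 1 / (d : ℂ) * S1)‖
          ≤ ∑ d ∈ (Icc 1 R).filter (fun d => q ∣ d), W * 6 := by
            apply sum_le_sum
            intro d hd
            rw [mem_filter, mem_Icc] at hd
            rw [norm_mul, Complex.norm_real, Real.norm_eq_abs]
            apply mul_le_mul (hW d (by rw [mem_Icc]; exact hd.1)) _ (norm_nonneg _) hW0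
            apply geo_cmp N d hd.1.1 β
            have hdR : (d : ℝ) ≤ R := by exact_mod_cast hd.1.2
            calc (d : ℝ) * |β| ≤ R * (1 / (2 * R * q)) := by gcongr
              _ = 1 / (2 * q) := by field_simp
              _ ≤ 1 / 2 := by
                  apply one_div_le_one_div_of_le (by norm_num)
                  linarith
        _ ≤ ∑ d ∈ Icc 1 R, W * 6 :=
            sum_le_sum_of_subset_of_nonneg (filter_subset _ _) fun _ _ _ => by positivity
        _ = W * (6 * R) := by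
            rw [sum_const, Nat.card_Icc, nsmul_eq_mul]
            push_cast
            ring
    have hmin : ‖∑ d ∈ (Icc 1 R).filter (fun d => ¬ q ∣ d), ((cf P R d : ℝ) : ℂ) *
        ∑ l ∈ Icc 1 (N / d), ee (l * (d * α))‖ ≤ W * (300 * R * (1 + Real.log (2 * R))) := by
      have h1 : ∀ d ∈ (Icc 1 R).filter (fun d => ¬ q ∣ d), ‖((cf P R d : ℝ) : ℂ) *
        ∑ l ∈ Icc 1 (N / d), ee (l * (d * α))‖ ≤ W * (3 / 2 * KK q (0 + d * α)) := by
        intro d hd
        rw [mem_filter, mem_Icc] at hd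
        rw [norm_mul, Complex.norm_real, Real.norm_eq_abs]
        apply mul_le_mul (hW d (by rw [mem_Icc]; exact hd.1)) _ (norm_nonneg _) hW0
        refine (Icc_bound N d hd.1.1 _).trans ?_
        have h2 := gap_major hq hcop R hα d hd.1.2 hd.2
        have h3 : 0 < 2 / (q : ℝ) := by positivity
        have h4 : 0 < dd (d * α) := lt_of_lt_of_le h3 h2
        have h5 := KK_le' (M := 2 * N / d) (by positivity) h4 le_rfl
        refine h5.trans ?_
        rw [zero_add]
        unfold KK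
        have h6 : 2 ≤ q * dd (d * α) := by
          rw [div_le_iff₀ hq0] at h2
          linarith
        rw [mul_div_assoc', div_le_div_iff₀ h4 (by positivity)]
        nlinarith
      refine (norm_sum_le _ _).trans ((sum_le_sum h1).trans ?_)
      rw [← mul_sum, ← mul_sum]
      apply mul_le_mul_of_nonneg_left _ hW0
      have h2 : ∑ d ∈ (Icc 1 R).filter (fun d => ¬ q ∣ d), KK q (0 + d * α) ≤
          ∑ d ∈ range (R + 1), KK q (0 + d * α) := by
        apply sum_le_sum_of_subset_of_nonneg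
        · intro d hd
          rw [mem_filter, mem_Icc] at hd
          rw [mem_range]; omega
        · intro d _ _; exact KK_nonneg hq0.le _
      have h3 := vino hq hcop hα2 (M := (q : ℝ)) hq0.le 0 (R + 1)
      have h4 : (((R + 1 : ℕ) : ℝ) / q + 1) * (39 * q + 3 * q * (1 + Real.log q)) =
          ((R : ℝ) + 1 + q) * (42 + 3 * Real.log q) := by
        push_cast
        field_simp
        ring
      rw [h4] at h3
      have h5 : ((R : ℝ) + 1 + q) * (42 + 3 * Real.log q) ≤ (4 * R) * (42 * (1 + Real.log (2 * R))) := by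
        apply mul_le_mul (by linarith) (by linarith) (by linarith) (by positivity)
      nlinarith
    have h7 : W * (6 * R) + W * (300 * R * (1 + Real.log (2 * R))) ≤
        2000 * W * (Nat.log 2 R + 1 : ℝ) * ((N : ℝ) / P + R) * (1 + Real.log (2 * R)) := by
      set l := 1 + Real.log (2 * R) with hl
      have hl1 : 1 ≤ l := by linarith
      set J := (Nat.log 2 R + 1 : ℝ) with hJdef
      calc W * (6 * R) + W * (300 * R * l) ≤ W * (6 * R * l) + W * (300 * R * l) := by
            apply add_le_add_left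
            apply mul_le_mul_of_nonneg_left _ hW0
            have : 0 ≤ 6 * (R : ℝ) := by positivity
            nlinarith
        _ = 306 * (W * R * l) := by ring
        _ ≤ 2000 * (W * R * l) := by
            apply mul_le_mul_of_nonneg_right (by norm_num) (by positivity)
        _ ≤ 2000 * (W * ((N : ℝ) / P + R) * l) := by
            gcongr
            linarith
        _ ≤ 2000 * (W * ((N : ℝ) / P + R) * l) * J := by
            apply le_mul_of_one_le_right (by positivity) hJ
        _ = _ := by ring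
    exact (norm_add_le _ _).trans ((add_le_add hmaj hmin).trans h7)

end Pool.Agent.T2h84.LD
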